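import Pool.Agent.Helper57.PR.LogB

/-!
# PR: the certificate (rational arithmetic), `c = 0.515`
-/

namespace Pool.Agent.Helper57.PR

/-- larger, smaller of two rationals (kernel friendly) -/
def qmax (a b : ℚ) : ℚ := if a ≤ b then b else a
def qmin (a b : ℚ) : ℚ := if a ≤ b then a else b

theorem qmax_eq (a b : ℚ) : qmax a b = max a b := by
  unfold qmax
  split_ifs with h
  · rw [max_eq_right h]
  · rw [max_eq_left (not_le.1 h).le]

theorem qmin_eq (a b : ℚ) : qmin a b = min a b := by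
  unfold qmin
  split_ifs with h
  · rw [min_eq_left h]
  · rw [min_eq_right (not_le.1 h).le]

/-- window, level, slack, `λ`, `w₀ = 2 c s - λ`, lower bound of `3 - 2 log 2` -/
def cc : ℚ := 103 / 200
def ss : ℚ := 1999 / 4000
def ee : ℚ := 1 / 100000
def la : ℚ := 232142 / 1000000
def w0 : ℚ := 2 * cc * ss - la
def l0 : ℚ := 16137056 / 10000000

/-- lower bound of `π² c³/6`, upper bound of `π⁴ c⁵/120` -/
def kl : ℚ := 2246828 / 10000000
def hh : ℚ := 294073 / 10000000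

/-- bound for the cofactors -/
def eqq (a b t1 t2 : ℚ) : ℚ :=
  let z := ss - (1 + t2) * b - 1 / 3
  let lo := qmax a z
  let Y1 := qmax lo (qmin (1 / 3) (ss - (2 + t1) * a))
  let Y2 := qmax a (qmin (1 / 3) (ss - (3 + t1) * a))
  let EA := b * lu (Y1 / lo) + (Y2 - a - a * ll (Y2 / a))
  if 0 ≤ z then (if b ≤ 1 / 9 then qmin EA ((1 / 3 + (1 + t2 - t1) * b) / l0) else EA) else EA

/-- one cell of class T -/
def cq (a b t1 t2 : ℚ) : ℚ :=
  (b - a) * (w0 * (t2 * t2 - t1 * t1) / 2 - cc * (t2 * t2 * t2 - t1 * t1 * t1) * a / 3) * eqq a b t1 t2 /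
    qmax (ss - (1 + t2) * b) (2 * a)

/-- the grid of class T -/
def tA (i : ℕ) : ℚ := if i = 0 then 1 / 4000 else i / 240
def tB (i : ℕ) : ℚ := (i + 1) / 240
def tt (i j : ℕ) : ℚ :=
  let a := tA i
  let t := (j + 1 : ℚ) / 8
  if (3 + t) * a ≤ ss then t else qmax (j / 8) ((ss - 3 * a) / a)

def cellQ (i j : ℕ) : ℚ := cq (tA i) (tB i) (j / 8) (tt i j)

/-- one box of class R -/
def xq (a h U w : ℚ) : ℚ :=
  w * ((ss - a) * lu (U / h) - (U - h)) - cc * ((ss - a) * (ss - a) * lu (U / h) - 2 * (ss - a) * (U - h) + (U * U - h * h) / 2)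

def bq (a b h U w : ℚ) : ℚ := lu (b / a) * xq a h U w

/-- `2 κ y³ - 2 η y⁵` -/
def dl (y : ℚ) : ℚ := 2 * kl * (y * y * y) - 2 * hh * (y * y * y * y * y)

def w1 : ℚ := w0 - 2 * dl (1 / 5 - ee)
def w2 : ℚ := w0 - dl (1 / 4 - ee)

def h1 : ℚ := 1 / 5 - ee
def r1 (i : ℕ) : ℚ := h1 + (ss - 2 * h1) * i / 30
def U1 (i : ℕ) : ℚ := qmin (r1 (i + 1)) (ss - r1 i)
def box1 (i : ℕ) : ℚ := bq (r1 i) (r1 (i + 1)) h1 (U1 i) w1

def r2 (i : ℕ) : ℚ := 4 / 15 - ee + (1 / 15) * i / 30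
def h2 (i : ℕ) : ℚ := qmax (1 / 7 - ee) (1 - 2 * ee - 3 * r2 (i + 1))
def U2 (i : ℕ) : ℚ := qmin (1 / 5 - ee) (ss - r2 i)
def box2 (i : ℕ) : ℚ := bq (r2 i) (r2 (i + 1)) (h2 i) (U2 i) w2

/-- upper bound by a multiple of `10⁻¹²` -/
def up (q : ℚ) : ℤ := q.num * 1000000000000 / q.den + 1

/-- sum (kernel friendly) -/
def sumZ (f : ℕ → ℤ) : ℕ → ℤ
  | 0 => 0
  | n + 1 => sumZ f n + f n

theorem up_spec (q : ℚ) : q ≤ (up q : ℚ) / 1000000000000 := by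
  have hd : (0 : ℤ) < (q.den : ℤ) := by exact_mod_cast q.den_pos
  have hdq : (0 : ℚ) < (q.den : ℚ) := by exact_mod_cast q.den_pos
  have h1 : q.num * 1000000000000 < (q.num * 1000000000000 / q.den + 1) * q.den := Int.lt_mul_of_ediv_lt hd (by omega)
  have h2 : (q.num : ℚ) * 1000000000000 < ((q.num * 1000000000000 / q.den + 1 : ℤ) : ℚ) * q.den := by exact_mod_cast h1
  rw [le_div_iff₀ (by norm_num)]
  unfold up
  have h3 : q * q.den = q.num := Rat.mul_den_eq_num q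
  by_contra hcon
  push Not at hcon
  have h4 := mul_lt_mul_of_pos_right hcon hdq
  have h5 : q * 1000000000000 * q.den = q.num * 1000000000000 := by rw [← h3]; ring
  rw [h5] at h4
  linarith

theorem sumZ_eq (f : ℕ → ℤ) (n : ℕ) : sumZ f n = ∑ i ∈ Finset.range n, f i := by
  induction n with
  | zero => rfl
  | succ n ih => rw [Finset.sum_range_succ, ← ih]; rfl

/-- checks of the hypotheses -/
def chkT (a b t1 t2 : ℚ) : Bool := decide (1 / 4000 ≤ a ∧ a ≤ b ∧ b ≤ 1 / 6 ∧ 0 ≤ t1 ∧ t1 ≤ t2 ∧ t2 ≤ 1 / 2 ∧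
  0 ≤ eqq a b t1 t2 ∧ eqq a b t1 t2 ≤ 9 / 10)

def chkR (a b h U w : ℚ) : Bool := decide (1 / 10 ≤ a ∧ a ≤ b ∧ b ≤ 1 / 2 ∧ 1 / 10 ≤ h ∧ h ≤ U ∧ U ≤ ss - a ∧ 0 ≤ w ∧ w ≤ 1 ∧
  2 * cc * (ss - a - h) ≤ w ∧ cc * (ss - a) ≤ w ∧ 0 ≤ xq a h U w)

theorem cert_cT : ∀ i < 40, ∀ j < 4, chkT (tA i) (tB i) ((j : ℕ) / 8) (tt i j) = true := by decide +kernel

theorem cert_c1 : ∀ i < 30, chkR (r1 i) (r1 (i + 1)) h1 (U1 i) w1 = true := by decide +kernel

theorem cert_c2 : ∀ i < 30, chkR (r2 i) (r2 (i + 1)) (h2 i) (U2 i) w2 = true := by decide +kernel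

theorem cert_T : sumZ (fun i => sumZ (fun j => up (cellQ i j)) 4) 40 ≤ 2087000000 := by decide +kernel

theorem cert_1 : sumZ (fun i => up (box1 i)) 30 ≤ 452100000 := by decide +kernel

theorem cert_2 : sumZ (fun i => up (box2 i)) 30 ≤ 448000000 := by decide +kernel

end Pool.Agent.Helper57.PR
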