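import Pool.Agent.Helper57.PR.S1

/-!
# PR-S8: the cofactors `d'` of class T by number of primes (for larger `q`)

Primes: `∑ 1/p ≤ log (Y1/lo) + ε`. At least two primes: all primes are in `(y, Y - y]` (`y = y_q`) and `≤ 1/3`, so the sum is at most
`∏ (1 + 1/p) - 1 - S ≤ exp S - 1 - S` with `S = ∑ 1/p ≤ log (Y2/y) + ε`, and `y (Y2/y - 1 - log (Y2/y)) ≤ Y2 - a - a log (Y2/a)` for `a ≤ y`.
-/

open MeasureTheory Set Filter Topology
open Pool.Agent.Helper57.Zeta Pool.Agent.Helper57.PC Pool.Agent.Helper57.LH Pool.Agent.Helper78.SG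
open Pool.Agent.Helper4.SH
open Pool.Agent.Helper69.PP

namespace Pool.Agent.Helper57.PR

/-- squarefree numbers with at least two prime factors, all in `P` -/
private theorem two60 {D P : Finset ℕ} (hD : ∀ d ∈ D, Squarefree d ∧ d.primeFactors ⊆ P ∧ 2 ≤ d.primeFactors.card) :
    ∑ d ∈ D, 1 / (d : ℝ) ≤ Real.exp (∑ p ∈ P, 1 / (p : ℝ)) - 1 - ∑ p ∈ P, 1 / (p : ℝ) := by
  classical
  have h1 : ∏ p ∈ P, (1 + 1 / (p : ℝ)) ≤ Real.exp (∑ p ∈ P, 1 / (p : ℝ)) := by
    rw [Real.exp_sum]
    refine Finset.prod_le_prod (fun p _ => by positivity) fun p _ => ?_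
    have := Real.add_one_le_exp (1 / (p : ℝ))
    linarith
  rw [Finset.prod_one_add] at h1
  have hA : ∑ d ∈ D, 1 / (d : ℝ) = ∑ U ∈ D.image Nat.primeFactors, ∏ p ∈ U, 1 / (p : ℝ) := by
    rw [Finset.sum_image]
    · refine Finset.sum_congr rfl fun d hd => ?_
      rw [Finset.prod_div_distrib, Finset.prod_const_one]
      have := Nat.prod_primeFactors_of_squarefree (hD d hd).1
      rw [← Nat.cast_prod, this]
    · intro d hd d' hd' h
      rw [← Nat.prod_primeFactors_of_squarefree (hD d hd).1, ← Nat.prod_primeFactors_of_squarefree (hD d' hd').1, h]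
  have hB : ∑ p ∈ P, 1 / (p : ℝ) = ∑ U ∈ P.image (fun p => ({p} : Finset ℕ)), ∏ p ∈ U, 1 / (p : ℝ) := by
    rw [Finset.sum_image]
    · exact Finset.sum_congr rfl fun p _ => by rw [Finset.prod_singleton]
    · intro p _ p' _ h
      exact Finset.singleton_injective h
  have hdis1 : Disjoint (D.image Nat.primeFactors) (P.image (fun p => ({p} : Finset ℕ))) := by
    rw [Finset.disjoint_left]
    intro U hU hU'
    obtain ⟨d, hd, rfl⟩ := Finset.mem_image.1 hU
    obtain ⟨p, _, hp⟩ := Finset.mem_image.1 hU'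
    have := (hD d hd).2.2
    rw [← hp] at this
    simp at this
  have hdis2 : Disjoint (D.image Nat.primeFactors ∪ P.image (fun p => ({p} : Finset ℕ))) {∅} := by
    rw [Finset.disjoint_singleton_right]
    intro h
    rcases Finset.mem_union.1 h with h | h
    · obtain ⟨d, hd, he⟩ := Finset.mem_image.1 h
      have := (hD d hd).2.2
      rw [he] at this
      simp at this
    · obtain ⟨p, _, hp⟩ := Finset.mem_image.1 h
      exact Finset.singleton_ne_empty p hp
  have hsub : (D.image Nat.primeFactors ∪ P.image (fun p => ({p} : Finset ℕ))) ∪ {∅} ⊆ P.powerset := by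
    intro U hU
    rw [Finset.mem_powerset]
    rcases Finset.mem_union.1 hU with h | h
    · rcases Finset.mem_union.1 h with h | h
      · obtain ⟨d, hd, rfl⟩ := Finset.mem_image.1 h
        exact (hD d hd).2.1
      · obtain ⟨p, hp, rfl⟩ := Finset.mem_image.1 h
        exact Finset.singleton_subset_iff.2 hp
    · rw [Finset.mem_singleton.1 h]
      exact Finset.empty_subset _
  have h2 : ∑ d ∈ D, 1 / (d : ℝ) + ∑ p ∈ P, 1 / (p : ℝ) + 1 ≤ ∑ U ∈ P.powerset, ∏ p ∈ U, 1 / (p : ℝ) := by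
    refine le_trans (le_of_eq ?_) (Finset.sum_le_sum_of_subset_of_nonneg hsub fun U _ _ =>
      Finset.prod_nonneg fun p _ => by positivity)
    rw [Finset.sum_union hdis2, Finset.sum_union hdis1, ← hA, ← hB, Finset.sum_singleton, Finset.prod_empty]
  linarith

private theorem exp_mono60 {x y : ℝ} (hx : 0 ≤ x) (hxy : x ≤ y) : Real.exp x - x ≤ Real.exp y - y := by
  have h1 := Real.add_one_le_exp (y - x)
  have h2 : 1 ≤ Real.exp x := Real.one_le_exp hx
  have h3 : Real.exp y = Real.exp x * Real.exp (y - x) := by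
    rw [← Real.exp_add]
    congr 1
    ring
  rw [h3]
  nlinarith

private theorem h_mono60 {a y Y : ℝ} (ha : 0 < a) (hay : a ≤ y) (hyY : y ≤ Y) :
    a + a * Real.log (Y / a) ≤ y + y * Real.log (Y / y) := by
  have hy : 0 < y := by linarith
  have hY : 0 < Y := by linarith
  have h1 : 0 ≤ Real.log (Y / y) := Real.log_nonneg (by rwa [le_div_iff₀ hy, one_mul])
  have h2 : Real.log (Y / a) = Real.log (Y / y) + Real.log (y / a) := by
    rw [Real.log_div hY.ne' ha.ne', Real.log_div hY.ne' hy.ne', Real.log_div hy.ne' ha.ne']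
    ring
  have h3 : a * Real.log (y / a) ≤ y - a := by
    have := Real.log_le_sub_one_of_pos (div_pos hy ha)
    calc a * Real.log (y / a) ≤ a * (y / a - 1) := mul_le_mul_of_nonneg_left this ha.le
      _ = y - a := by field_simp
  rw [h2]
  nlinarith [mul_nonneg (sub_nonneg.2 hay) h1]

private theorem yy_mono60 {T : ℝ} (hT : 1 < T) {m n : ℕ} (hm : 0 < m) (hmn : m ≤ n) : yy T m ≤ yy T n := by
  have hL : 0 < Real.log T := Real.log_pos hT
  unfold yy
  have h : Real.log m ≤ Real.log n := Real.log_le_log (by exact_mod_cast hm) (by exact_mod_cast hmn)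
  gcongr

private theorem yy_lt60 {T : ℝ} (hT : 1 < T) {m n : ℕ} (hm : 0 < m) (hmn : m < n) : yy T m < yy T n := by
  have hL : 0 < Real.log T := Real.log_pos hT
  unfold yy
  have h : Real.log m < Real.log n := Real.log_lt_log (by exact_mod_cast hm) (by exact_mod_cast hmn)
  exact div_lt_div_of_pos_right h hL

private theorem yy_mul60 {T : ℝ} {m n : ℕ} (hm : m ≠ 0) (hn : n ≠ 0) : yy T (m * n) = yy T m + yy T n := by
  unfold yy
  push_cast
  rw [Real.log_mul (by exact_mod_cast hm) (by exact_mod_cast hn), add_div]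

theorem sumA_DS {T ε s a b t1 t2 lo Y1 Y2 : ℝ} (hT : 1 < T) (hε : 0 < ε) (hε1 : ε ≤ 1 / 1000) (hm : MT T (1 / 4000) ε)
    (ha : 1 / 4000 ≤ a) (hab : a ≤ b) (hb : b ≤ 1 / 5) (ht1 : 0 ≤ t1) (ht : t1 ≤ t2) (ht2 : t2 ≤ 1 / 2) (hs0 : 2 / 5 ≤ s) (hs1 : s ≤ 1 / 2)
    (hlo0 : 1 / 4000 ≤ lo) (hlo : lo ≤ a ∨ lo ≤ s - (1 + t2) * b - 1 / 3) (hlY : lo ≤ Y1)
    (hY1 : 1 / 3 ≤ Y1 ∨ s - (2 + t1) * a ≤ Y1) (hY2 : 1 / 3 ≤ Y2 ∨ s - (3 + t1) * a ≤ Y2) (haY2 : a ≤ Y2) (hY1' : Y1 ≤ 1)
    (hY2' : Y2 ≤ 1) {q : ℕ} (hq : q.Prime) (haq : a < yy T q) (hqb : yy T q ≤ b) :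
    yy T q * ∑ d ∈ DS T q (s - (1 + t2) * yy T q - 1 / 3) (s - (2 + t1) * yy T q), 1 / (d : ℝ) ≤
      b * Real.log (Y1 / lo) + (Y2 - a - a * Real.log (Y2 / a)) + 10 ^ 5 * ε := by
  classical
  obtain ⟨y, hy⟩ : ∃ y, y = yy T q := ⟨_, rfl⟩
  obtain ⟨X, hX⟩ : ∃ X, X = s - (1 + t2) * y - 1 / 3 := ⟨_, rfl⟩
  obtain ⟨Y, hY⟩ : ∃ Y, Y = s - (2 + t1) * y := ⟨_, rfl⟩
  rw [← hy] at haq hqb ⊢
  rw [← hX, ← hY]
  have hy0 : 0 < y := by linarith
  have hb0 : 0 < b := by linarith
  have hq0 : 0 < q := hq.pos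
  have hlog1 : 0 ≤ Real.log (Y1 / lo) := Real.log_nonneg (by rwa [le_div_iff₀ (by linarith), one_mul])
  obtain ⟨D1, hD1⟩ : ∃ D1, D1 = (DS T q X Y).filter Nat.Prime := ⟨_, rfl⟩
  obtain ⟨D2, hD2⟩ : ∃ D2, D2 = (DS T q X Y).filter (fun d => ¬ d.Prime) := ⟨_, rfl⟩
  have hsplit : ∑ d ∈ DS T q X Y, 1 / (d : ℝ) = ∑ d ∈ D1, 1 / (d : ℝ) + ∑ d ∈ D2, 1 / (d : ℝ) := by
    rw [hD1, hD2, Finset.sum_filter_add_sum_filter_not]
  have hPP : ∀ d p : ℕ, d ∈ DS T q X Y → p ∈ d.primeFactors → p ∈ PP T ∧ y < yy T p ∧ yy T p ≤ 1 / 3 := by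
    intro d p hd hp
    unfold DS at hd
    rw [Finset.mem_filter, Finset.mem_Icc] at hd
    obtain ⟨⟨h1, h2⟩, h3, h4, h5, h6, h7⟩ := hd
    have hpp := Nat.prime_of_mem_primeFactors hp
    have hle := Nat.le_of_mem_primeFactors hp
    obtain ⟨h8, h9⟩ := h5 p hp
    refine ⟨?_, ?_, h9⟩
    · unfold PP
      rw [Finset.mem_filter, Finset.mem_range]
      exact ⟨by omega, hpp⟩
    · rw [hy]
      exact yy_lt60 hT hq0 h8
  -- primes
  have hs1' : ∑ d ∈ D1, 1 / (d : ℝ) ≤ Real.log (Y1 / lo) + ε := by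
    have h1 : ∑ d ∈ D1, 1 / (d : ℝ) ≤ SP T 0 lo Y1 := by
      have h2 : SP T 0 lo Y1 = ∑ p ∈ PI T lo Y1, 1 / (p : ℝ) := by
        unfold SP
        exact Finset.sum_congr rfl fun p _ => by rw [pow_zero]
      rw [h2]
      refine Finset.sum_le_sum_of_subset_of_nonneg ?_ (fun _ _ _ => by positivity)
      intro p hp
      rw [hD1, Finset.mem_filter] at hp
      obtain ⟨hp1, hpp⟩ := hp
      obtain ⟨h3, h4, h5⟩ := hPP p p hp1 (by rw [hpp.primeFactors]; exact Finset.mem_singleton_self p)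
      unfold DS at hp1
      rw [Finset.mem_filter, Finset.mem_Icc] at hp1
      obtain ⟨_, _, _, _, h6, h7⟩ := hp1
      unfold PI
      rw [Finset.mem_filter]
      refine ⟨h3, ?_, ?_⟩
      · rcases hlo with h | h
        · linarith
        · have : (1 + t2) * y ≤ (1 + t2) * b := mul_le_mul_of_nonneg_left hqb (by linarith)
          linarith
      · rcases hY1 with h | h
        · linarith
        · have : (2 + t1) * a ≤ (2 + t1) * y := mul_le_mul_of_nonneg_left haq.le (by linarith)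
          linarith
    have h2 := (abs_le.1 (hm lo Y1 hlo0 hlY hY1').1).2
    linarith
  -- at least two primes
  have hs2' : y * ∑ d ∈ D2, 1 / (d : ℝ) ≤ Y2 - a - a * Real.log (Y2 / a) + 2 * ε := by
    have hD2' : ∀ d ∈ D2, Squarefree d ∧ d.primeFactors ⊆ PI T y Y2 ∧ 2 ≤ d.primeFactors.card := by
      intro d hd
      rw [hD2, Finset.mem_filter] at hd
      obtain ⟨hd1, hdp⟩ := hd
      have hd2 := hd1
      unfold DS at hd2
      rw [Finset.mem_filter, Finset.mem_Icc] at hd2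
      obtain ⟨⟨h1, h2⟩, h3, h4, h5, h6, h7⟩ := hd2
      have hd0 : d ≠ 0 := by omega
      have hcard : 2 ≤ d.primeFactors.card := by
        by_contra hcon
        have hc : d.primeFactors.card = 0 ∨ d.primeFactors.card = 1 := by omega
        rcases hc with hc | hc
        · rw [Finset.card_eq_zero, Nat.primeFactors_eq_empty] at hc
          rcases hc with hc | hc
          · exact hd0 hc
          · exact h4 hc
        · obtain ⟨p, hp⟩ := Finset.card_eq_one.1 hc
          have e := Nat.prod_primeFactors_of_squarefree h3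
          rw [hp, Finset.prod_singleton] at e
          apply hdp
          rw [← e]
          exact Nat.prime_of_mem_primeFactors (n := d) (by rw [hp]; exact Finset.mem_singleton_self p)
      refine ⟨h3, fun p hp => ?_, hcard⟩
      obtain ⟨e1, e2, e3⟩ := hPP d p hd1 hp
      unfold PI
      rw [Finset.mem_filter]
      refine ⟨e1, e2, ?_⟩
      rcases hY2 with h | h
      · linarith
      · -- another prime
        obtain ⟨p', hp', hne⟩ := Finset.exists_mem_ne (by omega : 1 < d.primeFactors.card) p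
        obtain ⟨_, e5, _⟩ := hPP d p' hd1 hp'
        have hpp := Nat.prime_of_mem_primeFactors hp
        have hpp' := Nat.prime_of_mem_primeFactors hp'
        have hcop : Nat.Coprime p' p := (Nat.coprime_primes hpp' hpp).2 hne
        have hdvd : p' * p ∣ d := hcop.mul_dvd_of_dvd_of_dvd (Nat.dvd_of_mem_primeFactors hp') (Nat.dvd_of_mem_primeFactors hp)
        have hle : p' * p ≤ d := Nat.le_of_dvd (Nat.pos_of_ne_zero hd0) hdvd
        have h8 := yy_mono60 hT (Nat.mul_pos hpp'.pos hpp.pos) hle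
        rw [yy_mul60 hpp'.ne_zero hpp.ne_zero] at h8
        have : (3 + t1) * a ≤ (3 + t1) * y := mul_le_mul_of_nonneg_left haq.le (by linarith)
        have e6 : (3 + t1) * y = (2 + t1) * y + y := by ring
        linarith
    have hlog2 : a * Real.log (Y2 / a) ≤ Y2 - a := by
      have ha0 : 0 < a := by linarith
      have := Real.log_le_sub_one_of_pos (div_pos (lt_of_lt_of_le ha0 haY2) ha0)
      calc a * Real.log (Y2 / a) ≤ a * (Y2 / a - 1) := mul_le_mul_of_nonneg_left this ha0.le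
        _ = Y2 - a := by field_simp
    have htwo := two60 hD2'
    obtain ⟨S, hS⟩ : ∃ S, S = ∑ p ∈ PI T y Y2, 1 / (p : ℝ) := ⟨_, rfl⟩
    rw [← hS] at htwo
    by_cases hyY2 : y ≤ Y2
    · have hS0 : 0 ≤ S := by
        rw [hS]
        exact Finset.sum_nonneg fun _ _ => by positivity
      have hS1 : S ≤ Real.log (Y2 / y) + ε := by
        have h1 : SP T 0 y Y2 = S := by
          rw [hS]
          unfold SP
          exact Finset.sum_congr rfl fun p _ => by rw [pow_zero]
        have h2 := (abs_le.1 (hm y Y2 (by linarith) hyY2 hY2').1).2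
        rw [h1] at h2
        linarith
      have h3 := exp_mono60 hS0 hS1
      have h4 : Real.exp (Real.log (Y2 / y) + ε) = Y2 / y * Real.exp ε := by
        rw [Real.exp_add, Real.exp_log (div_pos (by linarith) hy0)]
      have h5 : Real.exp ε ≤ 1 + 2 * ε := by
        have h6 := Real.add_one_le_exp (-ε)
        rw [Real.exp_neg] at h6
        have h7 : 0 < Real.exp ε := Real.exp_pos ε
        have h8 : (-ε + 1) * Real.exp ε ≤ 1 := by
          calc (-ε + 1) * Real.exp ε ≤ (Real.exp ε)⁻¹ * Real.exp ε := mul_le_mul_of_nonneg_right h6 h7.le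
            _ = 1 := inv_mul_cancel₀ h7.ne'
        nlinarith
      have h6 : y * (Y2 / y * Real.exp ε) ≤ Y2 + 2 * ε := by
        have e : y * (Y2 / y * Real.exp ε) = Y2 * Real.exp ε := by field_simp
        rw [e]
        nlinarith
      have h7 := h_mono60 (by linarith : 0 < a) haq.le hyY2
      have h8 : y * ∑ d ∈ D2, 1 / (d : ℝ) ≤ y * (Y2 / y * Real.exp ε - 1 - Real.log (Y2 / y)) := by
        refine mul_le_mul_of_nonneg_left ?_ hy0.le
        rw [h4] at h3
        linarith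
      have h9 : y * (Y2 / y * Real.exp ε - 1 - Real.log (Y2 / y)) =
          y * (Y2 / y * Real.exp ε) - y - y * Real.log (Y2 / y) := by ring
      linarith
    · have hemp : D2 = ∅ := by
        rw [Finset.eq_empty_iff_forall_notMem]
        intro d hd
        obtain ⟨h1, h2, h3⟩ := hD2' d hd
        obtain ⟨p, hp⟩ := Finset.card_pos.1 (by omega : 0 < d.primeFactors.card)
        have := h2 hp
        unfold PI at this
        rw [Finset.mem_filter] at this
        exact hyY2 (this.2.1.le.trans this.2.2)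
      rw [hemp, Finset.sum_empty, mul_zero]
      linarith
  have h1 : y * ∑ d ∈ D1, 1 / (d : ℝ) ≤ b * Real.log (Y1 / lo) + ε := by
    have hn : 0 ≤ ∑ d ∈ D1, 1 / (d : ℝ) := Finset.sum_nonneg fun _ _ => by positivity
    calc y * ∑ d ∈ D1, 1 / (d : ℝ) ≤ b * (Real.log (Y1 / lo) + ε) := by gcongr
      _ ≤ _ := by nlinarith
  rw [hsplit, mul_add]
  linarith

end Pool.Agent.Helper57.PR
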