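import Pool.Agent.Helper57.PR.S1

/-!
# PR-S9: the cofactors `d'` of class T by the flat density (for small `q`)

Let `Z` be the set of the `m ∈ RN N (T^(2y))` with all primes `≤ q` (`y = y_q`). The products `d' m` are distinct rough numbers with size
in `(X, Y + 2y]`: `(∑ 1/d') (∑_{m ∈ Z} 1/m) ≤ RS (T^(Y+2y)) - RS (T^X) ≤ (Y + 2y - X + ε) v`. And
`∑_{m ∈ Z} 1/m ≥ 2 y v - ∑_{y < y_p ≤ 2y} (1/p) RS (T^(2y - y_p)) ≥ 2 y v - v (2y (log 2 + ε) - (y - ε) + ε (log 2 + ε))`, which is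
`v y (3 - 2 log 2)` up to `ε`.
-/

open MeasureTheory Set Filter Topology
open Pool.Agent.Helper57.Zeta Pool.Agent.Helper57.PC Pool.Agent.Helper57.LH Pool.Agent.Helper78.SG
open Pool.Agent.Helper4.SH
open Pool.Agent.Helper69.PP

namespace Pool.Agent.Helper57.PR

private theorem yy_lt22 {T : ℝ} (hT : 1 < T) {a b : ℕ} (ha : 0 < a) (hab : a < b) : yy T a < yy T b := by
  unfold yy
  have hL : 0 < Real.log T := Real.log_pos hT
  have ha0 : (0 : ℝ) < a := by exact_mod_cast ha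
  have hab' : (a : ℝ) < b := by exact_mod_cast hab
  exact div_lt_div_of_pos_right (Real.log_lt_log ha0 hab') hL

/-- the smooth rough numbers up to `T^(2y)` -/
theorem smooth_low {N : ℕ} {T v ε : ℝ} (hT : 1 < T) (hv : 0 ≤ v) (hε : 0 < ε) (hε1 : ε ≤ 1 / 10 ^ 7)
    (hfl : FL N T v ε) (hm : MT T (1 / 4000) ε) {q : ℕ} (hq : q.Prime) (hNq : N ≤ q) (haq : 1 / 4000 < yy T q) (hqb : yy T q ≤ 1 / 5) :
    v * ((3 - 2 * Real.log 2) * yy T q - 10 * ε) ≤
      ∑ m ∈ (RN N (T ^ (2 * yy T q))).filter (fun m => ∀ p ∈ m.primeFactors, p ≤ q), 1 / (m : ℝ) := by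
  classical
  have _ := hNq
  obtain ⟨y, hy⟩ : ∃ y, y = yy T q := ⟨_, rfl⟩
  rw [← hy] at haq hqb ⊢
  have hy0 : 0 < y := by linarith
  have htot := (hfl (2 * y) ⟨by linarith, by linarith⟩).1
  have hsplit : RS N (T ^ (2 * y)) =
      ∑ m ∈ (RN N (T ^ (2 * y))).filter (fun m => ∀ p ∈ m.primeFactors, p ≤ q), 1 / (m : ℝ) +
      ∑ m ∈ (RN N (T ^ (2 * y))).filter (fun m => ¬ ∀ p ∈ m.primeFactors, p ≤ q), 1 / (m : ℝ) := by
    unfold RS
    exact (Finset.sum_filter_add_sum_filter_not _ _ _).symm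
  have hbad : ∑ m ∈ (RN N (T ^ (2 * y))).filter (fun m => ¬ ∀ p ∈ m.primeFactors, p ≤ q), 1 / (m : ℝ) ≤
      ∑ p ∈ PI T y (2 * y), ∑ r ∈ RN N (T ^ (2 * y - yy T p)), 1 / ((p * r : ℕ) : ℝ) := by
    refine cover2 _ _ (fun p => RN N (T ^ (2 * y - yy T p))) ?_ (fun n => 1 / (n : ℝ)) (fun n => by positivity)
    intro n hn
    rw [Finset.mem_filter, mem_RN_yy hT] at hn
    obtain ⟨⟨hn0, hn1, hn2⟩, hn3⟩ := hn
    push Not at hn3
    obtain ⟨p, hp, hqp⟩ := hn3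
    have hpp : p.Prime := Nat.prime_of_mem_primeFactors hp
    have hpd : p ∣ n := Nat.dvd_of_mem_primeFactors hp
    obtain ⟨r, hr⟩ := hpd
    have hr0 : r ≠ 0 := by
      intro h0
      rw [h0, mul_zero] at hr
      exact hn0 hr
    have hyn : yy T n = yy T p + yy T r := by rw [hr, yy_mul' hT hpp.ne_zero hr0]
    have hyr := yy_nonneg' hT r
    have hyp : yy T p ≤ 2 * y := by linarith
    refine ⟨p, ?_, r, ?_, hr⟩
    · unfold PI
      rw [Finset.mem_filter]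
      refine ⟨?_, ?_, hyp⟩
      · unfold PP
        rw [Finset.mem_filter, Finset.mem_range]
        refine ⟨?_, hpp⟩
        have h1 : (p : ℝ) ≤ T ^ (1 : ℝ) := (le_rpow_iff hT hpp.ne_zero).2 (by linarith)
        rw [Real.rpow_one] at h1
        exact Nat.lt_succ_of_le (Nat.le_floor h1)
      · rw [hy]
        exact yy_lt22 hT hq.pos hqp
    · show r ∈ RN N (T ^ (2 * y - yy T p))
      rw [mem_RN_yy hT]
      refine ⟨hr0, by linarith, fun p' hp' => hn2 p' ?_⟩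
      rw [hr]
      exact Nat.primeFactors_mono (Dvd.intro_left p rfl) (by rw [← hr]; exact hn0) hp'
  have hPIm : ∀ p ∈ PI T y (2 * y), 0 < p ∧ y < yy T p ∧ yy T p ≤ 2 * y := by
    intro p hp
    unfold PI at hp
    rw [Finset.mem_filter] at hp
    unfold PP at hp
    exact ⟨(Finset.mem_filter.1 hp.1).2.pos, hp.2.1, hp.2.2⟩
  have hbad2 : ∑ p ∈ PI T y (2 * y), ∑ r ∈ RN N (T ^ (2 * y - yy T p)), 1 / ((p * r : ℕ) : ℝ) ≤
      v * ((2 * y + ε) * SP T 0 y (2 * y) - SP T 1 y (2 * y)) := by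
    have e1 : v * ((2 * y + ε) * SP T 0 y (2 * y) - SP T 1 y (2 * y)) =
        ∑ p ∈ PI T y (2 * y), 1 / (p : ℝ) * ((2 * y - yy T p + ε) * v) := by
      unfold SP
      rw [Finset.mul_sum, ← Finset.sum_sub_distrib, Finset.mul_sum]
      refine Finset.sum_congr rfl fun p _ => ?_
      rw [pow_zero, pow_one]
      ring
    rw [e1]
    refine Finset.sum_le_sum fun p hp => ?_
    obtain ⟨hp0, hp1, hp2⟩ := hPIm p hp
    have hp0' : (0 : ℝ) < p := by exact_mod_cast hp0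
    have h1 := (hfl (2 * y - yy T p) ⟨by linarith, by linarith⟩).2
    have h2 : ∑ r ∈ RN N (T ^ (2 * y - yy T p)), 1 / ((p * r : ℕ) : ℝ) =
        1 / (p : ℝ) * RS N (T ^ (2 * y - yy T p)) := by
      unfold RS
      rw [Finset.mul_sum]
      refine Finset.sum_congr rfl fun r _ => ?_
      push_cast
      rw [one_div_mul_one_div]
    rw [h2]
    exact mul_le_mul_of_nonneg_left h1 (by positivity)
  obtain ⟨hS0, hS1⟩ := hm y (2 * y) haq.le (by linarith) (by linarith)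
  have hS1' := hS1 1 le_rfl (by norm_num)
  have e2 : 2 * y / y = 2 := by field_simp
  rw [e2] at hS0
  rw [abs_le] at hS0 hS1'
  have hS1'' : y - ε ≤ SP T 1 y (2 * y) := by
    have := hS1'.1
    norm_num at this
    linarith
  have hL0 : 0 < Real.log 2 := Real.log_pos (by norm_num)
  have hL1 : Real.log 2 < 1 := by
    have := Real.log_two_lt_d9
    linarith
  have h5 : (2 * y + ε) * SP T 0 y (2 * y) ≤ (2 * y + ε) * (Real.log 2 + ε) :=
    mul_le_mul_of_nonneg_left (by linarith [hS0.2]) (by linarith)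
  have h6 : v * ((2 * y + ε) * SP T 0 y (2 * y) - SP T 1 y (2 * y)) ≤
      v * ((2 * y + ε) * (Real.log 2 + ε) - (y - ε)) := mul_le_mul_of_nonneg_left (by linarith) hv
  have h7 : v * ((3 - 2 * Real.log 2) * y - 10 * ε) ≤
      v * (2 * y - ((2 * y + ε) * (Real.log 2 + ε) - (y - ε))) := by
    refine mul_le_mul_of_nonneg_left ?_ hv
    nlinarith
  have h8 : v * (2 * y - ((2 * y + ε) * (Real.log 2 + ε) - (y - ε))) =
      2 * y * v - v * ((2 * y + ε) * (Real.log 2 + ε) - (y - ε)) := by ring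
  linarith

theorem sumB_DS {N : ℕ} {T v ε s b t1 t2 : ℝ} (hT : 1 < T) (hv : 0 < v) (hε : 0 < ε) (hε1 : ε ≤ 1 / 10 ^ 7)
    (hfl : FL N T v ε) (hm : MT T (1 / 4000) ε) (hb : b ≤ 1 / 9)
    (ht1 : 0 ≤ t1) (ht : t1 ≤ t2) (ht2 : t2 ≤ 1 / 2) (hs0 : 2 / 5 ≤ s) (hs1 : s ≤ 1 / 2)
    (hX : 0 ≤ s - (1 + t2) * b - 1 / 3)
    {q : ℕ} (hq : q.Prime) (hNq : N ≤ q) (haq : 1 / 4000 < yy T q) (hqb : yy T q ≤ b) :
    yy T q * ∑ d ∈ DS T q (s - (1 + t2) * yy T q - 1 / 3) (s - (2 + t1) * yy T q), 1 / (d : ℝ) ≤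
      (1 / 3 + (1 + t2 - t1) * b) / (3 - 2 * Real.log 2) + 10 ^ 6 * ε := by
  classical
  have _ := hs0
  have hlow := smooth_low hT hv.le hε hε1 hfl hm hq hNq haq (by linarith)
  obtain ⟨y, hy⟩ : ∃ y, y = yy T q := ⟨_, rfl⟩
  have hyq : yy T q = y := hy.symm
  rw [hyq] at haq hqb hlow ⊢
  have hy0 : 0 < y := by linarith
  obtain ⟨Z, hZ⟩ : ∃ Z, Z = (RN N (T ^ (2 * y))).filter (fun m => ∀ p ∈ m.primeFactors, p ≤ q) := ⟨_, rfl⟩
  rw [← hZ] at hlow
  obtain ⟨X, hXd⟩ : ∃ X, X = s - (1 + t2) * y - 1 / 3 := ⟨_, rfl⟩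
  obtain ⟨Y, hYd⟩ : ∃ Y, Y = s - (2 + t1) * y := ⟨_, rfl⟩
  rw [← hXd, ← hYd]
  have hX0 : 0 ≤ X := by
    rw [hXd]
    nlinarith
  have hXY : X ≤ Y + 2 * y := by
    rw [hXd, hYd]
    nlinarith
  have hY1 : Y + 2 * y ≤ 1 := by
    rw [hYd]
    nlinarith
  have hZm : ∀ m ∈ Z, m ≠ 0 ∧ yy T m ≤ 2 * y ∧ (∀ p ∈ m.primeFactors, N ≤ p) ∧ ∀ p ∈ m.primeFactors, p ≤ q := by
    intro m hm1
    rw [hZ, Finset.mem_filter, mem_RN_yy hT] at hm1
    exact ⟨hm1.1.1, hm1.1.2.1, hm1.1.2.2, hm1.2⟩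
  have hDm : ∀ d ∈ DS T q X Y, d ≠ 0 ∧ (∀ p ∈ d.primeFactors, q < p) ∧ X < yy T d ∧ yy T d ≤ Y := by
    intro d hd
    unfold DS at hd
    rw [Finset.mem_filter, Finset.mem_Icc] at hd
    obtain ⟨⟨h1, _⟩, _, _, h2, h3, h4⟩ := hd
    exact ⟨by omega, fun p hp => (h2 p hp).1, h3, h4⟩
  -- the products
  have hprod : (∑ d ∈ DS T q X Y, 1 / (d : ℝ)) * ∑ m ∈ Z, 1 / (m : ℝ) ≤ RS N (T ^ (Y + 2 * y)) - RS N (T ^ X) := by
    have hsub : RN N (T ^ X) ⊆ RN N (T ^ (Y + 2 * y)) := by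
      intro n hn
      rw [mem_RN_yy hT] at hn ⊢
      exact ⟨hn.1, hn.2.1.trans hXY, hn.2.2⟩
    have e1 : RS N (T ^ (Y + 2 * y)) - RS N (T ^ X) = ∑ n ∈ RN N (T ^ (Y + 2 * y)) \ RN N (T ^ X), 1 / (n : ℝ) := by
      unfold RS
      rw [← Finset.sum_sdiff hsub]
      ring
    rw [e1, Finset.sum_mul_sum, ← Finset.sum_product']
    have hinj : Set.InjOn (fun x : ℕ × ℕ => x.1 * x.2) ((DS T q X Y ×ˢ Z : Finset (ℕ × ℕ)) : Set (ℕ × ℕ)) := by
      rintro ⟨d, m⟩ hx ⟨d', m'⟩ hx' hdm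
      simp only [Finset.coe_product, Set.mem_prod, Finset.mem_coe] at hx hx'
      simp only at hdm
      obtain ⟨hd0, hd1, _, _⟩ := hDm d hx.1
      obtain ⟨hd0', hd1', _, _⟩ := hDm d' hx'.1
      obtain ⟨hm0, _, _, hm1⟩ := hZm m hx.2
      obtain ⟨hm0', _, _, hm1'⟩ := hZm m' hx'.2
      have hcop : ∀ a b : ℕ, a ≠ 0 → b ≠ 0 → (∀ p ∈ a.primeFactors, q < p) → (∀ p ∈ b.primeFactors, p ≤ q) → a.Coprime b := by
        intro a b ha hb h1 h2
        rw [← Nat.disjoint_primeFactors ha hb, Finset.disjoint_left]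
        intro p hp1 hp2
        have := h1 p hp1
        have := h2 p hp2
        omega
      have h1 : d ∣ d' := (hcop d m' hd0 hm0' hd1 hm1').dvd_of_dvd_mul_right (by rw [← hdm]; exact Dvd.intro m rfl)
      have h2 : d' ∣ d := (hcop d' m hd0' hm0 hd1' hm1).dvd_of_dvd_mul_right (by rw [hdm]; exact Dvd.intro m' rfl)
      have h3 : d = d' := Nat.dvd_antisymm h1 h2
      subst h3
      have h4 : m = m' := Nat.eq_of_mul_eq_mul_left (Nat.pos_of_ne_zero hd0) hdm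
      rw [h4]
    calc ∑ x ∈ DS T q X Y ×ˢ Z, 1 / (x.1 : ℝ) * (1 / (x.2 : ℝ))
        = ∑ x ∈ DS T q X Y ×ˢ Z, (fun n : ℕ => 1 / (n : ℝ)) ((fun x : ℕ × ℕ => x.1 * x.2) x) := by
          refine Finset.sum_congr rfl fun x _ => ?_
          simp only
          push_cast
          rw [one_div_mul_one_div]
      _ = ∑ n ∈ (DS T q X Y ×ˢ Z).image (fun x : ℕ × ℕ => x.1 * x.2), (fun n : ℕ => 1 / (n : ℝ)) n :=
          (Finset.sum_image (f := fun n : ℕ => 1 / (n : ℝ)) hinj).symm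
      _ ≤ ∑ n ∈ RN N (T ^ (Y + 2 * y)) \ RN N (T ^ X), 1 / (n : ℝ) := by
          refine Finset.sum_le_sum_of_subset_of_nonneg ?_ fun n _ _ => by positivity
          intro n hn
          rw [Finset.mem_image] at hn
          obtain ⟨⟨d, m⟩, hx, rfl⟩ := hn
          rw [Finset.mem_product] at hx
          simp only at hx ⊢
          obtain ⟨hd0, hd1, hd2, hd3⟩ := hDm d hx.1
          obtain ⟨hm0, hm1, hm2, hm3⟩ := hZm m hx.2
          have hmy := yy_nonneg' hT m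
          have hyy : yy T (d * m) = yy T d + yy T m := yy_mul' hT hd0 hm0
          rw [Finset.mem_sdiff]
          constructor
          · rw [mem_RN_yy hT]
            refine ⟨Nat.mul_ne_zero hd0 hm0, by linarith, fun p hp => ?_⟩
            rw [Nat.primeFactors_mul hd0 hm0, Finset.mem_union] at hp
            rcases hp with hp | hp
            · have := hd1 p hp
              omega
            · exact hm2 p hp
          · rw [mem_RN_yy hT]
            rintro ⟨_, h2, _⟩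
            linarith
  have hup := (hfl (Y + 2 * y) ⟨by linarith, hY1⟩).2
  have hlo := (hfl X ⟨hX0, by linarith⟩).1
  obtain ⟨D, hD⟩ : ∃ D, D = ∑ d ∈ DS T q X Y, 1 / (d : ℝ) := ⟨_, rfl⟩
  rw [← hD] at hprod ⊢
  have hD0 : 0 ≤ D := by
    rw [hD]
    exact Finset.sum_nonneg fun _ _ => by positivity
  obtain ⟨κ, hκ⟩ : ∃ κ, κ = 3 - 2 * Real.log 2 := ⟨_, rfl⟩
  rw [← hκ] at hlow ⊢
  have hκ1 : 8 / 5 < κ := by
    have := Real.log_two_lt_d9
    rw [hκ]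
    linarith
  have hκ2 : κ < 17 / 10 := by
    have := Real.log_two_gt_d9
    rw [hκ]
    linarith
  have h1 : D * (v * (κ * y - 10 * ε)) ≤ v * (Y + 2 * y - X + ε) := by
    calc D * (v * (κ * y - 10 * ε)) ≤ D * ∑ m ∈ Z, 1 / (m : ℝ) := mul_le_mul_of_nonneg_left hlow hD0
      _ ≤ RS N (T ^ (Y + 2 * y)) - RS N (T ^ X) := hprod
      _ ≤ v * (Y + 2 * y - X + ε) := by nlinarith
  have h2 : D * (κ * y - 10 * ε) ≤ Y + 2 * y - X + ε := by
    have h3 : v * (D * (κ * y - 10 * ε)) ≤ v * (Y + 2 * y - X + ε) := by linarith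
    exact le_of_mul_le_mul_left h3 hv
  obtain ⟨A, hA⟩ : ∃ A, A = 1 / 3 + (1 + t2 - t1) * b := ⟨_, rfl⟩
  rw [← hA]
  have h3 : Y + 2 * y - X ≤ A := by
    rw [hA, hXd, hYd]
    nlinarith
  have hA1 : A ≤ 51 / 100 := by
    rw [hA]
    nlinarith
  have h4 : D ≤ 1400 := by
    by_contra hcon
    push Not at hcon
    have h5 : (39 / 100000 : ℝ) ≤ κ * y - 10 * ε := by nlinarith
    have h6 : 1400 * (39 / 100000 : ℝ) ≤ D * (κ * y - 10 * ε) :=
      mul_le_mul hcon.le h5 (by norm_num) hD0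
    linarith
  have h5 : κ * (y * D) ≤ A + 14001 * ε := by nlinarith
  have hκ0 : 0 < κ := by linarith
  have h6 : y * D ≤ (A + 14001 * ε) / κ := by
    rw [le_div_iff₀ hκ0]
    linarith
  refine h6.trans ?_
  rw [add_div]
  have h7 : 14001 * ε / κ ≤ 10 ^ 6 * ε := by
    rw [div_le_iff₀ hκ0]
    nlinarith
  linarith

end Pool.Agent.Helper57.PR
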