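import Pool.Agent.Helper57.PR.S7
import Pool.Agent.Helper57.PR.S8
import Pool.Agent.Helper57.PR.S9
import Pool.Agent.Helper57.PR.CertQ

/-!
# PR: one cell of class T with the rational bound
-/

open MeasureTheory Set Filter Topology
open Pool.Agent.Helper57.Zeta Pool.Agent.Helper57.PC Pool.Agent.Helper57.LH Pool.Agent.Helper78.SG
open Pool.Agent.Helper4.SH
open Pool.Agent.Helper69.PP

namespace Pool.Agent.Helper57.PR

theorem ss_cast : ((ss : ℚ) : ℝ) = 1999 / 4000 := by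
  unfold ss
  norm_num

theorem l0_spec : ((l0 : ℚ) : ℝ) ≤ 3 - 2 * Real.log 2 := by
  have := Real.log_two_lt_d9
  unfold l0
  push_cast
  linarith

theorem eqq_spec {N : ℕ} {T v ε : ℝ} {a b t1 t2 : ℚ} (hT : 1 < T) (hv : 0 < v) (hε : 0 < ε) (hε1 : ε ≤ 1 / 10 ^ 7)
    (hfl : FL N T v ε) (hm : MT T (1 / 4000) ε) (ha : 1 / 4000 ≤ a) (hab : a ≤ b) (hb : b ≤ 1 / 6)
    (ht1 : 0 ≤ t1) (ht : t1 ≤ t2) (ht2 : t2 ≤ 1 / 2) {q : ℕ} (hq : q.Prime) (hNq : N ≤ q) (haq : (a : ℝ) < yy T q)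
    (hqb : yy T q ≤ (b : ℝ)) :
    yy T q * ∑ d ∈ DS T q ((ss : ℝ) - (1 + (t2 : ℝ)) * yy T q - 1 / 3) ((ss : ℝ) - (2 + (t1 : ℝ)) * yy T q), 1 / (d : ℝ) ≤
      (eqq a b t1 t2 : ℝ) + 10 ^ 6 * ε := by
  have haR : (1 : ℝ) / 4000 ≤ a := by
    have : ((1 / 4000 : ℚ) : ℝ) ≤ a := by exact_mod_cast ha
    push_cast at this
    exact this
  have habR : (a : ℝ) ≤ b := by exact_mod_cast hab
  have hbR : (b : ℝ) ≤ 1 / 6 := by
    have : (b : ℝ) ≤ ((1 / 6 : ℚ) : ℝ) := by exact_mod_cast hb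
    push_cast at this
    exact this
  have ht1R : (0 : ℝ) ≤ t1 := by exact_mod_cast ht1
  have htR : (t1 : ℝ) ≤ t2 := by exact_mod_cast ht
  have ht2R : (t2 : ℝ) ≤ 1 / 2 := by
    have : (t2 : ℝ) ≤ ((1 / 2 : ℚ) : ℝ) := by exact_mod_cast ht2
    push_cast at this
    exact this
  have hssR := ss_cast
  have hssQ : ss = 1999 / 4000 := rfl
  have ha0 : 0 < a := by linarith
  obtain ⟨z, hz⟩ : ∃ z, z = ss - (1 + t2) * b - 1 / 3 := ⟨_, rfl⟩
  obtain ⟨lo, hlo⟩ : ∃ lo, lo = qmax a z := ⟨_, rfl⟩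
  obtain ⟨Y1, hY1⟩ : ∃ Y1, Y1 = qmax lo (qmin (1 / 3) (ss - (2 + t1) * a)) := ⟨_, rfl⟩
  obtain ⟨Y2, hY2⟩ : ∃ Y2, Y2 = qmax a (qmin (1 / 3) (ss - (3 + t1) * a)) := ⟨_, rfl⟩
  obtain ⟨EA, hEA⟩ : ∃ EA, EA = b * lu (Y1 / lo) + (Y2 - a - a * ll (Y2 / a)) := ⟨_, rfl⟩
  have hlo1 : a ≤ lo := by rw [hlo, qmax_eq]; exact le_max_left _ _
  have hlo0 : 0 < lo := by linarith
  have hloY : lo ≤ Y1 := by rw [hY1, qmax_eq]; exact le_max_left _ _
  have haY : a ≤ Y2 := by rw [hY2, qmax_eq]; exact le_max_left _ _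
  have hb0 : 0 ≤ b := by linarith
  have hzle : z ≤ 1 / 5 := by
    have : 0 ≤ (1 + t2) * b := by
      have : 0 ≤ t2 := by linarith
      positivity
    rw [hz, hssQ]
    linarith
  have hlo2 : lo ≤ 1 / 5 := by
    rw [hlo, qmax_eq]
    exact max_le (by linarith) hzle
  have hY1le : Y1 ≤ 1 / 3 := by
    rw [hY1, qmax_eq, qmin_eq]
    exact max_le (by linarith) (min_le_left _ _)
  have hY2le : Y2 ≤ 1 / 3 := by
    rw [hY2, qmax_eq, qmin_eq]
    exact max_le (by linarith) (min_le_left _ _)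
  have hA : yy T q * ∑ d ∈ DS T q ((ss : ℝ) - (1 + (t2 : ℝ)) * yy T q - 1 / 3) ((ss : ℝ) - (2 + (t1 : ℝ)) * yy T q), 1 / (d : ℝ) ≤
      (EA : ℝ) + 10 ^ 6 * ε := by
    have h := sumA_DS (T := T) (ε := ε) (s := (ss : ℝ)) (a := (a : ℝ)) (b := (b : ℝ)) (t1 := (t1 : ℝ)) (t2 := (t2 : ℝ))
      (lo := (lo : ℝ)) (Y1 := (Y1 : ℝ)) (Y2 := (Y2 : ℝ)) hT hε (by linarith [show (1 : ℝ) / 10 ^ 7 ≤ 1 / 1000 by norm_num]) hm haR habR
      (by linarith) ht1R htR ht2R (by rw [hssR]; norm_num) (by rw [hssR]; norm_num)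
      (by
        have : (a : ℝ) ≤ lo := by exact_mod_cast hlo1
        linarith)
      (by
        rcases le_total a z with h | h
        · right
          have : lo = z := by rw [hlo, qmax_eq, max_eq_right h]
          rw [this, hz]
          push_cast
          exact le_rfl
        · left
          have : lo = a := by rw [hlo, qmax_eq, max_eq_left h]
          rw [this])
      (by exact_mod_cast hloY)
      (by
        have h1 : qmin (1 / 3) (ss - (2 + t1) * a) ≤ Y1 := by rw [hY1, qmax_eq]; exact le_max_right _ _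
        rw [qmin_eq] at h1
        rcases min_le_iff.1 h1 with h | h
        · left
          have : ((1 / 3 : ℚ) : ℝ) ≤ Y1 := by exact_mod_cast h
          push_cast at this
          exact this
        · right
          have : ((ss - (2 + t1) * a : ℚ) : ℝ) ≤ Y1 := by exact_mod_cast h
          push_cast at this
          exact this)
      (by
        have h1 : qmin (1 / 3) (ss - (3 + t1) * a) ≤ Y2 := by rw [hY2, qmax_eq]; exact le_max_right _ _
        rw [qmin_eq] at h1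
        rcases min_le_iff.1 h1 with h | h
        · left
          have : ((1 / 3 : ℚ) : ℝ) ≤ Y2 := by exact_mod_cast h
          push_cast at this
          exact this
        · right
          have : ((ss - (3 + t1) * a : ℚ) : ℝ) ≤ Y2 := by exact_mod_cast h
          push_cast at this
          exact this)
      (by exact_mod_cast haY)
      (by
        have : (Y1 : ℝ) ≤ ((1 / 3 : ℚ) : ℝ) := by exact_mod_cast hY1le
        push_cast at this
        linarith)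
      (by
        have : (Y2 : ℝ) ≤ ((1 / 3 : ℚ) : ℝ) := by exact_mod_cast hY2le
        push_cast at this
        linarith)
      hq haq hqb
    refine h.trans ?_
    have h1 := lu_spec (z := Y1 / lo) ((one_le_div hlo0).2 hloY)
    have h2 := ll_spec (z := Y2 / a) ((one_le_div ha0).2 haY)
    push_cast at h1 h2
    have hbR0 : (0 : ℝ) ≤ b := by exact_mod_cast hb0
    have haR0 : (0 : ℝ) ≤ a := by exact_mod_cast ha0.le
    have h3 := mul_le_mul_of_nonneg_left h1 hbR0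
    have h4 := mul_le_mul_of_nonneg_left h2 haR0
    rw [hEA]
    push_cast
    linarith
  have hdef : eqq a b t1 t2 = if 0 ≤ z then (if b ≤ 1 / 9 then qmin EA ((1 / 3 + (1 + t2 - t1) * b) / l0) else EA) else EA := by
    rw [hEA, hY1, hY2, hlo, hz]
    rfl
  rw [hdef]
  split_ifs with h1 h2
  · have hB := sumB_DS (N := N) (T := T) (v := v) (ε := ε) (s := (ss : ℝ)) (b := (b : ℝ)) (t1 := (t1 : ℝ)) (t2 := (t2 : ℝ)) hT hv hε
      hε1 hfl hm
      (by
        have : (b : ℝ) ≤ ((1 / 9 : ℚ) : ℝ) := by exact_mod_cast h2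
        push_cast at this
        exact this) ht1R htR ht2R (by rw [hssR]; norm_num) (by rw [hssR]; norm_num)
      (by
        rw [hz] at h1
        have : ((0 : ℚ) : ℝ) ≤ ((ss - (1 + t2) * b - 1 / 3 : ℚ) : ℝ) := by exact_mod_cast h1
        push_cast at this
        exact this)
      hq hNq (by linarith) hqb
    rw [qmin_eq, Rat.cast_min, ← min_add_add_right]
    apply le_min hA
    refine hB.trans ?_
    push_cast
    have hl : (0 : ℝ) < (l0 : ℚ) := by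
      unfold l0
      norm_num
    have hnum : (0 : ℝ) ≤ 1 / 3 + (1 + (t2 : ℝ) - t1) * b := by
      have : (0 : ℝ) ≤ b := by exact_mod_cast hb0
      have : (0 : ℝ) ≤ (1 + (t2 : ℝ) - t1) * b := mul_nonneg (by linarith) this
      linarith
    have := div_le_div_of_nonneg_left hnum hl l0_spec
    linarith
  · exact hA
  · exact hA

/-- one cell -/
theorem cell_bound {N : ℕ} {T v ε : ℝ} {a b t1 t2 : ℚ} (hT : 1 < T) (hv : 0 < v) (hε : 0 < ε) (hε1 : ε ≤ 1 / 10 ^ 7)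
    (hfl : FL N T v ε) (hm : MT T (1 / 4000) ε) (ha : 1 / 4000 ≤ a) (hab : a ≤ b) (hb : b ≤ 1 / 6)
    (ht1 : 0 ≤ t1) (ht : t1 ≤ t2) (ht2 : t2 ≤ 1 / 2) (hE0 : 0 ≤ eqq a b t1 t2) (hE1 : eqq a b t1 t2 ≤ 9 / 10)
    (g : ℕ → ℝ) (hg0 : ∀ n, 0 ≤ g n)
    (hg : ∀ n ∈ TC N T (ss : ℝ) a b t1 t2, g n ≤ ((w0 : ℝ) - 2 * (cc : ℝ) * ((ss : ℝ) - yy T n)) / n) :
    ∑ n ∈ TC N T (ss : ℝ) a b t1 t2, g n ≤ v * ((cq a b t1 t2 : ℝ) + 10 ^ 11 * ε) := by
  have haR : (1 : ℝ) / 4000 ≤ a := by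
    have : ((1 / 4000 : ℚ) : ℝ) ≤ a := by exact_mod_cast ha
    push_cast at this
    exact this
  have habR : (a : ℝ) ≤ b := by exact_mod_cast hab
  have hbR : (b : ℝ) ≤ 1 / 6 := by
    have : (b : ℝ) ≤ ((1 / 6 : ℚ) : ℝ) := by exact_mod_cast hb
    push_cast at this
    exact this
  have ht1R : (0 : ℝ) ≤ t1 := by exact_mod_cast ht1
  have htR : (t1 : ℝ) ≤ t2 := by exact_mod_cast ht
  have ht2R : (t2 : ℝ) ≤ 1 / 2 := by
    have : (t2 : ℝ) ≤ ((1 / 2 : ℚ) : ℝ) := by exact_mod_cast ht2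
    push_cast at this
    exact this
  have hssR := ss_cast
  have hssQ : ss = 1999 / 4000 := rfl
  have hccR : ((cc : ℚ) : ℝ) = 103 / 200 := by
    unfold cc
    norm_num
  have hwR : ((w0 : ℚ) : ℝ) = 2826005 / 10000000 := by
    unfold w0 cc ss la
    norm_num
  have hE0R : (0 : ℝ) ≤ (eqq a b t1 t2 : ℝ) := by exact_mod_cast hE0
  have hE1R : (eqq a b t1 t2 : ℝ) ≤ 9 / 10 := by
    have : (eqq a b t1 t2 : ℝ) ≤ ((9 / 10 : ℚ) : ℝ) := by exact_mod_cast hE1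
    push_cast at this
    exact this
  obtain ⟨X, hX⟩ : ∃ X, X = qmax (ss - (1 + t2) * b) (2 * a) := ⟨_, rfl⟩
  obtain ⟨E, hE⟩ : ∃ E, E = eqq a b t1 t2 := ⟨_, rfl⟩
  have hcq : cq a b t1 t2 = (b - a) * (w0 * (t2 * t2 - t1 * t1) / 2 - cc * (t2 * t2 * t2 - t1 * t1 * t1) * a / 3) * E / X := by
    rw [hE, hX]
    rfl
  have hX5 : (1 : ℝ) / 5 ≤ X := by
    have h1 : (1 : ℚ) / 5 ≤ X := by
      rw [hX, qmax_eq]
      apply le_max_of_le_left
      rw [hssQ]
      have h2 : (1 + t2) * b ≤ (1 + 1 / 2) * (1 / 6) := by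
        apply mul_le_mul (by linarith) hb (by linarith) (by norm_num)
      linarith
    have : ((1 / 5 : ℚ) : ℝ) ≤ X := by exact_mod_cast h1
    push_cast at this
    exact this
  have h := cellT (N := N) (T := T) (v := v) (ε := ε) (s := (ss : ℝ)) (a := (a : ℝ)) (b := (b : ℝ)) (t1 := (t1 : ℝ)) (t2 := (t2 : ℝ))
    (w := (w0 : ℝ)) (c := (cc : ℝ)) (x0 := (X : ℝ)) (E := (E : ℝ) + 10 ^ 6 * ε) hT hv.le hε
    (by linarith [show (1 : ℝ) / 10 ^ 7 ≤ 1 / 1000 by norm_num]) hfl hm haR habR (by linarith) ht1R htR ht2R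
    (by rw [hssR]; norm_num) (by rw [hssR]; norm_num) (by rw [hccR]; norm_num) (by rw [hccR]; norm_num)
    (by rw [hwR]; norm_num) (by rw [hwR]; norm_num)
    (by
      rw [hccR, hwR]
      have : (t2 : ℝ) * b ≤ 1 / 2 * (1 / 6) := mul_le_mul ht2R hbR (by linarith) (by norm_num)
      linarith)
    hX5
    (by
      rcases le_total (ss - (1 + t2) * b) (2 * a) with h1 | h1
      · right
        have : X = 2 * a := by rw [hX, qmax_eq, max_eq_right h1]
        rw [this]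
        push_cast
        exact le_rfl
      · left
        have : X = ss - (1 + t2) * b := by rw [hX, qmax_eq, max_eq_left h1]
        rw [this]
        push_cast
        exact le_rfl)
    (by rw [hE]; positivity)
    (by
      rw [hE]
      have : 10 ^ 6 * ε ≤ 10 ^ 6 * (1 / 10 ^ 7) := by linarith
      norm_num at this ⊢
      linarith)
    (by
      intro q hq hNq haq hqb
      rw [hE]
      exact eqq_spec hT hv hε hε1 hfl hm ha hab hb ht1 ht ht2 hq hNq haq hqb)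
    g hg0 hg
  refine h.trans ?_
  apply mul_le_mul_of_nonneg_left _ hv.le
  rw [hcq]
  push_cast
  rw [hwR, hccR]
  rw [← hE] at hE0R hE1R
  obtain ⟨K, hK⟩ : ∃ K : ℝ, K = 2826005 / 10000000 * ((t2 : ℝ) ^ 2 - (t1 : ℝ) ^ 2) / 2 -
      103 / 200 * ((t2 : ℝ) ^ 3 - (t1 : ℝ) ^ 3) * a / 3 := ⟨_, rfl⟩
  have hK' : 2826005 / 10000000 * ((t2 : ℝ) * t2 - (t1 : ℝ) * t1) / 2 -
      103 / 200 * ((t2 : ℝ) * t2 * t2 - (t1 : ℝ) * t1 * t1) * a / 3 = K := by
    rw [hK]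
    ring
  rw [hK', ← hK]
  have hX0 : (0 : ℝ) < X := by linarith
  have hK1 : K ≤ 1 := by
    rw [hK]
    have h1 : (t2 : ℝ) ^ 2 ≤ 1 := by nlinarith
    have h2 : (t1 : ℝ) ^ 3 ≤ (t2 : ℝ) ^ 3 := pow_le_pow_left₀ ht1R htR 3
    have h3 : 0 ≤ ((t2 : ℝ) ^ 3 - (t1 : ℝ) ^ 3) * a := mul_nonneg (by linarith) (by linarith)
    nlinarith [sq_nonneg (t1 : ℝ)]
  have h1 : ((b : ℝ) - a) * K * (E + 10 ^ 6 * ε) / X = ((b : ℝ) - a) * K * E / X + ((b : ℝ) - a) * K * (10 ^ 6 * ε) / X := by ring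
  rw [h1]
  have h2 : ((b : ℝ) - a) * K * (10 ^ 6 * ε) / X ≤ 10 ^ 7 * ε := by
    rw [div_le_iff₀ hX0]
    have h3 : ((b : ℝ) - a) * K ≤ 1 := by
      have h4 : ((b : ℝ) - a) * K ≤ ((b : ℝ) - a) * 1 := mul_le_mul_of_nonneg_left hK1 (by linarith)
      linarith
    have h4 : ((b : ℝ) - a) * K * (10 ^ 6 * ε) ≤ 1 * (10 ^ 6 * ε) := mul_le_mul_of_nonneg_right h3 (by positivity)
    have h5 : 10 ^ 7 * ε * (1 / 5) ≤ 10 ^ 7 * ε * X := mul_le_mul_of_nonneg_left hX5 (by positivity)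
    nlinarith
  have h3 : (0 : ℝ) < ε := hε
  nlinarith

/-- the last piece of a cell is shorter -/
theorem TC_sub {N : ℕ} {T s a b t1 t t2 : ℝ} (hT : 1 < T) (ht2 : 0 ≤ t2) (h2 : s ≤ (3 + t2) * a) :
    TC N T s a b t1 t ⊆ TC N T s a b t1 t2 := by
  classical
  intro n hn
  unfold TC at hn ⊢
  rw [Finset.mem_filter] at hn ⊢
  obtain ⟨h1, q, hq, haq, hqb, d, r, hn, hd, hcard, hp, h3, h4⟩ := hn
  refine ⟨h1, q, hq, haq, hqb, d, r, hn, hd, hcard, hp, ?_, h4⟩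
  have hq0 : 0 < q := (Nat.prime_of_mem_primeFactors hq).pos
  -- two primes above `q`
  obtain ⟨p, hp1, p', hp1', hne⟩ := Finset.one_lt_card.1 (by omega : 1 < d.primeFactors.card)
  have hL : 0 < Real.log T := Real.log_pos hT
  have hyp : ∀ p ∈ d.primeFactors, yy T q < yy T p := by
    intro p hp2
    unfold yy
    apply div_lt_div_of_pos_right _ hL
    apply Real.log_lt_log (by exact_mod_cast hq0)
    exact_mod_cast (hp p hp2).1
  have hpp : p * p' ∣ d := Nat.Coprime.mul_dvd_of_dvd_of_dvd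
    ((Nat.coprime_primes (Nat.prime_of_mem_primeFactors hp1) (Nat.prime_of_mem_primeFactors hp1')).2 hne)
    (Nat.dvd_of_mem_primeFactors hp1) (Nat.dvd_of_mem_primeFactors hp1')
  have hd0 : d ≠ 0 := hd.ne_zero
  have hp0 : p ≠ 0 := (Nat.prime_of_mem_primeFactors hp1).ne_zero
  have hp0' : p' ≠ 0 := (Nat.prime_of_mem_primeFactors hp1').ne_zero
  have h5 : yy T (p * p') ≤ yy T d := by
    unfold yy
    apply div_le_div_of_nonneg_right _ hL.le
    apply Real.log_le_log (by exact_mod_cast Nat.pos_of_ne_zero (Nat.mul_ne_zero hp0 hp0'))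
    exact_mod_cast Nat.le_of_dvd (Nat.pos_of_ne_zero hd0) hpp
  rw [yy_mul' hT hp0 hp0'] at h5
  have h6 := hyp p hp1
  have h7 := hyp p' hp1'
  have h8 := mul_lt_mul_of_pos_left haq (by linarith : (0 : ℝ) < 3 + t2)
  linarith

end Pool.Agent.Helper57.PR
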