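import Pool.Agent.Helper57.PR.MemA
import Pool.Agent.Helper57.PR.CertQ

/-!
# PR: the bad numbers are covered by the classes
-/

open MeasureTheory Set Filter Topology
open Pool.Agent.Helper57.Zeta Pool.Agent.Helper57.PC Pool.Agent.Helper57.LH Pool.Agent.Helper78.SG
open Pool.Agent.Helper4.SH
open Pool.Agent.Helper69.PP

namespace Pool.Agent.Helper57.PR

/-- find the interval of a grid -/
theorem grid_find {A h y : ℝ} {k : ℕ} (h0 : A < y) (h1 : y ≤ A + k * h) :
    ∃ i < k, A + i * h < y ∧ y ≤ A + ((i : ℝ) + 1) * h := by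
  have hk : 0 < k := by
    rcases Nat.eq_zero_or_pos k with h2 | h2
    · rw [h2] at h1
      simp at h1
      linarith
    · exact h2
  have hex : ∃ i : ℕ, y ≤ A + ((i : ℝ) + 1) * h ∧ i < k := by
    obtain ⟨j, rfl⟩ : ∃ j, k = j + 1 := ⟨k - 1, by omega⟩
    refine ⟨j, ?_, by omega⟩
    push_cast at h1
    exact h1
  classical
  obtain ⟨h5, h6⟩ := Nat.find_spec hex
  refine ⟨Nat.find hex, h6, ?_, h5⟩
  rcases Nat.eq_zero_or_pos (Nat.find hex) with h0' | h0'
  · rw [h0']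
    simpa using h0
  · obtain ⟨j, hj⟩ : ∃ j, Nat.find hex = j + 1 := ⟨Nat.find hex - 1, by omega⟩
    have h7 := Nat.find_min hex (m := j) (by omega)
    rw [hj]
    push_cast
    by_contra hcon
    push Not at hcon
    exact h7 ⟨hcon, by omega⟩

theorem yy_dvd' {T : ℝ} (hT : 1 < T) {d n : ℕ} (h : d ∣ n) (hn : n ≠ 0) : yy T d ≤ yy T n := by
  have hL : 0 < Real.log T := Real.log_pos hT
  have hd : d ≠ 0 := fun h0 => hn (by rw [h0] at h; exact Nat.eq_zero_of_zero_dvd h)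
  unfold yy
  apply div_le_div_of_nonneg_right _ hL.le
  exact Real.log_le_log (by exact_mod_cast Nat.pos_of_ne_zero hd) (by exact_mod_cast Nat.le_of_dvd (Nat.pos_of_ne_zero hn) h)

theorem yy_le' {T : ℝ} (hT : 1 < T) {p q : ℕ} (hp : 0 < p) (hpq : p ≤ q) : yy T p ≤ yy T q := by
  have hL : 0 < Real.log T := Real.log_pos hT
  unfold yy
  apply div_le_div_of_nonneg_right _ hL.le
  exact Real.log_le_log (by exact_mod_cast hp) (by exact_mod_cast hpq)

theorem yy_lt' {T : ℝ} (hT : 1 < T) {p q : ℕ} (hp : 0 < p) (hpq : p < q) : yy T p < yy T q := by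
  have hL : 0 < Real.log T := Real.log_pos hT
  unfold yy
  apply div_lt_div_of_pos_right _ hL
  exact Real.log_lt_log (by exact_mod_cast hp) (by exact_mod_cast hpq)

theorem ee_cast : ((ee : ℚ) : ℝ) = 1 / 100000 := by
  unfold ee
  norm_num

theorem ss_cast' : ((ss : ℚ) : ℝ) = 1999 / 4000 := by
  unfold ss
  norm_num

theorem h1_cast : ((h1 : ℚ) : ℝ) = 1 / 5 - 1 / 100000 := by
  unfold h1 ee
  norm_num

theorem r1_cast (i : ℕ) : ((r1 i : ℚ) : ℝ) = 1 / 5 - 1 / 100000 + (i : ℝ) * ((1999 / 4000 - 2 * (1 / 5 - 1 / 100000)) / 30) := by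
  unfold r1
  push_cast
  rw [h1_cast, ss_cast']
  ring

theorem r2_cast (i : ℕ) : ((r2 i : ℚ) : ℝ) = 4 / 15 - 1 / 100000 + (i : ℝ) * (1 / 450) := by
  unfold r2
  push_cast
  rw [ee_cast]
  ring

/-- pairs -/
theorem cov_pair {N : ℕ} {T : ℝ} (hT : 1 < T) {n : ℕ} (hn : n ∈ RN N (T ^ ((ss : ℚ) : ℝ)))
    (hJ : ∀ p ∈ n.primeFactors, yy T p ≤ 1 / 3 - 1 / 100000)
    (hR1 : ∀ i < 30, n ∉ RC N T (ss : ℝ) (r1 i : ℚ) (r1 (i + 1) : ℚ) (h1 : ℚ) (U1 i : ℚ))
    (hR2 : ∀ i < 30, n ∉ RC N T (ss : ℝ) (r2 i : ℚ) (r2 (i + 1) : ℚ) (h2 i : ℚ) (U2 i : ℚ)) :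
    ∀ p ∈ n.primeFactors, ∀ p' ∈ n.primeFactors, p' < p → yy T p' ≤ 1 / 7 - 1 / 100000 ∨
      (yy T p ≤ 1 / 4 - 1 / 100000 ∧ yy T p' ≤ 1 / 5 - 1 / 100000) ∨
      (3 * yy T p + yy T p' ≤ 1 - 2 * (1 / 100000) ∧ yy T p' ≤ 1 / 5 - 1 / 100000) := by
  classical
  intro p hp p' hp' hpp
  by_contra hcon
  push Not at hcon
  obtain ⟨c1, c2, c3⟩ := hcon
  have hss := ss_cast'
  have hn' := (mem_RN_yy hT).1 hn
  have hp0 := (Nat.prime_of_mem_primeFactors hp)
  have hp0' := (Nat.prime_of_mem_primeFactors hp')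
  have hle := yy_le' hT hp0'.pos hpp.le
  have hsum : yy T p + yy T p' ≤ (ss : ℝ) := by
    rw [← yy_mul' hT hp0.ne_zero hp0'.ne_zero]
    refine (yy_dvd' hT ?_ hn'.1).trans hn'.2.1
    exact Nat.Coprime.mul_dvd_of_dvd_of_dvd ((Nat.coprime_primes hp0 hp0').2 hpp.ne')
      (Nat.dvd_of_mem_primeFactors hp) (Nat.dvd_of_mem_primeFactors hp')
  by_cases h5 : yy T p' ≤ 1 / 5 - 1 / 100000
  · have h4 : 1 / 4 - 1 / 100000 < yy T p := by
      by_contra h
      push Not at h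
      exact absurd (c2 h) (by linarith)
    have h3 : 1 - 2 * (1 / 100000) < 3 * yy T p + yy T p' := by
      by_contra h
      push Not at h
      exact absurd (c3 h) (by linarith)
    obtain ⟨i, hi, hi1, hi2⟩ := grid_find (A := 4 / 15 - 1 / 100000) (h := 1 / 450) (y := yy T p) (k := 30) (by linarith)
      (by have := hJ p hp; push_cast; linarith)
    apply hR2 i hi
    unfold RC
    rw [Finset.mem_filter]
    have hr1 : ((r2 i : ℚ) : ℝ) < yy T p := by rw [r2_cast]; linarith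
    have hr2 : yy T p ≤ ((r2 (i + 1) : ℚ) : ℝ) := by rw [r2_cast]; push_cast; linarith
    refine ⟨hn, p, hp, p', hp', hpp.ne', hr1, hr2, ?_, ?_⟩
    · unfold h2
      rw [qmax_eq, Rat.cast_max]
      push_cast
      rw [ee_cast]
      exact max_lt c1 (by linarith)
    · unfold U2
      rw [qmin_eq, Rat.cast_min]
      push_cast
      rw [ee_cast]
      exact le_min h5 (by linarith)
  · push Not at h5
    obtain ⟨i, hi, hi1, hi2⟩ := grid_find (A := 1 / 5 - 1 / 100000) (h := (1999 / 4000 - 2 * (1 / 5 - 1 / 100000)) / 30)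
      (y := yy T p) (k := 30) (by linarith) (by push_cast; rw [hss] at hsum; linarith)
    apply hR1 i hi
    unfold RC
    rw [Finset.mem_filter]
    have hr1 : ((r1 i : ℚ) : ℝ) < yy T p := by rw [r1_cast]; linarith
    have hr2 : yy T p ≤ ((r1 (i + 1) : ℚ) : ℝ) := by rw [r1_cast]; push_cast; linarith
    refine ⟨hn, p, hp, p', hp', hpp.ne', hr1, hr2, ?_, ?_⟩
    · rw [h1_cast]
      exact h5
    · unfold U1
      rw [qmin_eq, Rat.cast_min]
      push_cast
      exact le_min (by linarith) (by linarith)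

/-- critical primes -/
theorem cov_T {N : ℕ} {T : ℝ} (hT : 1 < T) {n : ℕ} (hn : n ∈ RN N (T ^ ((ss : ℚ) : ℝ))) (hsq : Squarefree n)
    (hJ : ∀ p ∈ n.primeFactors, yy T p ≤ 1 / 3 - 1 / 100000) (hS : yy T n ≤ 1999 / 4000 - 1 / 8000)
    (hTC : ∀ i < 40, ∀ j : ℕ, j < 4 → n ∉ TC N T (ss : ℝ) (tA i : ℚ) (tB i : ℚ) ((j : ℝ) / 8) (((j : ℝ) + 1) / 8)) :
    ∀ q ∈ n.primeFactors, (∃ p ∈ n.primeFactors, ∃ p' ∈ n.primeFactors, q < p' ∧ p' < p) →
      ∑ p ∈ n.primeFactors.filter (fun p => q ≤ p), yy T p + 2099 / 4200 * yy T q ≤ 2099 / 4200 - 1 / 100000 := by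
  classical
  rintro q hq ⟨p, hp, p', hp', hqp', hpp⟩
  by_contra hcon
  push Not at hcon
  have hss := ss_cast'
  have hn' := (mem_RN_yy hT).1 hn
  have hn0 := hn'.1
  have hqP := Nat.prime_of_mem_primeFactors hq
  obtain ⟨d, hd⟩ : ∃ d, d = ∏ p ∈ n.primeFactors.filter (fun p => q < p), p := ⟨_, rfl⟩
  obtain ⟨r, hr⟩ : ∃ r, r = ∏ p ∈ n.primeFactors.filter (fun p => p < q), p := ⟨_, rfl⟩
  have hprod : n = q * d * r := by
    have h1 : ∏ p ∈ n.primeFactors, p = n := Nat.prod_primeFactors_of_squarefree hsq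
    have h2 : n.primeFactors = insert q (n.primeFactors.filter (fun p => q < p) ∪ n.primeFactors.filter (fun p => p < q)) := by
      ext x
      rw [Finset.mem_insert, Finset.mem_union, Finset.mem_filter, Finset.mem_filter]
      constructor
      · intro hx
        rcases lt_trichotomy q x with h | h | h
        · exact Or.inr (Or.inl ⟨hx, h⟩)
        · exact Or.inl h.symm
        · exact Or.inr (Or.inr ⟨hx, h⟩)
      · rintro (rfl | ⟨h, _⟩ | ⟨h, _⟩)
        · exact hq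
        · exact h
        · exact h
    rw [← h1]
    conv_lhs => rw [h2]
    rw [Finset.prod_insert, Finset.prod_union, ← hd, ← hr, mul_assoc]
    · rw [Finset.disjoint_left]
      intro x hx hx2
      have a1 := (Finset.mem_filter.1 hx).2
      have a2 := (Finset.mem_filter.1 hx2).2
      omega
    · rw [Finset.mem_union, Finset.mem_filter, Finset.mem_filter]
      rintro (⟨_, h⟩ | ⟨_, h⟩) <;> omega
  have hdn : d ∣ n := ⟨q * r, by rw [hprod]; ring⟩
  have hd0 : d ≠ 0 := fun h0 => hn0 (by rw [h0] at hdn; exact Nat.eq_zero_of_zero_dvd hdn)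
  have hdpf : d.primeFactors = n.primeFactors.filter (fun p => q < p) := by
    rw [hd]
    exact Nat.primeFactors_prod fun p hp => Nat.prime_of_mem_primeFactors (Finset.mem_filter.1 hp).1
  have hyd : yy T d = ∑ p ∈ n.primeFactors.filter (fun p => q < p), yy T p := by
    unfold yy
    rw [← Finset.sum_div, hd]
    push_cast
    rw [Real.log_prod]
    intro x hx
    exact_mod_cast (Nat.prime_of_mem_primeFactors (Finset.mem_filter.1 hx).1).ne_zero
  have hsumq : ∑ p ∈ n.primeFactors.filter (fun p => q ≤ p), yy T p = yy T q + yy T d := by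
    have h2 : n.primeFactors.filter (fun p => q ≤ p) = insert q (n.primeFactors.filter (fun p => q < p)) := by
      ext x
      rw [Finset.mem_insert, Finset.mem_filter, Finset.mem_filter]
      constructor
      · rintro ⟨hx, h⟩
        rcases eq_or_lt_of_le h with h | h
        · exact Or.inl h.symm
        · exact Or.inr ⟨hx, h⟩
      · rintro (rfl | ⟨h, h'⟩)
        · exact ⟨hq, le_rfl⟩
        · exact ⟨h, h'.le⟩
    rw [h2, Finset.sum_insert, hyd]
    rw [Finset.mem_filter]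
    rintro ⟨_, h⟩
    omega
  rw [hsumq] at hcon
  have hqd : yy T q + yy T d ≤ yy T n := by
    rw [← yy_mul' hT hqP.ne_zero hd0]
    exact yy_dvd' hT ⟨r, hprod⟩ hn0
  have hpd : p ∈ d.primeFactors := by rw [hdpf, Finset.mem_filter]; exact ⟨hp, hqp'.trans hpp⟩
  have hpd' : p' ∈ d.primeFactors := by rw [hdpf, Finset.mem_filter]; exact ⟨hp', hqp'⟩
  have hcard : 2 ≤ d.primeFactors.card := Finset.one_lt_card.2 ⟨p, hpd, p', hpd', hpp.ne'⟩
  have hyd2 : yy T p + yy T p' ≤ yy T d := by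
    rw [← yy_mul' hT (Nat.prime_of_mem_primeFactors hp).ne_zero (Nat.prime_of_mem_primeFactors hp').ne_zero]
    exact yy_dvd' hT (Nat.Coprime.mul_dvd_of_dvd_of_dvd ((Nat.coprime_primes (Nat.prime_of_mem_primeFactors hp)
      (Nat.prime_of_mem_primeFactors hp')).2 hpp.ne') (Nat.dvd_of_mem_primeFactors hpd) (Nat.dvd_of_mem_primeFactors hpd')) hd0
  have hyq1 := yy_lt' hT hqP.pos hqp'
  have hyq2 := yy_lt' hT hqP.pos (hqp'.trans hpp)
  have hq0 : 1 / 4000 < yy T q := by linarith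
  have hq6 : yy T q < 1 / 6 := by linarith
  obtain ⟨i, hi, hi1, hi2⟩ := grid_find (A := 0) (h := 1 / 240) (y := yy T q) (k := 40) (by linarith) (by push_cast; linarith)
  obtain ⟨ρ, hρ⟩ : ∃ ρ, ρ = 1999 / 4000 - yy T q - yy T d := ⟨_, rfl⟩
  have hρ0 : 0 ≤ ρ := by linarith
  have hρ1 : ρ < yy T q / 2 := by linarith
  have hyq0 : 0 < yy T q := by linarith
  have hj0 : 0 ≤ 8 * ρ / yy T q := by positivity
  have hj1 := Nat.floor_le hj0
  have hj2 := Nat.lt_floor_add_one (8 * ρ / yy T q)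
  obtain ⟨j, hj⟩ : ∃ j, j = ⌊8 * ρ / yy T q⌋₊ := ⟨_, rfl⟩
  rw [← hj] at hj1 hj2
  rw [le_div_iff₀ hyq0] at hj1
  rw [div_lt_iff₀ hyq0] at hj2
  have hj4 : j < 4 := by
    by_contra h
    push Not at h
    have h4 : (4 : ℝ) ≤ j := by exact_mod_cast h
    have := mul_le_mul_of_nonneg_right h4 hyq0.le
    linarith
  apply hTC i hi j hj4
  unfold TC
  rw [Finset.mem_filter]
  refine ⟨hn, q, hq, ?_, ?_, d, r, hprod, hsq.squarefree_of_dvd hdn, hcard, ?_, ?_, ?_⟩
  · unfold tA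
    split_ifs with h0
    · push_cast
      exact hq0
    · push_cast
      linarith
  · unfold tB
    push_cast
    linarith
  · intro x hx
    rw [hdpf, Finset.mem_filter] at hx
    exact ⟨hx.2, by linarith [hJ x hx.1]⟩
  · rw [hss]
    nlinarith
  · rw [hss]
    nlinarith

end Pool.Agent.Helper57.PR
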