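import Pool.Agent.Helper57.PR.S1
import Pool.Agent.Helper69.PP.A3a

/-!
# PR-S3: bounds of the weight, sums of the weight over rough numbers
-/

open MeasureTheory Set Filter Topology
open Pool.Agent.Helper57.Zeta Pool.Agent.Helper57.PC Pool.Agent.Helper57.LH Pool.Agent.Helper78.SG
open Pool.Agent.Helper4.SH
open Pool.Agent.Helper69.PP

namespace Pool.Agent.Helper57.PR

private theorem nonneg60 {f f' : ℝ → ℝ} (h0 : 0 ≤ f 0) (hd : ∀ x, HasDerivAt f (f' x) x)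
    (h' : ∀ x, 0 ≤ x → 0 ≤ f' x) {x : ℝ} (hx : 0 ≤ x) : 0 ≤ f x := by
  have hm : MonotoneOn f (Ici 0) := by
    refine monotoneOn_of_deriv_nonneg (convex_Ici 0) (fun y _ => (hd y).continuousAt.continuousWithinAt)
      (fun y _ => (hd y).differentiableAt.differentiableWithinAt) ?_
    intro y hy
    rw [interior_Ici] at hy
    rw [(hd y).deriv]
    exact h' y (le_of_lt hy)
  exact h0.trans (hm (mem_Ici.2 le_rfl) (mem_Ici.2 hx) hx)

private theorem pw60 (k : ℕ) (a x : ℝ) : HasDerivAt (fun y : ℝ => y ^ k / a) (k * x ^ (k - 1) / a) x := by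
  simpa using (hasDerivAt_pow k x).div_const a

/-- `x - sin x ≥ 0` -/
private theorem t1_60 {x : ℝ} (hx : 0 ≤ x) : 0 ≤ x - Real.sin x :=
  nonneg60 (f := fun y => y - Real.sin y) (f' := fun y => 1 - Real.cos y) (by simp)
    (fun y => (hasDerivAt_id y).sub (Real.hasDerivAt_sin y)) (fun y _ => by linarith [Real.cos_le_one y]) hx

/-- `cos x - 1 + x²/2 ≥ 0` -/
private theorem t2_60 {x : ℝ} (hx : 0 ≤ x) : 0 ≤ Real.cos x - 1 + x ^ 2 / 2 := by
  refine nonneg60 (f := fun y => Real.cos y - 1 + y ^ 2 / 2) (f' := fun y => y - Real.sin y) (by simp)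
    (fun y => ?_) (fun y hy => t1_60 hy) hx
  exact (((Real.hasDerivAt_cos y).sub_const 1).add (pw60 2 2 y)).congr_deriv (by push_cast; ring)

/-- `sin x - x + x³/6 ≥ 0` -/
private theorem t3_60 {x : ℝ} (hx : 0 ≤ x) : 0 ≤ Real.sin x - x + x ^ 3 / 6 := by
  refine nonneg60 (f := fun y => Real.sin y - y + y ^ 3 / 6) (f' := fun y => Real.cos y - 1 + y ^ 2 / 2) (by simp)
    (fun y => ?_) (fun y hy => t2_60 hy) hx
  exact (((Real.hasDerivAt_sin y).sub (hasDerivAt_id y)).add (pw60 3 6 y)).congr_deriv (by push_cast; ring)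

/-- `1 - x²/2 + x⁴/24 - cos x ≥ 0` -/
private theorem t4_60 {x : ℝ} (hx : 0 ≤ x) : 0 ≤ 1 - x ^ 2 / 2 + x ^ 4 / 24 - Real.cos x := by
  refine nonneg60 (f := fun y => 1 - y ^ 2 / 2 + y ^ 4 / 24 - Real.cos y)
    (f' := fun y => Real.sin y - y + y ^ 3 / 6) (by simp) (fun y => ?_) (fun y hy => t3_60 hy) hx
  exact ((((hasDerivAt_const y (1:ℝ)).sub (pw60 2 2 y)).add (pw60 4 24 y)).sub (Real.hasDerivAt_cos y)).congr_deriv
    (by push_cast; ring)

/-- `x - x³/6 + x⁵/120 - sin x ≥ 0` -/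
private theorem t5_60 {x : ℝ} (hx : 0 ≤ x) : 0 ≤ x - x ^ 3 / 6 + x ^ 5 / 120 - Real.sin x := by
  refine nonneg60 (f := fun y => y - y ^ 3 / 6 + y ^ 5 / 120 - Real.sin y)
    (f' := fun y => 1 - y ^ 2 / 2 + y ^ 4 / 24 - Real.cos y) (by simp) (fun y => ?_) (fun y hy => t4_60 hy) hx
  exact ((((hasDerivAt_id y).sub (pw60 3 6 y)).add (pw60 5 120 y)).sub (Real.hasDerivAt_sin y)).congr_deriv
    (by push_cast; ring)

/-- `cos x - 1 + x²/2 - x⁴/24 + x⁶/720 ≥ 0` -/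
private theorem t6_60 {x : ℝ} (hx : 0 ≤ x) : 0 ≤ Real.cos x - 1 + x ^ 2 / 2 - x ^ 4 / 24 + x ^ 6 / 720 := by
  refine nonneg60 (f := fun y => Real.cos y - 1 + y ^ 2 / 2 - y ^ 4 / 24 + y ^ 6 / 720)
    (f' := fun y => y - y ^ 3 / 6 + y ^ 5 / 120 - Real.sin y) (by simp) (fun y => ?_) (fun y hy => t5_60 hy) hx
  exact (((((Real.hasDerivAt_cos y).sub_const 1).add (pw60 2 2 y)).sub (pw60 4 24 y)).add (pw60 6 720 y)).congr_deriv
    (by push_cast; ring)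

/-- `sin x - x + x³/6 - x⁵/120 + x⁷/5040 ≥ 0` -/
private theorem t7_60 {x : ℝ} (hx : 0 ≤ x) :
    0 ≤ Real.sin x - x + x ^ 3 / 6 - x ^ 5 / 120 + x ^ 7 / 5040 := by
  refine nonneg60 (f := fun y => Real.sin y - y + y ^ 3 / 6 - y ^ 5 / 120 + y ^ 7 / 5040)
    (f' := fun y => Real.cos y - 1 + y ^ 2 / 2 - y ^ 4 / 24 + y ^ 6 / 720) (by simp) (fun y => ?_)
    (fun y hy => t6_60 hy) hx
  exact (((((Real.hasDerivAt_sin y).sub (hasDerivAt_id y)).add (pw60 3 6 y)).sub (pw60 5 120 y)).add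
    (pw60 7 5040 y)).congr_deriv (by push_cast; ring)

private theorem up_pos60 {x : ℝ} (hx : 0 < x) : Real.sinc x ≤ 1 - x ^ 2 / 6 + x ^ 4 / 120 := by
  rw [Real.sinc_of_ne_zero hx.ne', div_le_iff₀ hx]
  have h := t5_60 hx.le
  have e : (1 - x ^ 2 / 6 + x ^ 4 / 120) * x = x - x ^ 3 / 6 + x ^ 5 / 120 := by ring
  rw [e]
  linarith

private theorem low_pos60 {x : ℝ} (hx : 0 < x) :
    1 - x ^ 2 / 6 + x ^ 4 / 120 - x ^ 6 / 5040 ≤ Real.sinc x := by
  rw [Real.sinc_of_ne_zero hx.ne', le_div_iff₀ hx]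
  have h := t7_60 hx.le
  have e : (1 - x ^ 2 / 6 + x ^ 4 / 120 - x ^ 6 / 5040) * x = x - x ^ 3 / 6 + x ^ 5 / 120 - x ^ 7 / 5040 := by ring
  rw [e]
  linarith

theorem sinc_up (x : ℝ) : Real.sinc x ≤ 1 - x ^ 2 / 6 + x ^ 4 / 120 := by
  rcases lt_trichotomy x 0 with h | h | h
  · have := up_pos60 (x := -x) (by linarith)
    rw [Real.sinc_neg] at this
    calc Real.sinc x ≤ _ := this
      _ = _ := by ring
  · rw [h]; simp
  · exact up_pos60 h

theorem sinc_low (x : ℝ) : 1 - x ^ 2 / 6 + x ^ 4 / 120 - x ^ 6 / 5040 ≤ Real.sinc x := by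
  rcases lt_trichotomy x 0 with h | h | h
  · have := low_pos60 (x := -x) (by linarith)
    rw [Real.sinc_neg] at this
    calc _ = 1 - (-x) ^ 2 / 6 + (-x) ^ 4 / 120 - (-x) ^ 6 / 5040 := by ring
      _ ≤ _ := this
  · rw [h]; simp
  · exact low_pos60 h

private theorem SBc_up60 {c : ℝ} (hc : 0 ≤ c) (y : ℝ) :
    SBc c y ≤ c - Real.pi ^ 2 * c ^ 3 / 6 * y ^ 2 + Real.pi ^ 4 * c ^ 5 / 120 * y ^ 4 := by
  unfold SBc
  calc c * Real.sinc (Real.pi * c * y)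
      ≤ c * (1 - (Real.pi * c * y) ^ 2 / 6 + (Real.pi * c * y) ^ 4 / 120) :=
        mul_le_mul_of_nonneg_left (sinc_up _) hc
    _ = _ := by ring

private theorem SBc_low60 {c : ℝ} (hc : 0 ≤ c) (y : ℝ) :
    c - Real.pi ^ 2 * c ^ 3 / 6 * y ^ 2 + Real.pi ^ 4 * c ^ 5 / 120 * y ^ 4 - Real.pi ^ 6 * c ^ 7 / 5040 * y ^ 6 ≤
      SBc c y := by
  unfold SBc
  calc c - Real.pi ^ 2 * c ^ 3 / 6 * y ^ 2 + Real.pi ^ 4 * c ^ 5 / 120 * y ^ 4 - Real.pi ^ 6 * c ^ 7 / 5040 * y ^ 6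
      = c * (1 - (Real.pi * c * y) ^ 2 / 6 + (Real.pi * c * y) ^ 4 / 120 - (Real.pi * c * y) ^ 6 / 5040) := by ring
    _ ≤ _ := mul_le_mul_of_nonneg_left (sinc_low _) hc

private theorem yn60 {T : ℝ} (hT : 1 < T) (n : ℕ) : 0 ≤ yy T n :=
  div_nonneg (Real.log_natCast_nonneg n) (Real.log_pos hT).le

/-- `W(n) ≤ 2 c y_n - ∑_{p ∈ S} (2 κ y_p³ - 2 η y_p⁵)`, `κ = π² c³/6`, `η = π⁴ c⁵/120`, for any set `S` of prime factors -/
theorem Wn_up {c T : ℝ} (hc : 0 ≤ c) (hT : 1 < T) {n : ℕ} (hn : n ≠ 0) {S : Finset ℕ} (hS : S ⊆ n.primeFactors) :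
    Wn c T n ≤ 2 * c * yy T n - ∑ p ∈ S, (2 * (Real.pi ^ 2 * c ^ 3 / 6) * yy T p ^ 3 -
      2 * (Real.pi ^ 4 * c ^ 5 / 120) * yy T p ^ 5) := by
  have hL : 0 < Real.log T := Real.log_pos hT
  have hsum : ∑ p ∈ n.primeFactors, yy T p ≤ yy T n := by
    have e : ∑ p ∈ n.primeFactors, yy T p = yy T (∏ p ∈ n.primeFactors, p) := by
      unfold yy
      rw [← Finset.sum_div]
      congr 1
      push_cast
      rw [Real.log_prod]
      intro p hp
      exact_mod_cast (Nat.prime_of_mem_primeFactors hp).ne_zero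
    rw [e]
    unfold yy
    have hpos : 0 < ∏ p ∈ n.primeFactors, p :=
      Finset.prod_pos fun p hp => (Nat.prime_of_mem_primeFactors hp).pos
    have hle : ∏ p ∈ n.primeFactors, p ≤ n := Nat.le_of_dvd (Nat.pos_of_ne_zero hn) (Nat.prod_primeFactors_dvd n)
    have := Real.log_le_log (by exact_mod_cast hpos : (0:ℝ) < ((∏ p ∈ n.primeFactors, p : ℕ) : ℝ))
      (by exact_mod_cast hle : ((∏ p ∈ n.primeFactors, p : ℕ) : ℝ) ≤ n)
    gcongr
  have hW : Wn c T n = ∑ p ∈ n.primeFactors \ S, 2 * yy T p * SBc c (yy T p) +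
      ∑ p ∈ S, 2 * yy T p * SBc c (yy T p) := by
    unfold Wn
    rw [Finset.sum_sdiff hS]
  have hY : ∑ p ∈ n.primeFactors, yy T p = ∑ p ∈ n.primeFactors \ S, yy T p + ∑ p ∈ S, yy T p := by
    rw [Finset.sum_sdiff hS]
  have h1 : ∑ p ∈ n.primeFactors \ S, 2 * yy T p * SBc c (yy T p) ≤ ∑ p ∈ n.primeFactors \ S, 2 * c * yy T p := by
    refine Finset.sum_le_sum fun p _ => ?_
    have hy := yn60 hT p
    have h2 := (le_abs_self _).trans (SBc_le hc (yy T p))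
    calc 2 * yy T p * SBc c (yy T p) ≤ 2 * yy T p * c := mul_le_mul_of_nonneg_left h2 (by positivity)
      _ = _ := by ring
  have h2 : ∑ p ∈ S, 2 * yy T p * SBc c (yy T p) ≤ ∑ p ∈ S, (2 * c * yy T p -
      (2 * (Real.pi ^ 2 * c ^ 3 / 6) * yy T p ^ 3 - 2 * (Real.pi ^ 4 * c ^ 5 / 120) * yy T p ^ 5)) := by
    refine Finset.sum_le_sum fun p _ => ?_
    have hy := yn60 hT p
    calc 2 * yy T p * SBc c (yy T p)
        ≤ 2 * yy T p * (c - Real.pi ^ 2 * c ^ 3 / 6 * yy T p ^ 2 + Real.pi ^ 4 * c ^ 5 / 120 * yy T p ^ 4) :=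
          mul_le_mul_of_nonneg_left (SBc_up60 hc _) (by positivity)
      _ = _ := by ring
  rw [Finset.sum_sub_distrib, ← Finset.mul_sum] at h2
  rw [← Finset.mul_sum] at h1
  have h3 : 2 * c * (∑ p ∈ n.primeFactors \ S, yy T p + ∑ p ∈ S, yy T p) ≤ 2 * c * yy T n := by
    rw [← hY]
    exact mul_le_mul_of_nonneg_left hsum (by positivity)
  rw [hW]
  linarith

private theorem cont60 (c : ℝ) : Continuous (SBc c) := by
  unfold SBc
  exact continuous_const.mul (Real.continuous_sinc.comp (by fun_prop))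

private theorem SBc_nonneg60 {c y : ℝ} (hc : 0 ≤ c) (hc1 : c ≤ 1) (hy : 0 ≤ y) (hy1 : y ≤ 1) :
    0 ≤ SBc c y := by
  unfold SBc
  refine mul_nonneg hc ?_
  have hpi := Real.pi_pos
  rcases eq_or_lt_of_le (by positivity : 0 ≤ Real.pi * c * y) with h | h
  · rw [← h]; simp
  · rw [Real.sinc_of_ne_zero h.ne']
    refine div_nonneg (Real.sin_nonneg_of_nonneg_of_le_pi h.le ?_) h.le
    have h1 : c * y ≤ 1 := by nlinarith
    calc Real.pi * c * y = Real.pi * (c * y) := by ring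
      _ ≤ Real.pi * 1 := by gcongr
      _ = Real.pi := mul_one _

private theorem int60 {c κ η ξ θ a : ℝ} :
    ∫ y in a..θ, 2 * (c - κ * y ^ 2 + η * y ^ 4 - ξ * y ^ 6) * (θ - y) =
      c * θ ^ 2 - κ * θ ^ 4 / 6 + η * θ ^ 6 / 15 - ξ * θ ^ 8 / 28 -
      (2 * c * θ * a - c * a ^ 2 - 2 * κ * θ * a ^ 3 / 3 + κ * a ^ 4 / 2 + 2 * η * θ * a ^ 5 / 5 - η * a ^ 6 / 3
        - 2 * ξ * θ * a ^ 7 / 7 + ξ * a ^ 8 / 4) := by
  rw [intervalIntegral.integral_eq_sub_of_hasDerivAt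
    (f := fun y => 2 * c * θ * y - c * y ^ 2 - 2 * κ * θ * y ^ 3 / 3 + κ * y ^ 4 / 2 + 2 * η * θ * y ^ 5 / 5
      - η * y ^ 6 / 3 - 2 * ξ * θ * y ^ 7 / 7 + ξ * y ^ 8 / 4)]
  · ring
  · intro y _
    have h1 : HasDerivAt (fun y : ℝ => 2 * c * θ * y) (2 * c * θ) y := by
      simpa using (hasDerivAt_id y).const_mul (2 * c * θ)
    have hp : ∀ (k : ℕ) (b : ℝ), HasDerivAt (fun y : ℝ => b * y ^ k) (b * (k * y ^ (k - 1))) y := by
      intro k b
      exact (hasDerivAt_pow k y).const_mul b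
    have h2 := hp 2 c
    have h3 := (hp 3 (2 * κ * θ)).div_const 3
    have h4 := (hp 4 κ).div_const 2
    have h5 := (hp 5 (2 * η * θ)).div_const 5
    have h6 := (hp 6 η).div_const 3
    have h7 := (hp 7 (2 * ξ * θ)).div_const 7
    have h8 := (hp 8 ξ).div_const 4
    exact (((((((h1.sub h2).sub h3).add h4).add h5).sub h6).sub h7).add h8).congr_deriv (by push_cast; ring)
  · exact (by fun_prop : Continuous fun y : ℝ => 2 * (c - κ * y ^ 2 + η * y ^ 4 - ξ * y ^ 6) * (θ - y)).intervalIntegrable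
      _ _

/-- the sum of the weight over the rough numbers up to `T^θ` (compare `RW_ge` in PP/A3b; `δ` = sifting exponent) -/
theorem RW_ge2 {c δ : ℝ} (hc0 : 0 < c) (hc1 : c < 1) (hδ0 : 0 < δ) (hδ1 : δ ≤ 1 / 100) {ε : ℝ} (hε : 0 < ε) (hδ : δ ≤ ε)
    {θ : ℝ} (hθ : 1 / 10 ≤ θ) (hθ1 : θ ≤ 1 / 2) :
    ∀ᶠ T : ℝ in atTop, ∀ v : ℝ, 1 / 2 ≤ v → v ≤ 2 / δ → FL ⌈T ^ δ⌉₊ T v ε →
      v * (c * θ ^ 2 - Real.pi ^ 2 * c ^ 3 / 6 * θ ^ 4 / 6 + Real.pi ^ 4 * c ^ 5 / 120 * θ ^ 6 / 15 -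
        Real.pi ^ 6 * c ^ 7 / 5040 * θ ^ 8 / 28 - 4 * ε) ≤ ∑ n ∈ RN ⌈T ^ δ⌉₊ (T ^ θ), Wn c T n / n := by
  have hcont := cont60 c
  have hψ : Continuous (fun y => 2 * SBc c y * (θ - y)) := by fun_prop
  obtain ⟨κ, hκ⟩ : ∃ κ, κ = Real.pi ^ 2 * c ^ 3 / 6 := ⟨_, rfl⟩
  obtain ⟨η, hη⟩ : ∃ η, η = Real.pi ^ 4 * c ^ 5 / 120 := ⟨_, rfl⟩
  obtain ⟨ξ, hξ⟩ : ∃ ξ, ξ = Real.pi ^ 6 * c ^ 7 / 5040 := ⟨_, rfl⟩
  have hpi2 : Real.pi ^ 2 ≤ 10 := by
    have h1 := Real.pi_lt_d2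
    have h2 := Real.pi_pos
    nlinarith
  have hκ0 : 0 ≤ κ := by rw [hκ]; positivity
  have hη0 : 0 ≤ η := by rw [hη]; positivity
  have hξ0 : 0 ≤ ξ := by rw [hξ]; positivity
  have hκ2 : κ ≤ 2 := by
    rw [hκ]
    have h2 : c ^ 3 ≤ 1 := pow_le_one₀ hc0.le hc1.le
    have h3 : 0 ≤ c ^ 3 := by positivity
    nlinarith
  have hη2 : η ≤ 1 := by
    rw [hη]
    have h2 : c ^ 5 ≤ 1 := pow_le_one₀ hc0.le hc1.le
    have h3 : 0 ≤ c ^ 5 := by positivity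
    have h4 : Real.pi ^ 4 ≤ 100 := by
      calc Real.pi ^ 4 = (Real.pi ^ 2) ^ 2 := by ring
        _ ≤ 10 ^ 2 := by gcongr
        _ = 100 := by norm_num
    have h5 : Real.pi ^ 4 * c ^ 5 ≤ 100 * 1 := by gcongr
    linarith
  have hξ2 : ξ ≤ 1 := by
    rw [hξ]
    have h2 : c ^ 7 ≤ 1 := pow_le_one₀ hc0.le hc1.le
    have h3 : 0 ≤ c ^ 7 := by positivity
    have h4 : Real.pi ^ 6 ≤ 1000 := by
      calc Real.pi ^ 6 = (Real.pi ^ 2) ^ 3 := by ring
        _ ≤ 10 ^ 3 := by gcongr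
        _ = 1000 := by norm_num
    have h5 : Real.pi ^ 6 * c ^ 7 ≤ 1000 * 1 := by gcongr
    linarith
  have hδp : ∀ k : ℕ, 1 ≤ k → δ ^ k ≤ δ := by
    intro k hk
    calc δ ^ k ≤ δ ^ 1 := pow_le_pow_of_le_one hδ0.le (by linarith) hk
      _ = δ := pow_one δ
  have hint : c * θ ^ 2 - κ * θ ^ 4 / 6 + η * θ ^ 6 / 15 - ξ * θ ^ 8 / 28 - 3 * ε ≤
      ∫ y in δ..θ, 2 * SBc c y * (θ - y) := by
    have h1 : ∫ y in δ..θ, 2 * (c - κ * y ^ 2 + η * y ^ 4 - ξ * y ^ 6) * (θ - y) ≤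
        ∫ y in δ..θ, 2 * SBc c y * (θ - y) := by
      refine intervalIntegral.integral_mono_on (by linarith)
        ((by fun_prop : Continuous fun y : ℝ => 2 * (c - κ * y ^ 2 + η * y ^ 4 - ξ * y ^ 6) * (θ - y)).intervalIntegrable _ _)
        (hψ.intervalIntegrable _ _) ?_
      intro y hy
      have h2 := SBc_low60 hc0.le y
      rw [← hκ, ← hη, ← hξ] at h2
      have h3 : 0 ≤ θ - y := by linarith [hy.2]
      exact mul_le_mul_of_nonneg_right (by linarith) h3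
    refine le_trans ?_ h1
    rw [int60]
    have hθ0 : 0 ≤ θ := by linarith
    have e1 : 2 * c * θ * δ ≤ δ := by
      have : 2 * c * θ ≤ 1 := by nlinarith
      nlinarith
    have e2 : 0 ≤ c * δ ^ 2 := by positivity
    have e3 : 0 ≤ 2 * κ * θ * δ ^ 3 / 3 := by positivity
    have e4 : κ * δ ^ 4 / 2 ≤ δ := by
      have h := hδp 4 (by norm_num)
      have h' : 0 ≤ δ ^ 4 := by positivity
      nlinarith
    have e5 : 2 * η * θ * δ ^ 5 / 5 ≤ δ / 5 := by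
      have h := hδp 5 (by norm_num)
      have h' : 0 ≤ δ ^ 5 := by positivity
      have h'' : 2 * η * θ ≤ 1 := by nlinarith
      have h3 : 2 * η * θ * δ ^ 5 ≤ 1 * δ ^ 5 := mul_le_mul_of_nonneg_right h'' h'
      linarith
    have e6 : 0 ≤ η * δ ^ 6 / 3 := by positivity
    have e7 : 0 ≤ 2 * ξ * θ * δ ^ 7 / 7 := by positivity
    have e8 : ξ * δ ^ 8 / 4 ≤ δ / 4 := by
      have h := hδp 8 (by norm_num)
      have h' : 0 ≤ δ ^ 8 := by positivity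
      nlinarith
    linarith
  rw [← hκ, ← hη, ← hξ]
  filter_upwards [mert hψ hδ0 hε, eventually_gt_atTop 1] with T hm hT1 v hv1 _ hfl
  have hT0 : 0 < T := by linarith
  have hL : 0 < Real.log T := Real.log_pos hT1
  have hm' := hm δ θ le_rfl (by linarith) (by linarith)
  obtain ⟨S, hS⟩ : ∃ S, S = (PP T).filter (fun p => δ < yy T p ∧ yy T p ≤ θ) := ⟨_, rfl⟩
  rw [← hS] at hm'
  obtain ⟨x, hx⟩ : ∃ x, x = T ^ θ := ⟨_, rfl⟩
  rw [← hx]
  have hx0 : 0 < x := by rw [hx]; exact Real.rpow_pos_of_pos hT0 _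
  have hyp : ∀ p ∈ S, p.Prime ∧ δ < yy T p ∧ yy T p ≤ θ := by
    intro p hp
    rw [hS, Finset.mem_filter, PP, Finset.mem_filter] at hp
    exact ⟨hp.1.2, hp.2⟩
  have hTy : ∀ p : ℕ, 0 < p → T ^ yy T p = p := by
    intro p hp
    have hp0 : (0:ℝ) < p := by exact_mod_cast hp
    rw [Real.rpow_def_of_pos hT0, yy, mul_div_cancel₀ _ hL.ne', Real.exp_log hp0]
  obtain ⟨N, hN⟩ : ∃ N, N = ⌈T ^ δ⌉₊ := ⟨_, rfl⟩
  rw [← hN] at hfl ⊢
  have h1 : ∀ p ∈ S, (θ - yy T p) * v ≤ RS N (x / p) := by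
    intro p hp
    obtain ⟨hp1, hp2, hp3⟩ := hyp p hp
    have h2 := (hfl (θ - yy T p) ⟨by linarith, by linarith⟩).1
    rwa [Real.rpow_sub hT0, hTy p hp1.pos, ← hx] at h2
  have hNp : ∀ p ∈ S, N ≤ p := by
    intro p hp
    obtain ⟨hp1, hp2, hp3⟩ := hyp p hp
    rw [hN]
    refine Nat.ceil_le.2 ?_
    rw [← hTy p hp1.pos]
    exact Real.rpow_le_rpow_of_exponent_le hT1.le hp2.le
  have hfn : ∀ p : ℕ, 0 ≤ yy T p → yy T p ≤ 1 → 0 ≤ 2 * yy T p * SBc c (yy T p) := by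
    intro p h2 h3
    have := SBc_nonneg60 hc0.le hc1.le h2 h3
    positivity
  have h2 : ∑ p ∈ S, 2 * yy T p * SBc c (yy T p) * (1 / p * RS N (x / p)) ≤
      ∑ n ∈ RN N x, Wn c T n / n := by
    calc ∑ p ∈ S, 2 * yy T p * SBc c (yy T p) * (1 / p * RS N (x / p))
        = ∑ p ∈ S, ∑ n ∈ (RN N x).filter (fun n => p ∣ n),
            2 * yy T p * SBc c (yy T p) * (1 / (n:ℝ)) := by
          refine Finset.sum_congr rfl fun p hp => ?_
          rw [← RS_mult (hyp p hp).1 (hNp p hp) hx0.le, Finset.mul_sum]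
      _ = ∑ n ∈ RN N x, ∑ p ∈ S.filter (fun p => p ∣ n),
            2 * yy T p * SBc c (yy T p) * (1 / (n:ℝ)) := by
          simp only [Finset.sum_filter]
          rw [Finset.sum_comm]
      _ ≤ ∑ n ∈ RN N x, Wn c T n / n := by
          refine Finset.sum_le_sum fun n hn => ?_
          have hn' := mem_RN.1 hn
          have hn0 : (0:ℝ) < n := by
            have : 0 < n := Nat.pos_of_ne_zero hn'.1
            exact_mod_cast this
          rw [Wn, Finset.sum_div]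
          have h3 : ∀ p ∈ S.filter (fun p => p ∣ n),
              2 * yy T p * SBc c (yy T p) * (1 / (n:ℝ)) = 2 * yy T p * SBc c (yy T p) / n := by
            intro p _
            ring
          rw [Finset.sum_congr rfl h3]
          refine Finset.sum_le_sum_of_subset_of_nonneg ?_ ?_
          · intro p hp
            rw [Finset.mem_filter] at hp
            exact Nat.mem_primeFactors.2 ⟨(hyp p hp.1).1, hp.2, hn'.1⟩
          · intro p hp _
            have hpp := Nat.prime_of_mem_primeFactors hp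
            have hpn : (p:ℝ) ≤ n := by exact_mod_cast Nat.le_of_mem_primeFactors hp
            have hp0 : (0:ℝ) < p := by exact_mod_cast hpp.pos
            have h4 : 0 ≤ yy T p := yn60 hT1 p
            have h5 : yy T p ≤ θ := by
              unfold yy
              rw [div_le_iff₀ hL, ← Real.log_rpow hT0, ← hx]
              exact Real.log_le_log hp0 (hpn.trans hn'.2.1)
            exact div_nonneg (hfn p h4 (by linarith)) hn0.le
  refine le_trans ?_ h2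
  have h3 : v * ∑ p ∈ S, yy T p / p * (2 * SBc c (yy T p) * (θ - yy T p)) ≤
      ∑ p ∈ S, 2 * yy T p * SBc c (yy T p) * (1 / p * RS N (x / p)) := by
    rw [Finset.mul_sum]
    refine Finset.sum_le_sum fun p hp => ?_
    obtain ⟨hp1, hp2, hp3⟩ := hyp p hp
    have h4 := h1 p hp
    have hp0 : (0:ℝ) < p := by exact_mod_cast hp1.pos
    have h5 := hfn p (by linarith) (by linarith)
    calc v * (yy T p / p * (2 * SBc c (yy T p) * (θ - yy T p)))
        = 2 * yy T p * SBc c (yy T p) * (1 / p * ((θ - yy T p) * v)) := by ring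
      _ ≤ _ := by gcongr
  refine le_trans ?_ h3
  refine mul_le_mul_of_nonneg_left ?_ (by linarith)
  have h6 := (abs_le.1 hm').1
  linarith

end Pool.Agent.Helper57.PR
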