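import Pool.Agent.Helper57.PR.S1

/-!
# PR-S6: class R (two primes in a box)

`n = (p p') r`: `mom_prod` with `D` = the products `p p'` and `w` constant. `Φ(g) = w g - c g²` is increasing on `g ≤ w/(2c)`, so
`Φ(s - y - y') ≤ Φ(A - y')`, `A = s - a`; then Mertens for `y'` (`SP` with `k = 0,1,2`) and for `y` (`SP` with `k = 0`).
-/

open MeasureTheory Set Filter Topology
open Pool.Agent.Helper57.Zeta Pool.Agent.Helper57.PC Pool.Agent.Helper57.LH Pool.Agent.Helper78.SG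
open Pool.Agent.Helper4.SH
open Pool.Agent.Helper69.PP

namespace Pool.Agent.Helper57.PR

private theorem img60 {α : Type*} (P : Finset α) (f : α → ℕ) (F : ℕ → ℝ) (hF : ∀ x ∈ P, 0 ≤ F (f x)) :
    ∑ d ∈ P.image f, F d ≤ ∑ x ∈ P, F (f x) := by
  classical
  obtain ⟨u, hu, hinj, himg⟩ := Finset.exists_subset_injOn_image_eq_of_surjOn (P : Set α) (P.image f)
    (f := f) (by
      intro d hd
      rw [Finset.mem_coe, Finset.mem_image] at hd
      obtain ⟨x, hx, rfl⟩ := hd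
      exact ⟨x, hx, rfl⟩)
  rw [← himg, Finset.sum_image hinj]
  exact Finset.sum_le_sum_of_subset_of_nonneg (Finset.coe_subset.1 hu) fun x hx _ => hF x hx

private theorem yy_pos_le60 {T : ℝ} (hT : 1 < T) {n : ℕ} (hn : n ≠ 0) (h : yy T n ≤ 1) : n < ⌊T⌋₊ + 1 := by
  have hL : 0 < Real.log T := Real.log_pos hT
  unfold yy at h
  rw [div_le_one hL] at h
  have h1 : (0:ℝ) < n := by exact_mod_cast Nat.pos_of_ne_zero hn
  have h2 : (n : ℝ) ≤ T := (Real.log_le_log_iff h1 (by linarith)).1 h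
  have := Nat.le_floor h2
  omega

theorem boundR {N : ℕ} {T v ε s a b h U w c : ℝ} (hT : 1 < T) (hv : 0 ≤ v) (hε : 0 < ε) (hε1 : ε ≤ 1 / 1000)
    (hfl : FL N T v ε) (hm : MT T (1 / 4000) ε) (ha : 1 / 10 ≤ a) (hab : a ≤ b) (hb : b ≤ 1 / 2) (hh : 1 / 10 ≤ h) (hhU : h ≤ U)
    (hU : U ≤ s - a) (hs1 : s ≤ 1 / 2) (hc0 : 0 ≤ c) (hc1 : c ≤ 1) (hw0 : 0 ≤ w) (hw1 : w ≤ 1) (hwc : 2 * c * (s - a - h) ≤ w)
    (g : ℕ → ℝ) (hg0 : ∀ n, 0 ≤ g n) (hg : ∀ n ∈ RC N T s a b h U, g n ≤ (w - 2 * c * (s - yy T n)) / n) :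
    ∑ n ∈ RC N T s a b h U, g n ≤ v * (Real.log (b / a) * (w * ((s - a) * Real.log (U / h) - (U - h)) -
      c * ((s - a) ^ 2 * Real.log (U / h) - 2 * (s - a) * (U - h) + (U ^ 2 - h ^ 2) / 2)) + 1000 * ε) := by
  classical
  obtain ⟨A, hA⟩ : ∃ A, A = s - a := ⟨_, rfl⟩
  have hA0 : 0 ≤ A := by linarith
  have hA1 : A ≤ 2 / 5 := by linarith
  have ha0 : 0 < a := by linarith
  have hh0 : 0 < h := by linarith
  obtain ⟨P, hP⟩ : ∃ P, P = ((PI T a b) ×ˢ (PI T h U)).filter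
      (fun x : ℕ × ℕ => x.1 ≠ x.2 ∧ N ≤ x.1 ∧ N ≤ x.2 ∧ yy T x.1 + yy T x.2 ≤ s) := ⟨_, rfl⟩
  have hPI : ∀ u u' : ℝ, ∀ p ∈ PI T u u', p.Prime ∧ u < yy T p ∧ yy T p ≤ u' := by
    intro u u' p hp
    unfold PI PP at hp
    rw [Finset.mem_filter, Finset.mem_filter] at hp
    exact ⟨hp.1.2, hp.2⟩
  have hPI' : ∀ u u' : ℝ, ∀ p : ℕ, p.Prime → yy T p ≤ 1 → u < yy T p → yy T p ≤ u' → p ∈ PI T u u' := by
    intro u u' p hp h1 h2 h3
    unfold PI PP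
    rw [Finset.mem_filter, Finset.mem_filter, Finset.mem_range]
    exact ⟨⟨yy_pos_le60 hT hp.ne_zero h1, hp⟩, h2, h3⟩
  have hPm : ∀ x ∈ P, x.1.Prime ∧ x.2.Prime ∧ a < yy T x.1 ∧ yy T x.1 ≤ b ∧ h < yy T x.2 ∧ yy T x.2 ≤ U ∧ x.1 ≠ x.2 ∧
      N ≤ x.1 ∧ N ≤ x.2 ∧ yy T x.1 + yy T x.2 ≤ s := by
    intro x hx
    rw [hP, Finset.mem_filter, Finset.mem_product] at hx
    obtain ⟨⟨h1, h2⟩, h3⟩ := hx
    obtain ⟨e1, e2, e3⟩ := hPI _ _ _ h1
    obtain ⟨e4, e5, e6⟩ := hPI _ _ _ h2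
    exact ⟨e1, e4, e2, e3, e5, e6, h3⟩
  obtain ⟨D, hD⟩ : ∃ D, D = P.image (fun x : ℕ × ℕ => x.1 * x.2) := ⟨_, rfl⟩
  have hyx : ∀ x ∈ P, yy T (x.1 * x.2) = yy T x.1 + yy T x.2 := by
    intro x hx
    obtain ⟨e1, e2, _⟩ := hPm x hx
    exact yy_mul' hT e1.ne_zero e2.ne_zero
  have hDm : ∀ d ∈ D, d ≠ 0 ∧ yy T d ≤ s ∧ 0 ≤ w := by
    intro d hd
    rw [hD, Finset.mem_image] at hd
    obtain ⟨x, hx, rfl⟩ := hd
    obtain ⟨e1, e2, _, _, _, _, _, _, _, e3⟩ := hPm x hx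
    exact ⟨mul_ne_zero e1.ne_zero e2.ne_zero, by rw [hyx x hx]; exact e3, hw0⟩
  -- the cover
  have h1 : ∑ n ∈ RC N T s a b h U, g n ≤ ∑ d ∈ D, ∑ r ∈ RN N (T ^ (s - yy T d)), g (d * r) := by
    refine cover2 _ D (fun d => RN N (T ^ (s - yy T d))) ?_ g hg0
    intro n hn
    unfold RC at hn
    rw [Finset.mem_filter] at hn
    obtain ⟨hn1, p, hp, p', hp', hne, e1, e2, e3, e4⟩ := hn
    rw [mem_RN_yy hT] at hn1
    obtain ⟨hn0, hns, hnN⟩ := hn1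
    have hpp := Nat.prime_of_mem_primeFactors hp
    have hpp' := Nat.prime_of_mem_primeFactors hp'
    have hcop : Nat.Coprime p p' := (Nat.coprime_primes hpp hpp').2 hne
    obtain ⟨r, hr⟩ : p * p' ∣ n := hcop.mul_dvd_of_dvd_of_dvd (Nat.dvd_of_mem_primeFactors hp)
      (Nat.dvd_of_mem_primeFactors hp')
    have hr0 : r ≠ 0 := by
      rintro rfl
      exact hn0 (by rw [hr, mul_zero])
    have hm0 : p * p' ≠ 0 := mul_ne_zero hpp.ne_zero hpp'.ne_zero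
    have hy1 : yy T n = yy T (p * p') + yy T r := by rw [hr, yy_mul' hT hm0 hr0]
    have hy2 : yy T (p * p') = yy T p + yy T p' := yy_mul' hT hpp.ne_zero hpp'.ne_zero
    have hyr := yy_nonneg' hT r
    have hyp := yy_nonneg' hT p
    have hyp' := yy_nonneg' hT p'
    refine ⟨p * p', ?_, r, ?_, hr⟩
    · rw [hD, Finset.mem_image]
      refine ⟨(p, p'), ?_, rfl⟩
      rw [hP, Finset.mem_filter, Finset.mem_product]
      exact ⟨⟨hPI' _ _ p hpp (by linarith) e1 e2, hPI' _ _ p' hpp' (by linarith) e3 e4⟩, hne, hnN p hp, hnN p' hp', by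
        show yy T p + yy T p' ≤ s
        linarith⟩
    · rw [mem_RN_yy hT]
      refine ⟨hr0, by linarith, fun l hl => hnN l ?_⟩
      rw [hr, Nat.primeFactors_mul hm0 hr0]
      exact Finset.mem_union_right _ hl
  -- the bound of g
  have h2 : ∑ d ∈ D, ∑ r ∈ RN N (T ^ (s - yy T d)), g (d * r) ≤
      ∑ d ∈ D, ∑ r ∈ RN N (T ^ (s - yy T d)), (w - 2 * c * (s - yy T (d * r))) / ((d * r : ℕ) : ℝ) := by
    refine Finset.sum_le_sum fun d hd => Finset.sum_le_sum fun r hr => ?_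
    refine hg _ ?_
    rw [hD, Finset.mem_image] at hd
    obtain ⟨x, hx, rfl⟩ := hd
    obtain ⟨q1, q2, q3, q4, q5, q6, q7, q8, q9, q10⟩ := hPm x hx
    rw [mem_RN_yy hT] at hr
    obtain ⟨hr0, hrs, hrN⟩ := hr
    have hm0 : x.1 * x.2 ≠ 0 := mul_ne_zero q1.ne_zero q2.ne_zero
    have hn0 : x.1 * x.2 * r ≠ 0 := mul_ne_zero hm0 hr0
    have hd1 : x.1 ∣ x.1 * x.2 * r := ⟨x.2 * r, by ring⟩
    have hd2 : x.2 ∣ x.1 * x.2 * r := ⟨x.1 * r, by ring⟩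
    unfold RC
    rw [Finset.mem_filter, mem_RN_yy hT]
    refine ⟨⟨hn0, by rw [yy_mul' hT hm0 hr0]; linarith, ?_⟩, x.1, Nat.mem_primeFactors.2 ⟨q1, hd1, hn0⟩, x.2,
      Nat.mem_primeFactors.2 ⟨q2, hd2, hn0⟩, q7, q3, q4, q5, q6⟩
    intro l hl
    rw [Nat.primeFactors_mul hm0 hr0, Nat.primeFactors_mul q1.ne_zero q2.ne_zero, q1.primeFactors, q2.primeFactors,
      Finset.mem_union, Finset.mem_union, Finset.mem_singleton, Finset.mem_singleton] at hl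
    rcases hl with (hl | hl) | hl
    · rw [hl]; exact q8
    · rw [hl]; exact q9
    · exact hrN l hl
  have h3 := mom_prod hT hv hfl (by linarith : s ≤ 1) hc0 D (fun _ => w) hDm
  -- the sum over the pairs
  have hmono : ∀ x ∈ P, 0 ≤ w * (s - yy T (x.1 * x.2) + ε) - c * (s - yy T (x.1 * x.2)) ^ 2 ∧
      w * (s - yy T (x.1 * x.2) + ε) - c * (s - yy T (x.1 * x.2)) ^ 2 ≤
        w * (A - yy T x.2 + ε) - c * (A - yy T x.2) ^ 2 := by
    intro x hx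
    obtain ⟨q1, q2, q3, q4, q5, q6, q7, q8, q9, q10⟩ := hPm x hx
    rw [hyx x hx]
    obtain ⟨g1, hg1⟩ : ∃ g1, g1 = s - (yy T x.1 + yy T x.2) := ⟨_, rfl⟩
    obtain ⟨g2, hg2⟩ : ∃ g2, g2 = A - yy T x.2 := ⟨_, rfl⟩
    rw [← hg1, ← hg2]
    have k0 : 0 ≤ g1 := by linarith
    have k1 : g1 ≤ g2 := by linarith
    have k2 : g2 ≤ s - a - h := by linarith
    have k3 : c * (g1 + g2) ≤ w := by
      have : c * (g1 + g2) ≤ c * (2 * (s - a - h)) := mul_le_mul_of_nonneg_left (by linarith) hc0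
      linarith
    have k4 : c * g1 ≤ w := by
      have : c * g1 ≤ c * (g1 + g2) := mul_le_mul_of_nonneg_left (by linarith) hc0
      linarith
    constructor
    · have e1 : 0 ≤ g1 * (w - c * g1) := mul_nonneg k0 (by linarith)
      have e2 : 0 ≤ w * ε := by positivity
      have e3 : w * (g1 + ε) - c * g1 ^ 2 = g1 * (w - c * g1) + w * ε := by ring
      rw [e3]
      linarith
    · have e1 : 0 ≤ (g2 - g1) * (w - c * (g1 + g2)) := mul_nonneg (by linarith) (by linarith)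
      have e3 : w * (g2 + ε) - c * g2 ^ 2 = w * (g1 + ε) - c * g1 ^ 2 + (g2 - g1) * (w - c * (g1 + g2)) := by ring
      rw [e3]
      linarith
  have h4 : ∑ d ∈ D, (w * (s - yy T d + ε) - c * (s - yy T d) ^ 2) / d ≤
      ∑ x ∈ P, (w * (s - yy T (x.1 * x.2) + ε) - c * (s - yy T (x.1 * x.2)) ^ 2) / ((x.1 * x.2 : ℕ) : ℝ) := by
    rw [hD]
    exact img60 P (fun x : ℕ × ℕ => x.1 * x.2) (fun d => (w * (s - yy T d + ε) - c * (s - yy T d) ^ 2) / (d : ℝ))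
      fun x hx => div_nonneg (hmono x hx).1 (Nat.cast_nonneg _)
  have hPhi : ∀ p' ∈ PI T h U, 0 ≤ w * (A - yy T p' + ε) - c * (A - yy T p') ^ 2 := by
    intro p' hp'
    obtain ⟨_, e1, e2⟩ := hPI _ _ _ hp'
    obtain ⟨g2, hg2⟩ : ∃ g2, g2 = A - yy T p' := ⟨_, rfl⟩
    rw [← hg2]
    have k0 : 0 ≤ g2 := by linarith
    have k1 : c * g2 ≤ w := by
      have : c * g2 ≤ c * (s - a - h) := mul_le_mul_of_nonneg_left (by linarith) hc0
      have h0 : 0 ≤ c * (s - a - h) := mul_nonneg hc0 (by linarith)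
      linarith
    have e3 : 0 ≤ g2 * (w - c * g2) := mul_nonneg k0 (by linarith)
    have e4 : 0 ≤ w * ε := by positivity
    have e5 : w * (g2 + ε) - c * g2 ^ 2 = g2 * (w - c * g2) + w * ε := by ring
    rw [e5]
    linarith
  have h5 : ∑ x ∈ P, (w * (s - yy T (x.1 * x.2) + ε) - c * (s - yy T (x.1 * x.2)) ^ 2) / ((x.1 * x.2 : ℕ) : ℝ) ≤
      (∑ p ∈ PI T a b, 1 / (p : ℝ)) * ∑ p' ∈ PI T h U, (w * (A - yy T p' + ε) - c * (A - yy T p') ^ 2) / p' := by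
    rw [Finset.sum_mul_sum, ← Finset.sum_product']
    obtain ⟨F, hF⟩ : ∃ F : ℕ × ℕ → ℝ, F = fun x : ℕ × ℕ =>
      1 / (x.1 : ℝ) * ((w * (A - yy T x.2 + ε) - c * (A - yy T x.2) ^ 2) / x.2) := ⟨_, rfl⟩
    have k1 : ∑ x ∈ P, (w * (s - yy T (x.1 * x.2) + ε) - c * (s - yy T (x.1 * x.2)) ^ 2) / ((x.1 * x.2 : ℕ) : ℝ) ≤
        ∑ x ∈ P, F x := by
      refine Finset.sum_le_sum fun x hx => ?_
      have e : F x = (w * (A - yy T x.2 + ε) - c * (A - yy T x.2) ^ 2) / ((x.1 * x.2 : ℕ) : ℝ) := by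
        rw [hF]
        push_cast
        rw [div_mul_div_comm, one_mul]
      rw [e]
      exact div_le_div_of_nonneg_right (hmono x hx).2 (Nat.cast_nonneg _)
    have k2 : ∑ x ∈ P, F x ≤ ∑ x ∈ PI T a b ×ˢ PI T h U, F x := by
      refine Finset.sum_le_sum_of_subset_of_nonneg ?_ ?_
      · rw [hP]
        exact Finset.filter_subset _ _
      · intro x hx _
        rw [Finset.mem_product] at hx
        rw [hF]
        exact mul_nonneg (by positivity) (div_nonneg (hPhi x.2 hx.2) (Nat.cast_nonneg _))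
    rw [hF] at k2
    rw [hF] at k1
    exact k1.trans k2
  -- Mertens
  have hU1 : U ≤ 1 := by linarith
  obtain ⟨m0, m1⟩ := hm h U (by linarith) hhU hU1
  have m2 := m1 1 le_rfl (by norm_num)
  have m3 := m1 2 (by norm_num) (by norm_num)
  obtain ⟨n0, _⟩ := hm a b (by linarith) hab (by linarith)
  have hS0 : ∑ p ∈ PI T a b, 1 / (p : ℝ) = SP T 0 a b := by
    unfold SP
    exact Finset.sum_congr rfl fun p _ => by rw [pow_zero]
  have hS1 : ∑ p' ∈ PI T h U, (w * (A - yy T p' + ε) - c * (A - yy T p') ^ 2) / p' =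
      (w * (A + ε) - c * A ^ 2) * SP T 0 h U + (2 * c * A - w) * SP T 1 h U - c * SP T 2 h U := by
    unfold SP
    rw [Finset.mul_sum, Finset.mul_sum, Finset.mul_sum, ← Finset.sum_add_distrib, ← Finset.sum_sub_distrib]
    refine Finset.sum_congr rfl fun p _ => ?_
    rw [pow_zero, pow_one]
    ring
  obtain ⟨L, hL⟩ : ∃ L, L = Real.log (U / h) := ⟨_, rfl⟩
  obtain ⟨L1, hL1⟩ : ∃ L1, L1 = Real.log (b / a) := ⟨_, rfl⟩
  have hL0 : 0 ≤ L := by rw [hL]; exact Real.log_nonneg (by rwa [le_div_iff₀ hh0, one_mul])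
  have hL10 : 0 ≤ L1 := by rw [hL1]; exact Real.log_nonneg (by rwa [le_div_iff₀ ha0, one_mul])
  have hL3 : L ≤ 3 := by
    rw [hL]
    have e1 := Real.log_le_sub_one_of_pos (div_pos (by linarith : 0 < U) hh0)
    have e2 : U / h ≤ 4 := by rw [div_le_iff₀ hh0]; linarith
    linarith
  have hL14 : L1 ≤ 4 := by
    rw [hL1]
    have e1 := Real.log_le_sub_one_of_pos (div_pos (by linarith : 0 < b) ha0)
    have e2 : b / a ≤ 5 := by rw [div_le_iff₀ ha0]; linarith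
    linarith
  rw [← hL] at m0
  rw [← hL1] at n0
  rw [← hL, ← hL1, ← hA]
  obtain ⟨s0, hs0⟩ : ∃ s0, s0 = SP T 0 h U := ⟨_, rfl⟩
  obtain ⟨s1, hs1'⟩ : ∃ s1, s1 = SP T 1 h U := ⟨_, rfl⟩
  obtain ⟨s2, hs2⟩ : ∃ s2, s2 = SP T 2 h U := ⟨_, rfl⟩
  rw [← hs0] at m0
  rw [← hs1'] at m2
  rw [← hs2] at m3
  rw [← hs0, ← hs1', ← hs2] at hS1
  norm_num at m2 m3
  obtain ⟨M, hM⟩ : ∃ M, M = w * (A * L - (U - h)) - c * (A ^ 2 * L - 2 * A * (U - h) + (U ^ 2 - h ^ 2) / 2) := ⟨_, rfl⟩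
  rw [← hM]
  obtain ⟨Q, hQ⟩ : ∃ Q, Q = ∑ p' ∈ PI T h U, (w * (A - yy T p' + ε) - c * (A - yy T p') ^ 2) / p' := ⟨_, rfl⟩
  have hQ0 : 0 ≤ Q := by
    rw [hQ]
    exact Finset.sum_nonneg fun p hp => div_nonneg (hPhi p hp) (Nat.cast_nonneg _)
  have hcA : c * A ≤ 2 / 5 := by
    have := mul_le_mul hc1 hA1 hA0 zero_le_one
    linarith
  have hcA0 : 0 ≤ c * A := by positivity
  have hwA : w * A ≤ 2 / 5 := by
    have := mul_le_mul hw1 hA1 hA0 zero_le_one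
    linarith
  have hwA0 : 0 ≤ w * A := by positivity
  have hcAA : c * A ^ 2 ≤ 4 / 25 := by
    have := mul_le_mul hcA hA1 hA0 (by norm_num)
    calc c * A ^ 2 = c * A * A := by ring
      _ ≤ 2 / 5 * (2 / 5) := this
      _ = 4 / 25 := by norm_num
  have hcAA0 : 0 ≤ c * A ^ 2 := by positivity
  have hwe : w * ε ≤ ε := by
    have := mul_le_mul_of_nonneg_right hw1 hε.le
    linarith
  have hwe0 : 0 ≤ w * ε := by positivity
  have hQ1 : Q ≤ M + 10 * ε := by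
    rw [hQ, hS1, hM]
    obtain ⟨a1, a2⟩ := abs_le.1 m0
    obtain ⟨a3, a4⟩ := abs_le.1 m2
    obtain ⟨a5, a6⟩ := abs_le.1 m3
    have b1 : w * A * (s0 - L) ≤ 2 / 5 * ε := by
      calc w * A * (s0 - L) ≤ w * A * ε := mul_le_mul_of_nonneg_left (by linarith) hwA0
        _ ≤ 2 / 5 * ε := mul_le_mul_of_nonneg_right hwA hε.le
    have b2 : w * ε * s0 ≤ 4 * ε := by
      have : s0 ≤ 4 := by linarith
      calc w * ε * s0 ≤ w * ε * 4 := mul_le_mul_of_nonneg_left this hwe0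
        _ ≤ 4 * ε := by linarith
    have b3 : c * A ^ 2 * (L - s0) ≤ 4 / 25 * ε := by
      calc c * A ^ 2 * (L - s0) ≤ c * A ^ 2 * ε := mul_le_mul_of_nonneg_left (by linarith) hcAA0
        _ ≤ 4 / 25 * ε := mul_le_mul_of_nonneg_right hcAA hε.le
    have b4 : 2 * (c * A) * (s1 - (U - h)) ≤ 4 / 5 * ε := by
      calc 2 * (c * A) * (s1 - (U - h)) ≤ 2 * (c * A) * ε := mul_le_mul_of_nonneg_left (by linarith) (by positivity)
        _ ≤ 4 / 5 * ε := by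
          have := mul_le_mul_of_nonneg_right hcA hε.le
          linarith
    have b5 : w * ((U - h) - s1) ≤ ε := by
      calc w * ((U - h) - s1) ≤ w * ε := mul_le_mul_of_nonneg_left (by linarith) hw0
        _ ≤ ε := hwe
    have b6 : c * ((U ^ 2 - h ^ 2) / 2 - s2) ≤ ε := by
      calc c * ((U ^ 2 - h ^ 2) / 2 - s2) ≤ c * ε := mul_le_mul_of_nonneg_left (by linarith) hc0
        _ ≤ ε := by
          have := mul_le_mul_of_nonneg_right hc1 hε.le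
          linarith
    have e : (w * (A + ε) - c * A ^ 2) * s0 + (2 * c * A - w) * s1 - c * s2 =
        w * (A * L - (U - h)) - c * (A ^ 2 * L - 2 * A * (U - h) + (U ^ 2 - h ^ 2) / 2) + w * A * (s0 - L) + w * ε * s0 +
        c * A ^ 2 * (L - s0) + 2 * (c * A) * (s1 - (U - h)) + w * ((U - h) - s1) + c * ((U ^ 2 - h ^ 2) / 2 - s2) := by ring
    rw [e]
    linarith
  have hM2 : M ≤ 2 := by
    rw [hM]
    have b1 : w * A * L ≤ 2 / 5 * 3 := mul_le_mul hwA hL3 hL0 (by norm_num)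
    have b2 : 0 ≤ w * (U - h) := mul_nonneg hw0 (by linarith)
    have b3 : 0 ≤ c * A ^ 2 * L := mul_nonneg hcAA0 hL0
    have b4 : 2 * (c * A) * (U - h) ≤ 2 * (2 / 5) * (2 / 5) := by
      refine mul_le_mul (by linarith) (by linarith) (by linarith) (by norm_num)
    have b5 : 0 ≤ c * (U ^ 2 - h ^ 2) := mul_nonneg hc0 (sub_nonneg.2 (pow_le_pow_left₀ hh0.le hhU 2))
    have e : w * (A * L - (U - h)) - c * (A ^ 2 * L - 2 * A * (U - h) + (U ^ 2 - h ^ 2) / 2) =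
        w * A * L - w * (U - h) - c * A ^ 2 * L + 2 * (c * A) * (U - h) - c * (U ^ 2 - h ^ 2) / 2 := by ring
    rw [e]
    linarith
  have h6 : (∑ p ∈ PI T a b, 1 / (p : ℝ)) * Q ≤ L1 * M + 1000 * ε := by
    rw [hS0]
    obtain ⟨a1, a2⟩ := abs_le.1 n0
    have e1 : SP T 0 a b * Q ≤ (L1 + ε) * (M + 10 * ε) :=
      mul_le_mul (by linarith) hQ1 hQ0 (by linarith)
    have e2 : ε * M ≤ ε * 2 := mul_le_mul_of_nonneg_left hM2 hε.le
    have e3 : L1 * ε ≤ 4 * ε := mul_le_mul_of_nonneg_right hL14 hε.le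
    have e4 : ε * ε ≤ ε * 1 := mul_le_mul_of_nonneg_left (by linarith) hε.le
    have e5 : (L1 + ε) * (M + 10 * ε) = L1 * M + 10 * (L1 * ε) + ε * M + 10 * (ε * ε) := by ring
    rw [e5] at e1
    linarith
  rw [← hQ] at h5
  calc ∑ n ∈ RC N T s a b h U, g n ≤ _ := h1
    _ ≤ _ := h2
    _ ≤ v * ∑ d ∈ D, (w * (s - yy T d + ε) - c * (s - yy T d) ^ 2) / d := h3
    _ ≤ v * (L1 * M + 1000 * ε) := mul_le_mul_of_nonneg_left (h4.trans (h5.trans h6)) hv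

end Pool.Agent.Helper57.PR
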