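import Pool.Agent.Helper57.PR.S5
import Pool.Agent.Helper57.PR.S6
import Pool.Agent.Helper57.PR.S3
import Pool.Agent.Helper57.PR.Cov
import Pool.Agent.Helper57.PR.Cell

/-!
# PR: bounds of the classes with the weight
-/

open MeasureTheory Set Filter Topology
open Pool.Agent.Helper57.Zeta Pool.Agent.Helper57.PC Pool.Agent.Helper57.LH Pool.Agent.Helper78.SG
open Pool.Agent.Helper4.SH
open Pool.Agent.Helper69.PP

namespace Pool.Agent.Helper57.PR

theorem cc_cast : ((cc : ℚ) : ℝ) = 103 / 200 := by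
  unfold cc
  norm_num

theorem la_cast : ((la : ℚ) : ℝ) = 232142 / 1000000 := by
  unfold la
  norm_num

theorem w0_cast : ((w0 : ℚ) : ℝ) = 2826005 / 10000000 := by
  unfold w0 cc ss la
  norm_num

theorem kl_cast : ((kl : ℚ) : ℝ) = 2246828 / 10000000 := by
  unfold kl
  norm_num

theorem hh_cast : ((hh : ℚ) : ℝ) = 294073 / 10000000 := by
  unfold hh
  norm_num

theorem kl_le : (2246828 : ℝ) / 10000000 ≤ Real.pi ^ 2 * (103 / 200) ^ 3 / 6 := by
  have h1 := Real.pi_gt_d6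
  have h2 : (3.141592 : ℝ) ^ 2 ≤ Real.pi ^ 2 := pow_le_pow_left₀ (by norm_num) h1.le 2
  norm_num at h2 ⊢
  linarith

theorem hh_ge : Real.pi ^ 4 * (103 / 200) ^ 5 / 120 ≤ (294073 : ℝ) / 10000000 := by
  have h1 := Real.pi_lt_d6
  have h2 : Real.pi ^ 4 ≤ (3.141593 : ℝ) ^ 4 := pow_le_pow_left₀ Real.pi_pos.le h1.le 4
  norm_num at h2 ⊢
  linarith

/-- the weight with rational constants -/
theorem Wn_num {T : ℝ} (hT : 1 < T) {n : ℕ} (hn : n ≠ 0) {S : Finset ℕ} (hS : S ⊆ n.primeFactors) :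
    Wn (103 / 200) T n ≤ 2 * (103 / 200) * yy T n - ∑ p ∈ S, (2 * (2246828 / 10000000) * yy T p ^ 3 -
      2 * (294073 / 10000000) * yy T p ^ 5) := by
  have h := Wn_up (c := 103 / 200) (by norm_num) hT hn hS
  have h2 : ∑ p ∈ S, (2 * (2246828 / 10000000) * yy T p ^ 3 - 2 * (294073 / 10000000) * yy T p ^ 5) ≤
      ∑ p ∈ S, (2 * (Real.pi ^ 2 * (103 / 200) ^ 3 / 6) * yy T p ^ 3 - 2 * (Real.pi ^ 4 * (103 / 200) ^ 5 / 120) * yy T p ^ 5) := by
    apply Finset.sum_le_sum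
    intro p _
    have hy := yy_nonneg' hT p
    have h3 := mul_le_mul_of_nonneg_right kl_le (pow_nonneg hy 3)
    have h4 := mul_le_mul_of_nonneg_right hh_ge (pow_nonneg hy 5)
    linarith
  linarith

/-- the deficit is increasing -/
theorem dl_mono {x y : ℝ} (hx : 0 ≤ x) (hxy : x ≤ y) (hy : y ≤ 1 / 2) :
    2 * (2246828 / 10000000) * x ^ 3 - 2 * (294073 / 10000000) * x ^ 5 ≤
      2 * (2246828 / 10000000) * y ^ 3 - 2 * (294073 / 10000000 : ℝ) * y ^ 5 := by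
  have h1 : y ^ 5 - x ^ 5 ≤ (5 / 4) * (y ^ 3 - x ^ 3) := by
    -- `y⁵ - x⁵ = y³ (y² - x²) + x² (y³ - x³)`
    have hy0 : 0 ≤ y := hx.trans hxy
    have h2 : 0 ≤ y ^ 3 - x ^ 3 := by
      have := pow_le_pow_left₀ hx hxy 3
      linarith
    have h3 : x ^ 2 ≤ 1 / 4 := by nlinarith
    have h4 : y ^ 2 ≤ 1 / 4 := by nlinarith
    have h5 : y ^ 3 * (y ^ 2 - x ^ 2) ≤ y ^ 3 - x ^ 3 := by
      have e1 : y ^ 3 * (y ^ 2 - x ^ 2) = (y - x) * (y ^ 3 * (y + x)) := by ring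
      have e2 : y ^ 3 - x ^ 3 = (y - x) * (y ^ 2 + y * x + x ^ 2) := by ring
      rw [e1, e2]
      apply mul_le_mul_of_nonneg_left _ (by linarith)
      have e3 : y ^ 3 * (y + x) = y ^ 2 * (y ^ 2 + y * x) := by ring
      rw [e3]
      have e4 : 0 ≤ y ^ 2 + y * x := by positivity
      have e5 : y ^ 2 * (y ^ 2 + y * x) ≤ 1 * (y ^ 2 + y * x) := mul_le_mul_of_nonneg_right (by linarith) e4
      nlinarith [sq_nonneg x]
    have h6 : x ^ 2 * (y ^ 3 - x ^ 3) ≤ 1 / 4 * (y ^ 3 - x ^ 3) := mul_le_mul_of_nonneg_right h3 h2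
    have h7 : y ^ 5 - x ^ 5 = y ^ 3 * (y ^ 2 - x ^ 2) + x ^ 2 * (y ^ 3 - x ^ 3) := by ring
    rw [h7]
    linarith
  have h2 : 0 ≤ y ^ 3 - x ^ 3 := by
    have := pow_le_pow_left₀ hx hxy 3
    linarith
  nlinarith

/-- the summand -/
noncomputable def gg (T : ℝ) (n : ℕ) : ℝ := max (Wn (103 / 200) T n - 232142 / 1000000) 0 / n

theorem gg_nonneg (T : ℝ) (n : ℕ) : 0 ≤ gg T n := div_nonneg (le_max_right _ _) (Nat.cast_nonneg n)

theorem gg_le {T B : ℝ} {n : ℕ} (h1 : Wn (103 / 200) T n - 232142 / 1000000 ≤ B) (h2 : 0 ≤ B) : gg T n ≤ B / n :=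
  div_le_div_of_nonneg_right (max_le h1 h2) (Nat.cast_nonneg n)

/-- class J -/
theorem boundJ' {N : ℕ} {T v ε : ℝ} (hT : 1 < T) (hv : 0 ≤ v) (hε : 0 < ε) (hε1 : ε ≤ 1 / 1000)
    (hfl : FL N T v ε) (hm : MT T (1 / 4000) ε) :
    ∑ n ∈ JC N T ((ss : ℚ) : ℝ) (1 / 3 - 1 / 100000), gg T n ≤ v * (7110 / 1000000 + 1000 * ε) := by
  have hss := ss_cast'
  have h := boundJ (N := N) (T := T) (v := v) (ε := ε) (s := ((ss : ℚ) : ℝ)) (a := 1 / 3 - 1 / 100000) (c := 103 / 200)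
    (lam := 232142 / 1000000) (k := 2246828 / 10000000) (h := 294073 / 10000000) hT hv hε hε1 hfl hm (by norm_num)
    (by rw [hss]; norm_num) (by rw [hss]; norm_num) (by norm_num) (by norm_num) (by norm_num) (by norm_num) (by norm_num)
    (by norm_num) (by norm_num) (by norm_num) ?_ (gg T) (gg_nonneg T) ?_
  · refine h.trans ?_
    apply mul_le_mul_of_nonneg_left _ hv
    have hJV : JV ((ss : ℚ) : ℝ) (1 / 3 - 1 / 100000) (103 / 200) (232142 / 1000000) (2246828 / 10000000) (294073 / 10000000) ≤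
        7110 / 1000000 := by
      unfold JV
      rw [hss]
      have hl := log_up57 (z := 1999 / 4000 / (1 / 3 - 1 / 100000)) (by norm_num)
      norm_num at hl ⊢
      linarith
    linarith
  · intro y hy
    rw [hss] at hy ⊢
    have hy1 := hy.1
    have hy2 := hy.2
    have h1 : y ^ 3 ≤ (1 / 2) ^ 3 := pow_le_pow_left₀ (by linarith) (by linarith) 3
    have h2 : 0 ≤ y ^ 5 := pow_nonneg (by linarith) 5
    norm_num at h1 ⊢
    linarith
  · intro p m hp hpa hps hm'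
    have hm0 := ((mem_RN_yy hT).1 hm').1
    have hpm : p * m ≠ 0 := Nat.mul_ne_zero hp.ne_zero hm0
    have h1 := Wn_num hT hpm (S := {p}) (by
      rw [Finset.singleton_subset_iff, Nat.mem_primeFactors]
      exact ⟨hp, dvd_mul_right p m, hpm⟩)
    rw [Finset.sum_singleton] at h1
    apply gg_le
    · linarith
    · have h2 : yy T p ≤ yy T (p * m) := yy_dvd' hT (dvd_mul_right p m) hpm
      rw [hss] at hps
      have h3 : yy T p ^ 3 ≤ (1 / 2) ^ 3 := pow_le_pow_left₀ (by linarith) (by linarith) 3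
      have h4 : 0 ≤ yy T p ^ 5 := pow_nonneg (by linarith) 5
      norm_num at h3
      linarith

/-- one box of class R -/
theorem box_bound {N : ℕ} {T v ε : ℝ} {a b h U w : ℚ} (hT : 1 < T) (hv : 0 ≤ v) (hε : 0 < ε) (hε1 : ε ≤ 1 / 1000)
    (hfl : FL N T v ε) (hm : MT T (1 / 4000) ε) (hc : chkR a b h U w = true)
    (g : ℕ → ℝ) (hg0 : ∀ n, 0 ≤ g n) (hg : ∀ n ∈ RC N T (ss : ℝ) a b h U, g n ≤ ((w : ℝ) - 2 * (103 / 200) * ((ss : ℝ) - yy T n)) / n) :
    ∑ n ∈ RC N T (ss : ℝ) a b h U, g n ≤ v * ((bq a b h U w : ℝ) + 1000 * ε) := by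
  unfold chkR at hc
  rw [decide_eq_true_eq] at hc
  obtain ⟨c1, c2, c3, c4, c5, c6, c7, c8, c9, c11, c10⟩ := hc
  have hss := ss_cast'
  have hcc := cc_cast
  have ha0 : 0 < a := by linarith
  have hh0 : 0 < h := by linarith
  have d1 : (1 : ℝ) / 10 ≤ a := by
    have : ((1 / 10 : ℚ) : ℝ) ≤ a := by exact_mod_cast c1
    push_cast at this
    exact this
  have d2 : (a : ℝ) ≤ b := by exact_mod_cast c2
  have d3 : (b : ℝ) ≤ 1 / 2 := by
    have : (b : ℝ) ≤ ((1 / 2 : ℚ) : ℝ) := by exact_mod_cast c3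
    push_cast at this
    exact this
  have d4 : (1 : ℝ) / 10 ≤ h := by
    have : ((1 / 10 : ℚ) : ℝ) ≤ h := by exact_mod_cast c4
    push_cast at this
    exact this
  have d5 : (h : ℝ) ≤ U := by exact_mod_cast c5
  have d6 : (U : ℝ) ≤ (ss : ℝ) - a := by
    have : (U : ℝ) ≤ ((ss - a : ℚ) : ℝ) := by exact_mod_cast c6
    push_cast at this
    exact this
  have d7 : (0 : ℝ) ≤ w := by exact_mod_cast c7
  have d8 : (w : ℝ) ≤ 1 := by exact_mod_cast c8
  have d9 : 2 * (103 / 200) * ((ss : ℝ) - a - h) ≤ w := by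
    have : ((2 * cc * (ss - a - h) : ℚ) : ℝ) ≤ w := by exact_mod_cast c9
    push_cast at this
    rw [hcc] at this
    exact this
  have d11 : 103 / 200 * ((ss : ℝ) - a) ≤ w := by
    have : ((cc * (ss - a) : ℚ) : ℝ) ≤ w := by exact_mod_cast c11
    push_cast at this
    rw [hcc] at this
    exact this
  have d10 : (0 : ℝ) ≤ (xq a h U w : ℝ) := by exact_mod_cast c10
  have hb := boundR (N := N) (T := T) (v := v) (ε := ε) (s := (ss : ℝ)) (a := (a : ℝ)) (b := (b : ℝ)) (h := (h : ℝ))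
    (U := (U : ℝ)) (w := (w : ℝ)) (c := 103 / 200) hT hv hε hε1 hfl hm d1 d2 d3 d4 d5 d6 (by rw [hss]; norm_num) (by norm_num)
    (by norm_num) d7 d8 d9 g hg0 hg
  refine hb.trans ?_
  apply mul_le_mul_of_nonneg_left _ hv
  have l1 := lu_spec (z := b / a) ((one_le_div ha0).2 c2)
  have l2 := lu_spec (z := U / h) ((one_le_div hh0).2 c5)
  push_cast at l1 l2
  have l0 : 0 ≤ Real.log ((b : ℝ) / a) := Real.log_nonneg ((one_le_div (by linarith)).2 d2)
  have hx : (w : ℝ) * (((ss : ℝ) - a) * Real.log ((U : ℝ) / h) - (U - h)) -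
      103 / 200 * (((ss : ℝ) - a) ^ 2 * Real.log ((U : ℝ) / h) - 2 * ((ss : ℝ) - a) * (U - h) + ((U : ℝ) ^ 2 - (h : ℝ) ^ 2) / 2) ≤
      (xq a h U w : ℝ) := by
    unfold xq
    push_cast
    rw [hcc]
    obtain ⟨L, hL⟩ : ∃ L, L = Real.log ((U : ℝ) / h) := ⟨_, rfl⟩
    rw [← hL] at l2 ⊢
    have e1 : 0 ≤ ((ss : ℝ) - a) * ((w : ℝ) - 103 / 200 * ((ss : ℝ) - a)) := by
      apply mul_nonneg (by linarith)
      linarith
    have e2 := mul_le_mul_of_nonneg_left l2 e1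
    linarith
  have hbq : ((bq a b h U w : ℚ) : ℝ) = (lu (b / a) : ℝ) * (xq a h U w : ℝ) := by
    unfold bq
    push_cast
    rfl
  rw [hbq]
  have e3 := mul_le_mul_of_nonneg_left hx l0
  have e4 := mul_le_mul_of_nonneg_right l1 d10
  linarith

end Pool.Agent.Helper57.PR
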