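import Pool.Agent.Helper57.PR.Box

/-!
# PR: the sums over the classes
-/

open MeasureTheory Set Filter Topology
open Pool.Agent.Helper57.Zeta Pool.Agent.Helper57.PC Pool.Agent.Helper57.LH Pool.Agent.Helper78.SG
open Pool.Agent.Helper4.SH
open Pool.Agent.Helper69.PP

namespace Pool.Agent.Helper57.PR

/-- a sum of rational bounds -/
theorem sum_up (f : ℕ → ℚ) (k : ℕ) : ∑ i ∈ Finset.range k, (f i : ℝ) ≤ ((sumZ (fun i => up (f i)) k : ℤ) : ℝ) / 1000000000000 := by
  rw [sumZ_eq]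
  push_cast
  rw [Finset.sum_div]
  apply Finset.sum_le_sum
  intro i _
  have h := up_spec (f i)
  have h2 : ((f i : ℚ) : ℝ) ≤ (((up (f i) : ℚ) / 1000000000000 : ℚ) : ℝ) := by exact_mod_cast h
  push_cast at h2
  exact h2

theorem w1_cast : ((w1 : ℚ) : ℝ) = 2826005 / 10000000 - 2 * (2 * (2246828 / 10000000) * (1 / 5 - 1 / 100000) ^ 3 -
    2 * (294073 / 10000000) * (1 / 5 - 1 / 100000) ^ 5) := by
  unfold w1 dl
  push_cast
  rw [w0_cast, kl_cast, hh_cast, ee_cast]
  norm_num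

theorem w2_cast : ((w2 : ℚ) : ℝ) = 2826005 / 10000000 - (2 * (2246828 / 10000000) * (1 / 4 - 1 / 100000) ^ 3 -
    2 * (294073 / 10000000) * (1 / 4 - 1 / 100000) ^ 5) := by
  unfold w2 dl
  push_cast
  rw [w0_cast, kl_cast, hh_cast, ee_cast]
  norm_num

/-- two primes: sizes -/
theorem RC_mem {N : ℕ} {T s a b h U : ℝ} (hT : 1 < T) {n : ℕ} (hn : n ∈ RC N T s a b h U) :
    n ≠ 0 ∧ yy T n ≤ s ∧ ∃ p ∈ n.primeFactors, ∃ p' ∈ n.primeFactors, p ≠ p' ∧ a < yy T p ∧ yy T p ≤ b ∧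
      h < yy T p' ∧ yy T p' ≤ U ∧ yy T p + yy T p' ≤ yy T n := by
  classical
  unfold RC at hn
  rw [Finset.mem_filter] at hn
  obtain ⟨h1, p, hp, p', hp', hne, h2, h3, h4, h5⟩ := hn
  obtain ⟨h6, h7, _⟩ := (mem_RN_yy hT).1 h1
  refine ⟨h6, h7, p, hp, p', hp', hne, h2, h3, h4, h5, ?_⟩
  have hp0 := Nat.prime_of_mem_primeFactors hp
  have hp0' := Nat.prime_of_mem_primeFactors hp'
  rw [← yy_mul' hT hp0.ne_zero hp0'.ne_zero]
  exact yy_dvd' hT (Nat.Coprime.mul_dvd_of_dvd_of_dvd ((Nat.coprime_primes hp0 hp0').2 hne)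
    (Nat.dvd_of_mem_primeFactors hp) (Nat.dvd_of_mem_primeFactors hp')) h6

/-- class R1 -/
theorem sum_R1 {N : ℕ} {T v ε : ℝ} (hT : 1 < T) (hv : 0 ≤ v) (hε : 0 < ε) (hε1 : ε ≤ 1 / 1000)
    (hfl : FL N T v ε) (hm : MT T (1 / 4000) ε) :
    ∑ i ∈ Finset.range 30, ∑ n ∈ RC N T (ss : ℝ) (r1 i : ℚ) (r1 (i + 1) : ℚ) (h1 : ℚ) (U1 i : ℚ), gg T n ≤
      v * (4521 / 10000000 + 30000 * ε) := by
  have hss := ss_cast'
  calc ∑ i ∈ Finset.range 30, ∑ n ∈ RC N T (ss : ℝ) (r1 i : ℚ) (r1 (i + 1) : ℚ) (h1 : ℚ) (U1 i : ℚ), gg T n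
      ≤ ∑ i ∈ Finset.range 30, v * ((box1 i : ℝ) + 1000 * ε) := by
        apply Finset.sum_le_sum
        intro i hi
        rw [Finset.mem_range] at hi
        apply box_bound hT hv hε hε1 hfl hm (cert_c1 i hi) (gg T) (gg_nonneg T)
        intro n hn
        obtain ⟨hn0, hns, p, hp, p', hp', hne, h2, h3, h4, h5, h6⟩ := RC_mem hT hn
        have hr1 : (1 : ℝ) / 5 - 1 / 100000 ≤ ((r1 i : ℚ) : ℝ) := by
          rw [r1_cast]
          have : (0 : ℝ) ≤ (i : ℝ) * ((1999 / 4000 - 2 * (1 / 5 - 1 / 100000)) / 30) := by positivity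
          linarith
        rw [h1_cast] at h4
        rw [hss] at hns
        have hp3 : yy T p ≤ 1 / 2 := by linarith [yy_nonneg' hT p']
        have hp3' : yy T p' ≤ 1 / 2 := by linarith [yy_nonneg' hT p]
        have e1 := Wn_num hT hn0 (S := {p, p'}) (by
          intro x hx
          rw [Finset.mem_insert, Finset.mem_singleton] at hx
          rcases hx with rfl | rfl
          · exact hp
          · exact hp')
        rw [Finset.sum_pair hne] at e1
        have e2 := dl_mono (x := 1 / 5 - 1 / 100000) (y := yy T p) (by norm_num) (by linarith) hp3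
        have e3 := dl_mono (x := 1 / 5 - 1 / 100000) (y := yy T p') (by norm_num) h4.le hp3'
        rw [w1_cast, hss]
        apply gg_le
        · linarith
        · norm_num
          linarith
    _ = v * (∑ i ∈ Finset.range 30, (box1 i : ℝ) + 30000 * ε) := by
        rw [← Finset.mul_sum, Finset.sum_add_distrib, Finset.sum_const, Finset.card_range]
        ring
    _ ≤ _ := by
        apply mul_le_mul_of_nonneg_left _ hv
        have h1 := sum_up box1 30
        have h2 : ((sumZ (fun i => up (box1 i)) 30 : ℤ) : ℝ) ≤ 452100000 := by exact_mod_cast cert_1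
        linarith

/-- class R2 -/
theorem sum_R2 {N : ℕ} {T v ε : ℝ} (hT : 1 < T) (hv : 0 ≤ v) (hε : 0 < ε) (hε1 : ε ≤ 1 / 1000)
    (hfl : FL N T v ε) (hm : MT T (1 / 4000) ε) :
    ∑ i ∈ Finset.range 30, ∑ n ∈ RC N T (ss : ℝ) (r2 i : ℚ) (r2 (i + 1) : ℚ) (h2 i : ℚ) (U2 i : ℚ), gg T n ≤
      v * (448 / 1000000 + 30000 * ε) := by
  have hss := ss_cast'
  calc ∑ i ∈ Finset.range 30, ∑ n ∈ RC N T (ss : ℝ) (r2 i : ℚ) (r2 (i + 1) : ℚ) (h2 i : ℚ) (U2 i : ℚ), gg T n
      ≤ ∑ i ∈ Finset.range 30, v * ((box2 i : ℝ) + 1000 * ε) := by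
        apply Finset.sum_le_sum
        intro i hi
        rw [Finset.mem_range] at hi
        apply box_bound hT hv hε hε1 hfl hm (cert_c2 i hi) (gg T) (gg_nonneg T)
        intro n hn
        obtain ⟨hn0, hns, p, hp, p', hp', hne, h2, h3, h4, h5, h6⟩ := RC_mem hT hn
        have hr1 : (4 : ℝ) / 15 - 1 / 100000 ≤ ((r2 i : ℚ) : ℝ) := by
          rw [r2_cast]
          have : (0 : ℝ) ≤ (i : ℝ) * (1 / 450) := by positivity
          linarith
        have hr2 : (1 : ℝ) / 7 - 1 / 100000 ≤ ((Pool.Agent.Helper57.PR.h2 i : ℚ) : ℝ) := by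
          unfold Pool.Agent.Helper57.PR.h2
          rw [qmax_eq, Rat.cast_max]
          apply le_max_of_le_left
          push_cast
          rw [ee_cast]
        rw [hss] at hns
        have hp3 : yy T p ≤ 1 / 2 := by linarith [yy_nonneg' hT p']
        have e1 := Wn_num hT hn0 (S := {p}) (by
          intro x hx
          rw [Finset.mem_singleton] at hx
          subst hx
          exact hp)
        rw [Finset.sum_singleton] at e1
        have e2 := dl_mono (x := 1 / 4 - 1 / 100000) (y := yy T p) (by norm_num) (by linarith) hp3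
        rw [w2_cast, hss]
        apply gg_le
        · linarith
        · norm_num
          linarith
    _ = v * (∑ i ∈ Finset.range 30, (box2 i : ℝ) + 30000 * ε) := by
        rw [← Finset.mul_sum, Finset.sum_add_distrib, Finset.sum_const, Finset.card_range]
        ring
    _ ≤ _ := by
        apply mul_le_mul_of_nonneg_left _ hv
        have h1 := sum_up box2 30
        have h2 : ((sumZ (fun i => up (box2 i)) 30 : ℤ) : ℝ) ≤ 448000000 := by exact_mod_cast cert_2
        linarith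

/-- class T -/
theorem sum_T {N : ℕ} {T v ε : ℝ} (hT : 1 < T) (hv : 0 < v) (hε : 0 < ε) (hε1 : ε ≤ 1 / 10 ^ 7)
    (hfl : FL N T v ε) (hm : MT T (1 / 4000) ε) :
    ∑ i ∈ Finset.range 40, ∑ j ∈ Finset.range 4,
      ∑ n ∈ TC N T (ss : ℝ) (tA i : ℚ) (tB i : ℚ) ((j : ℝ) / 8) (((j : ℝ) + 1) / 8), gg T n ≤
      v * (2087 / 1000000 + 10 ^ 14 * ε) := by
  have hss := ss_cast'
  have hone : ∀ i < 40, ∀ j : ℕ, j < 4 → ∑ n ∈ TC N T (ss : ℝ) (tA i : ℚ) (tB i : ℚ) ((j : ℝ) / 8) (((j : ℝ) + 1) / 8), gg T n ≤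
      v * ((cellQ i j : ℝ) + 10 ^ 11 * ε) := by
    intro i hi j hj
    have hc := cert_cT i hi j hj
    unfold chkT at hc
    rw [decide_eq_true_eq] at hc
    obtain ⟨c1, c2, c3, c4, c5, c6, c7, c8⟩ := hc
    have hj1 : (((j : ℕ) / 8 : ℚ) : ℝ) = (j : ℝ) / 8 := by push_cast; ring
    have hsub : TC N T (ss : ℝ) (tA i : ℚ) (tB i : ℚ) ((j : ℝ) / 8) (((j : ℝ) + 1) / 8) ⊆
        TC N T (ss : ℝ) (tA i : ℚ) (tB i : ℚ) ((((j : ℕ) / 8 : ℚ)) : ℝ) ((tt i j : ℚ) : ℝ) := by
      rw [hj1]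
      have ha0 : 0 < tA i := by linarith
      by_cases hcase : (3 + ((j : ℚ) + 1) / 8) * tA i ≤ ss
      · have h1 : tt i j = ((j : ℚ) + 1) / 8 := by
          unfold tt
          simp only
          rw [if_pos hcase]
        rw [h1]
        push_cast
        exact Finset.Subset.refl _
      · have h1 : tt i j = qmax ((j : ℚ) / 8) ((ss - 3 * tA i) / tA i) := by
          unfold tt
          simp only
          rw [if_neg hcase]
        have h2 : (ss - 3 * tA i) / tA i ≤ tt i j := by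
          rw [h1, qmax_eq]
          exact le_max_right _ _
        rw [div_le_iff₀ ha0] at h2
        apply TC_sub hT
        · have : (0 : ℚ) ≤ tt i j := c4.trans c5
          exact_mod_cast this
        · have h3 : ss ≤ (3 + tt i j) * tA i := by linarith
          have h4 : ((ss : ℚ) : ℝ) ≤ (((3 + tt i j) * tA i : ℚ) : ℝ) := by exact_mod_cast h3
          push_cast at h4
          exact h4
    refine (Finset.sum_le_sum_of_subset_of_nonneg hsub fun n _ _ => gg_nonneg T n).trans ?_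
    apply cell_bound hT hv hε hε1 hfl hm c1 c2 c3 c4 c5 c6 c7 c8 (gg T) (gg_nonneg T)
    intro n hn
    classical
    unfold TC at hn
    rw [Finset.mem_filter] at hn
    obtain ⟨h1, q, hq, haq, hqb, d, r, hnd, hd, hcard, hp, h3, h4⟩ := hn
    obtain ⟨hn0, hns, _⟩ := (mem_RN_yy hT).1 h1
    have e1 := Wn_num hT hn0 (S := ∅) (Finset.empty_subset _)
    rw [Finset.sum_empty] at e1
    have hq0 := Nat.prime_of_mem_primeFactors hq
    have h5 : yy T q + yy T d ≤ yy T n := by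
      rw [← yy_mul' hT hq0.ne_zero hd.ne_zero]
      exact yy_dvd' hT ⟨r, hnd⟩ hn0
    have h6 : ((tt i j : ℚ) : ℝ) * yy T q ≤ 1 / 2 * (1 / 6) := by
      have a1 : ((tt i j : ℚ) : ℝ) ≤ 1 / 2 := by
        have : ((tt i j : ℚ) : ℝ) ≤ ((1 / 2 : ℚ) : ℝ) := by exact_mod_cast c6
        push_cast at this
        exact this
      have a2 : yy T q ≤ 1 / 6 := by
        have : ((tB i : ℚ) : ℝ) ≤ ((1 / 6 : ℚ) : ℝ) := by exact_mod_cast c3
        push_cast at this
        linarith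
      exact mul_le_mul a1 a2 (yy_nonneg' hT q) (by norm_num)
    rw [hss] at h3 h4
    rw [w0_cast, cc_cast, hss]
    apply gg_le
    · linarith
    · linarith
  calc ∑ i ∈ Finset.range 40, ∑ j ∈ Finset.range 4,
        ∑ n ∈ TC N T (ss : ℝ) (tA i : ℚ) (tB i : ℚ) ((j : ℝ) / 8) (((j : ℝ) + 1) / 8), gg T n
      ≤ ∑ i ∈ Finset.range 40, ∑ j ∈ Finset.range 4, v * ((cellQ i j : ℝ) + 10 ^ 11 * ε) := by
        apply Finset.sum_le_sum
        intro i hi
        apply Finset.sum_le_sum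
        intro j hj
        exact hone i (Finset.mem_range.1 hi) j (Finset.mem_range.1 hj)
    _ = v * (∑ i ∈ Finset.range 40, ∑ j ∈ Finset.range 4, (cellQ i j : ℝ) + 160 * 10 ^ 11 * ε) := by
        simp only [mul_add, Finset.sum_add_distrib, ← Finset.mul_sum, Finset.sum_const, Finset.card_range]
        ring
    _ ≤ _ := by
        apply mul_le_mul_of_nonneg_left _ hv.le
        have h1 : ∑ i ∈ Finset.range 40, ∑ j ∈ Finset.range 4, (cellQ i j : ℝ) ≤
            ((sumZ (fun i => sumZ (fun j => up (cellQ i j)) 4) 40 : ℤ) : ℝ) / 1000000000000 := by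
          rw [sumZ_eq]
          push_cast
          rw [Finset.sum_div]
          apply Finset.sum_le_sum
          intro i _
          exact sum_up (fun j => cellQ i j) 4
        have h2 : ((sumZ (fun i => sumZ (fun j => up (cellQ i j)) 4) 40 : ℤ) : ℝ) ≤ 2087000000 := by exact_mod_cast cert_T
        have h3 : 160 * 10 ^ 11 * ε ≤ 10 ^ 14 * ε := mul_le_mul_of_nonneg_right (by norm_num) hε.le
        linarith

/-- sizes near the end -/
theorem sum_S5 {N : ℕ} {T v ε : ℝ} (hT : 1 < T) (hv : 0 ≤ v) (hfl : FL N T v ε) :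
    ∑ n ∈ (RN N (T ^ ((ss : ℚ) : ℝ))) \ (RN N (T ^ (1999 / 4000 - 1 / 8000 : ℝ))), gg T n ≤
      v * (2826005 / 10000000 * (1 / 8000 + ε)) := by
  have hss := ss_cast'
  rw [hss]
  have hsub : RN N (T ^ (1999 / 4000 - 1 / 8000 : ℝ)) ⊆ RN N (T ^ (1999 / 4000 : ℝ)) := by
    intro n hn
    rw [mem_RN_yy hT] at hn ⊢
    exact ⟨hn.1, by linarith [hn.2.1], hn.2.2⟩
  have h1 : ∑ n ∈ (RN N (T ^ (1999 / 4000 : ℝ))) \ (RN N (T ^ (1999 / 4000 - 1 / 8000 : ℝ))), gg T n ≤
      2826005 / 10000000 * ∑ n ∈ (RN N (T ^ (1999 / 4000 : ℝ))) \ (RN N (T ^ (1999 / 4000 - 1 / 8000 : ℝ))), 1 / (n : ℝ) := by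
    rw [Finset.mul_sum]
    apply Finset.sum_le_sum
    intro n hn
    have hn' := (mem_RN_yy hT).1 (Finset.mem_sdiff.1 hn).1
    have e1 := Wn_num hT hn'.1 (S := ∅) (Finset.empty_subset _)
    rw [Finset.sum_empty] at e1
    have := gg_le (T := T) (n := n) (B := 2826005 / 10000000) (by linarith [hn'.2.1]) (by norm_num)
    rw [mul_one_div]
    exact this
  have h2 := Finset.sum_sdiff (f := fun n : ℕ => 1 / (n : ℝ)) hsub
  have h3 := (hfl (1999 / 4000) ⟨by norm_num, by norm_num⟩).2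
  have h4 := (hfl (1999 / 4000 - 1 / 8000) ⟨by norm_num, by norm_num⟩).1
  unfold RS at h3 h4
  refine h1.trans ?_
  have h5 : ∑ n ∈ (RN N (T ^ (1999 / 4000 : ℝ))) \ (RN N (T ^ (1999 / 4000 - 1 / 8000 : ℝ))), 1 / (n : ℝ) ≤ v * (1 / 8000 + ε) := by
    linarith
  have h6 := mul_le_mul_of_nonneg_left h5 (by norm_num : (0 : ℝ) ≤ 2826005 / 10000000)
  linarith

end Pool.Agent.Helper57.PR
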