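import Pool.Agent.Helper57.PR.Cls
import Pool.Agent.Helper69.PQ.A3a
import Pool.Agent.Helper69.PQ.A3c

/-!
# PR: the sum over the denominators, `c = 0.515`
-/

open MeasureTheory Set Filter Topology
open Pool.Agent.Helper57.Zeta Pool.Agent.Helper57.PC Pool.Agent.Helper57.LH Pool.Agent.Helper78.SG
open Pool.Agent.Helper4.SH
open Pool.Agent.Helper69
open Pool.Agent.Helper69.PP (Wn ce ty US)

namespace Pool.Agent.Helper57.PR

/-- a small slack in the sizes absorbs the rounding to cells -/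
theorem par_cell' (P : PQ.Par) : (P.K : ℝ) / P.G ≤ P.e / 4 ∧ 1 / (P.G : ℝ) ≤ P.e / 4 := by
  have hG : (0 : ℝ) < P.G := by exact_mod_cast P.hG0
  have h1 := P.hG
  have hK : (1 : ℝ) ≤ P.K := by
    unfold PQ.Par.K
    have h2 : (0 : ℝ) < 1 / P.δ := by
      have := P.hδ
      positivity
    exact_mod_cast Nat.ceil_pos.2 h2
  have h3 : (2 * (P.K : ℝ) + 2) / P.G ≤ P.e / 2 := h1
  rw [div_le_iff₀ hG] at h3
  constructor
  · rw [div_le_iff₀ hG]
    linarith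
  · rw [div_le_iff₀ hG]
    linarith

/-- number of prime factors -/
theorem card_le_K' {P : PQ.Par} {T : ℝ} (hT : 1 < T) {n : ℕ} (h : PQ.Gd P T n) : (n.primeFactors.card : ℝ) ≤ P.K := by
  obtain ⟨⟨hn0, hp⟩, hsq, _, hnT⟩ := h
  have hL : 0 < Real.log T := Real.log_pos hT
  have hT0 : 0 < T := by linarith
  have h1 : ((n.primeFactors.card : ℝ)) * (P.δ * Real.log T) ≤ Real.log T := by
    calc ((n.primeFactors.card : ℝ)) * (P.δ * Real.log T) = ∑ p ∈ n.primeFactors, P.δ * Real.log T := by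
          rw [Finset.sum_const, nsmul_eq_mul]
      _ ≤ ∑ p ∈ n.primeFactors, Real.log p := by
          apply Finset.sum_le_sum
          intro p hpn
          rw [← Real.log_rpow hT0]
          exact Real.log_le_log (Real.rpow_pos_of_pos hT0 _) (hp p hpn)
      _ = Real.log ((∏ p ∈ n.primeFactors, p : ℕ) : ℝ) := by
          push_cast
          rw [Real.log_prod]
          intro p hpn
          exact_mod_cast (Nat.prime_of_mem_primeFactors hpn).ne_zero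
      _ = Real.log n := by rw [Nat.prod_primeFactors_of_squarefree hsq]
      _ ≤ Real.log T := Real.log_le_log (by exact_mod_cast Nat.pos_of_ne_zero hn0) hnT
  have h2 : (n.primeFactors.card : ℝ) ≤ 1 / P.δ := by
    rw [le_div_iff₀ P.hδ]
    by_contra hcon
    push Not at hcon
    have := mul_lt_mul_of_pos_right hcon hL
    linarith
  exact h2.trans (Nat.le_ceil _)

/-- membership -/
theorem memNB' {P : PQ.Par} {T : ℝ} (hT : 1 < T) (hPe : P.e = 1 / 100000) {n : ℕ} (h : PQ.Gd P T n)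
    (h1 : ∀ p ∈ n.primeFactors, yy T p ≤ 1 / 3 - 1 / 100000)
    (h2 : ∀ p ∈ n.primeFactors, ∀ p' ∈ n.primeFactors, p' < p → yy T p' ≤ 1 / 7 - 1 / 100000 ∨
      (yy T p ≤ 1 / 4 - 1 / 100000 ∧ yy T p' ≤ 1 / 5 - 1 / 100000) ∨
      (3 * yy T p + yy T p' ≤ 1 - 2 * (1 / 100000) ∧ yy T p' ≤ 1 / 5 - 1 / 100000))
    (h3 : ∀ q ∈ n.primeFactors, (∃ p ∈ n.primeFactors, ∃ p' ∈ n.primeFactors, q < p' ∧ p' < p) →
      ∑ p ∈ n.primeFactors.filter (fun p => q ≤ p), yy T p + 2099 / 4200 * yy T q ≤ 2099 / 4200 - 1 / 100000) :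
    n ∈ PQ.NB P T := by
  rw [PQ.mem_NB]
  refine ⟨h, ?_⟩
  obtain ⟨hK, hG1⟩ := par_cell' P
  have hG : (0 : ℝ) < P.G := by exact_mod_cast P.hG0
  have hcard := card_le_K' hT h
  have hK' : (n.primeFactors.card : ℝ) / P.G ≤ 1 / 100000 / 4 := by
    rw [hPe] at hK
    exact (div_le_div_of_nonneg_right hcard hG.le).trans hK
  rw [hPe] at hG1
  have h4 := pack_of (G := P.G) (T := T) (e := 1 / 100000) P.hG0 hT (by norm_num) (by norm_num) h.2.2.1 hG1 hK' h1 h2 h3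
  unfold PQ.TB
  rw [hPe]
  exact h4

/-- the bad numbers are covered -/
theorem cover_bad {P : PQ.Par} {T : ℝ} (hT : 1 < T) (hPe : P.e = 1 / 100000) {N : ℕ} {n : ℕ}
    (hn : n ∈ PP.RN N (T ^ ((ss : ℚ) : ℝ))) (hg : PQ.Gd P T n) (hnB : n ∉ PQ.NB P T) :
    n ∈ JC N T ((ss : ℚ) : ℝ) (1 / 3 - 1 / 100000) ∨
    (∃ i < 30, n ∈ RC N T (ss : ℝ) (r1 i : ℚ) (r1 (i + 1) : ℚ) (h1 : ℚ) (U1 i : ℚ)) ∨
    (∃ i < 30, n ∈ RC N T (ss : ℝ) (r2 i : ℚ) (r2 (i + 1) : ℚ) (h2 i : ℚ) (U2 i : ℚ)) ∨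
    n ∈ (PP.RN N (T ^ ((ss : ℚ) : ℝ))) \ (PP.RN N (T ^ (1999 / 4000 - 1 / 8000 : ℝ))) ∨
    (∃ i < 40, ∃ j : ℕ, j < 4 ∧ n ∈ TC N T (ss : ℝ) (tA i : ℚ) (tB i : ℚ) ((j : ℝ) / 8) (((j : ℝ) + 1) / 8)) := by
  classical
  by_contra hcon
  push Not at hcon
  obtain ⟨c1, c2, c3, c4, c5⟩ := hcon
  apply hnB
  have hn' := (mem_RN_yy hT).1 hn
  have hJ : ∀ p ∈ n.primeFactors, yy T p ≤ 1 / 3 - 1 / 100000 := by
    intro p hp
    by_contra h
    push Not at h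
    apply c1
    unfold JC
    rw [Finset.mem_filter]
    exact ⟨hn, p, hp, h⟩
  have hS : yy T n ≤ 1999 / 4000 - 1 / 8000 := by
    by_contra h
    push Not at h
    apply c4
    rw [Finset.mem_sdiff]
    refine ⟨hn, fun h2 => ?_⟩
    have := ((mem_RN_yy hT).1 h2).2.1
    linarith
  exact memNB' hT hPe hg hJ (cov_pair hT hn hJ c2 c3) (cov_T hT hn hg.2.1 hJ hS c5)

/-- the sum over the denominators -/
theorem sumB2 (P : PQ.Par) (hPe : P.e = 1 / 100000) (hPc : P.c = 103 / 200) {ε : ℝ} (hε : 0 < ε) (hε1 : ε ≤ 1 / 10 ^ 20)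
    (hδ : P.δ ≤ ε) (hF : PQ.Flat P ε) (hC : PQ.Coll P ε) :
    ∀ᶠ T : ℝ in atTop, 1 / 10 ^ 5 ≤ ∑ n ∈ PQ.NB P T, (Wn P.c T n - 232142 / 1000000) / n := by
  classical
  have hss := ss_cast'
  have hRW := RW_ge2 P.hc P.hc1 P.hδ P.hδ1 hε hδ (θ := 1999 / 4000) (by norm_num) (by norm_num)
  have hmt := MT_ev (a := 1 / 4000) (by norm_num) hε
  filter_upwards [hF, hC, hRW, hmt, eventually_gt_atTop 1] with T hT1 hT2 hT3 hm hT
  obtain ⟨hv1, hv2, hfl'⟩ := hT1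
  have hL : 0 < Real.log T := Real.log_pos hT
  have hT0 : 0 < T := by linarith
  obtain ⟨N, hN⟩ : ∃ N, N = PQ.NS P T := ⟨_, rfl⟩
  obtain ⟨v, hv⟩ : ∃ v, v = PQ.vT P T := ⟨_, rfl⟩
  rw [← hv] at hv1 hv2
  have hfl : FL N T v ε := by
    rw [hN, hv]
    exact hfl'
  have hv0 : 0 < v := by linarith
  have hNdef : N = ⌈T ^ P.δ⌉₊ := by rw [hN]; rfl
  have hW := hT3 v hv1 hv2 (by rw [← hNdef]; exact hfl)
  rw [← hNdef] at hW
  rw [hPc] at hW ⊢
  have hε7 : ε ≤ 1 / 10 ^ 7 := hε1.trans (by norm_num)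
  have hε3 : ε ≤ 1 / 1000 := hε1.trans (by norm_num)
  -- the set up to `T^s`
  obtain ⟨R, hR⟩ : ∃ R, R = PP.RN N (T ^ ((ss : ℚ) : ℝ)) := ⟨_, rfl⟩
  have hR' : R = PP.RN N (T ^ (1999 / 4000 : ℝ)) := by rw [hR, hss]
  -- denominators outside `R`
  have hout : ∀ n ∈ PQ.NB P T, n ∉ R → 0 ≤ (Wn (103 / 200) T n - 232142 / 1000000) / n := by
    intro n hn hnR
    have hg := (PQ.mem_NB.1 hn).1
    have hn0 := hg.1.1
    have h1 : ¬ yy T n ≤ 1999 / 4000 := by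
      intro h
      apply hnR
      rw [hR']
      refine (mem_RN_yy hT).2 ⟨hn0, h, ?_⟩
      intro p hp
      rw [hNdef, Nat.ceil_le]
      exact hg.1.2 p hp
    push Not at h1
    have h2 := PQ.Wn_ge (c := 103 / 200) (b := 1 / 3) (by norm_num) hT hg.2.1 (fun p hp => PQ.NB_prime hT hn hp) (by norm_num)
    have h3 : (47 : ℝ) / 100 ≤ 103 / 200 - PQ.kap (103 / 200) * (1 / 3) ^ 2 := by
      have h4 : PQ.kap (103 / 200) ≤ 1 / 4 := by
        unfold PQ.kap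
        have h5 := Real.pi_lt_d4
        have h6 := Real.pi_pos
        have h7 : Real.pi ^ 2 ≤ 3.1416 ^ 2 := pow_le_pow_left₀ h6.le h5.le 2
        norm_num at h7 ⊢
        linarith
      linarith
    apply div_nonneg _ (Nat.cast_nonneg n)
    have h5 : 2 * (47 / 100) * (49 / 100) ≤ 2 * (103 / 200 - PQ.kap (103 / 200) * (1 / 3) ^ 2) * yy T n := by
      have h6 : (49 : ℝ) / 100 ≤ yy T n := by linarith
      calc 2 * (47 / 100) * (49 / 100 : ℝ) ≤ 2 * (103 / 200 - PQ.kap (103 / 200) * (1 / 3) ^ 2) * (49 / 100) := by linarith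
        _ ≤ _ := mul_le_mul_of_nonneg_left h6 (by linarith)
    linarith
  have hstep1 : ∑ n ∈ R.filter (fun n => n ∈ PQ.NB P T), (Wn (103 / 200) T n - 232142 / 1000000) / n ≤
      ∑ n ∈ PQ.NB P T, (Wn (103 / 200) T n - 232142 / 1000000) / n := by
    apply Finset.sum_le_sum_of_subset_of_nonneg
    · intro n hn
      exact (Finset.mem_filter.1 hn).2
    · intro n hn hn2
      apply hout n hn
      intro h
      exact hn2 (Finset.mem_filter.2 ⟨h, hn⟩)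
  have hstep2 := Finset.sum_filter_add_sum_filter_not R (fun n => n ∈ PQ.NB P T)
    (fun n => (Wn (103 / 200) T n - 232142 / 1000000) / n)
  -- the bad numbers
  obtain ⟨B, hB⟩ : ∃ B, B = R.filter (fun n => ¬ n ∈ PQ.NB P T) := ⟨_, rfl⟩
  rw [← hB] at hstep2
  have hBg : ∑ n ∈ B, (Wn (103 / 200) T n - 232142 / 1000000) / n ≤ ∑ n ∈ B, gg T n := by
    apply Finset.sum_le_sum
    intro n _
    exact div_le_div_of_nonneg_right (le_max_left _ _) (Nat.cast_nonneg n)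
  obtain ⟨C0, hC0⟩ : ∃ C0, C0 = (PP.RN N T).filter (fun n => ¬ PQ.Gd P T n) := ⟨_, rfl⟩
  obtain ⟨CJ, hCJ⟩ : ∃ CJ, CJ = JC N T ((ss : ℚ) : ℝ) (1 / 3 - 1 / 100000) := ⟨_, rfl⟩
  obtain ⟨C1, hC1⟩ : ∃ C1, C1 = (Finset.range 30).biUnion
    (fun i => RC N T (ss : ℝ) (r1 i : ℚ) (r1 (i + 1) : ℚ) (h1 : ℚ) (U1 i : ℚ)) := ⟨_, rfl⟩
  obtain ⟨C2, hC2⟩ : ∃ C2, C2 = (Finset.range 30).biUnion
    (fun i => RC N T (ss : ℝ) (r2 i : ℚ) (r2 (i + 1) : ℚ) (h2 i : ℚ) (U2 i : ℚ)) := ⟨_, rfl⟩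
  obtain ⟨C5, hC5⟩ : ∃ C5, C5 = (PP.RN N (T ^ ((ss : ℚ) : ℝ))) \ (PP.RN N (T ^ (1999 / 4000 - 1 / 8000 : ℝ))) := ⟨_, rfl⟩
  obtain ⟨CT, hCT⟩ : ∃ CT, CT = (Finset.range 40).biUnion (fun i => (Finset.range 4).biUnion
    (fun j => TC N T (ss : ℝ) (tA i : ℚ) (tB i : ℚ) ((j : ℝ) / 8) (((j : ℝ) + 1) / 8))) := ⟨_, rfl⟩
  have hcov := PP.cover B (Finset.univ : Finset (Fin 6)) ![C0, CJ, C1, C2, C5, CT] (by
    intro n hn
    rw [hB, Finset.mem_filter] at hn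
    obtain ⟨hnR, hnB⟩ := hn
    by_cases hg : PQ.Gd P T n
    · have hnR2 := hnR
      rw [hR] at hnR2
      rcases cover_bad hT hPe hnR2 hg hnB with h | ⟨i, hi, h⟩ | ⟨i, hi, h⟩ | h | ⟨i, hi, j, hj, h⟩
      · refine ⟨1, Finset.mem_univ _, ?_⟩
        show n ∈ CJ
        rw [hCJ]
        exact h
      · refine ⟨2, Finset.mem_univ _, ?_⟩
        show n ∈ C1
        rw [hC1, Finset.mem_biUnion]
        exact ⟨i, Finset.mem_range.2 hi, h⟩
      · refine ⟨3, Finset.mem_univ _, ?_⟩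
        show n ∈ C2
        rw [hC2, Finset.mem_biUnion]
        exact ⟨i, Finset.mem_range.2 hi, h⟩
      · refine ⟨4, Finset.mem_univ _, ?_⟩
        show n ∈ C5
        rw [hC5]
        exact h
      · refine ⟨5, Finset.mem_univ _, ?_⟩
        show n ∈ CT
        rw [hCT, Finset.mem_biUnion]
        refine ⟨i, Finset.mem_range.2 hi, ?_⟩
        rw [Finset.mem_biUnion]
        exact ⟨j, Finset.mem_range.2 hj, h⟩
    · refine ⟨0, Finset.mem_univ _, ?_⟩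
      show n ∈ C0
      rw [hC0, Finset.mem_filter]
      refine ⟨?_, hg⟩
      rw [hR'] at hnR
      have hm' := PP.mem_RN.1 hnR
      refine PP.mem_RN.2 ⟨hm'.1, hm'.2.1.trans ?_, hm'.2.2⟩
      calc T ^ (1999 / 4000 : ℝ) ≤ T ^ (1 : ℝ) := Real.rpow_le_rpow_of_exponent_le hT.le (by norm_num)
        _ = T := Real.rpow_one T) (gg T) (gg_nonneg T)
  rw [Fin.sum_univ_six] at hcov
  simp only [Matrix.cons_val_zero, Matrix.cons_val_one, Matrix.cons_val] at hcov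
  have b0 : ∑ n ∈ C0, gg T n ≤ ε := by
    have h1 : ∑ n ∈ C0, gg T n ≤ ∑ n ∈ C0, 1 / (n : ℝ) := by
      apply Finset.sum_le_sum
      intro n hn
      rw [hC0, Finset.mem_filter] at hn
      have hn' := PP.mem_RN.1 hn.1
      have e1 := Wn_num hT hn'.1 (S := ∅) (Finset.empty_subset _)
      rw [Finset.sum_empty] at e1
      have e2 : yy T n ≤ 1 := (le_rpow_iff hT hn'.1).1 (by rw [Real.rpow_one]; exact hn'.2.1)
      exact gg_le (by linarith) (by norm_num)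
    refine h1.trans ?_
    rw [hC0, hN]
    refine le_trans (le_of_eq ?_) hT2
    congr!
  have b1 : ∑ n ∈ CJ, gg T n ≤ v * (7110 / 1000000 + 1000 * ε) := by
    rw [hCJ]
    exact boundJ' hT hv0.le hε hε3 hfl hm
  have b2 : ∑ n ∈ C1, gg T n ≤ v * (4521 / 10000000 + 30000 * ε) := by
    refine le_trans ?_ (sum_R1 hT hv0.le hε hε3 hfl hm)
    rw [hC1]
    exact PP.cover _ _ _ (fun n hn => by
      obtain ⟨i, hi, h⟩ := Finset.mem_biUnion.1 hn
      exact ⟨i, hi, h⟩) (gg T) (gg_nonneg T)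
  have b3 : ∑ n ∈ C2, gg T n ≤ v * (448 / 1000000 + 30000 * ε) := by
    refine le_trans ?_ (sum_R2 hT hv0.le hε hε3 hfl hm)
    rw [hC2]
    exact PP.cover _ _ _ (fun n hn => by
      obtain ⟨i, hi, h⟩ := Finset.mem_biUnion.1 hn
      exact ⟨i, hi, h⟩) (gg T) (gg_nonneg T)
  have b4 : ∑ n ∈ C5, gg T n ≤ v * (2826005 / 10000000 * (1 / 8000 + ε)) := by
    rw [hC5]
    exact sum_S5 hT hv0.le hfl
  have b5 : ∑ n ∈ CT, gg T n ≤ v * (2087 / 1000000 + 10 ^ 14 * ε) := by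
    refine le_trans ?_ (sum_T hT hv0 hε hε7 hfl hm)
    rw [hCT]
    refine (PP.cover _ (Finset.range 40) (fun i => (Finset.range 4).biUnion
      (fun j => TC N T (ss : ℝ) (tA i : ℚ) (tB i : ℚ) ((j : ℝ) / 8) (((j : ℝ) + 1) / 8))) (fun n hn => by
        obtain ⟨i, hi, h⟩ := Finset.mem_biUnion.1 hn
        exact ⟨i, hi, h⟩) (gg T) (gg_nonneg T)).trans ?_
    apply Finset.sum_le_sum
    intro i _
    exact PP.cover _ _ _ (fun n hn => by
      obtain ⟨j, hj, h⟩ := Finset.mem_biUnion.1 hn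
      exact ⟨j, hj, h⟩) (gg T) (gg_nonneg T)
  -- all numbers
  have hsplit : ∑ n ∈ R, (Wn (103 / 200) T n - 232142 / 1000000) / n =
      ∑ n ∈ R, Wn (103 / 200) T n / n - 232142 / 1000000 * PP.RS N (T ^ (1999 / 4000 : ℝ)) := by
    unfold PP.RS
    rw [← hR', Finset.mul_sum, ← Finset.sum_sub_distrib]
    refine Finset.sum_congr rfl fun n _ => ?_
    ring
  rw [← hR'] at hW
  have hRS := (hfl (1999 / 4000) ⟨by norm_num, by norm_num⟩).2
  have hnum : (103 / 200 : ℝ) * (1999 / 4000) ^ 2 - Real.pi ^ 2 * (103 / 200) ^ 3 / 6 * (1999 / 4000) ^ 4 / 6 +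
      Real.pi ^ 4 * (103 / 200) ^ 5 / 120 * (1999 / 4000) ^ 6 / 15 - Real.pi ^ 6 * (103 / 200) ^ 7 / 5040 * (1999 / 4000) ^ 8 / 28 -
      232142 / 1000000 * (1999 / 4000) ≥ 10300 / 1000000 := by
    have h1 := Real.pi_gt_d6
    have h2 := Real.pi_lt_d6
    have h3 := Real.pi_pos
    have e1 : Real.pi ^ 2 ≤ (3.141593 : ℝ) ^ 2 := pow_le_pow_left₀ h3.le h2.le 2
    have e2 : (3.141592 : ℝ) ^ 4 ≤ Real.pi ^ 4 := pow_le_pow_left₀ (by norm_num) h1.le 4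
    have e3 : Real.pi ^ 6 ≤ (3.141593 : ℝ) ^ 6 := pow_le_pow_left₀ h3.le h2.le 6
    norm_num at e1 e2 e3 ⊢
    linarith
  have hfinal : v * (10300 / 1000000 - 7110 / 1000000 - 4521 / 10000000 - 448 / 1000000 - 2826005 / 10000000 * (1 / 8000) -
      2087 / 1000000 - (10 ^ 14 + 61000 + 10) * ε) - ε ≤ ∑ n ∈ PQ.NB P T, (Wn (103 / 200) T n - 232142 / 1000000) / n := by
    have h1 := mul_le_mul_of_nonneg_left hnum hv0.le
    have hεv : 0 ≤ ε * v := by positivity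
    nlinarith
  have hε14 : (10 ^ 14 + 61000 + 10) * ε ≤ 1 / 10 ^ 5 := by
    calc (10 ^ 14 + 61000 + 10) * ε ≤ (10 ^ 14 + 61000 + 10) * (1 / 10 ^ 20) := mul_le_mul_of_nonneg_left hε1 (by norm_num)
      _ ≤ _ := by norm_num
  have hεs : ε ≤ 1 / 10 ^ 6 := hε1.trans (by norm_num)
  have h5 : v * (1 / 10 ^ 4) ≤ v * (10300 / 1000000 - 7110 / 1000000 - 4521 / 10000000 - 448 / 1000000 -
      2826005 / 10000000 * (1 / 8000) - 2087 / 1000000 - (10 ^ 14 + 61000 + 10) * ε) := by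
    apply mul_le_mul_of_nonneg_left _ hv0.le
    norm_num at hε14 ⊢
    linarith
  have h6 : (1 : ℝ) / 10 ^ 5 ≤ v * (1 / 10 ^ 4) - ε := by
    norm_num at hεs ⊢
    linarith
  linarith

end Pool.Agent.Helper57.PR
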