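import Mathlib

/-!
# PR: rational bounds for the logarithm (series of artanh)
-/

namespace Pool.Agent.Helper57.PR

/-- `log z ≥ 2 (u + u³/3 + u⁵/5 + u⁷/7)`, `u = (z-1)/(z+1)` -/
theorem log_low57 {z : ℝ} (hz : 1 ≤ z) : 2 * ((z - 1) / (z + 1) + ((z - 1) / (z + 1)) ^ 3 / 3 + ((z - 1) / (z + 1)) ^ 5 / 5 +
    ((z - 1) / (z + 1)) ^ 7 / 7) ≤ Real.log z := by
  obtain ⟨u, hu⟩ : ∃ u, u = (z - 1) / (z + 1) := ⟨_, rfl⟩
  have hz1 : 0 < z + 1 := by linarith
  have hu0 : 0 ≤ u := by rw [hu]; exact div_nonneg (by linarith) hz1.le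
  have hu1 : u < 1 := by rw [hu, div_lt_one hz1]; linarith
  have h := Real.hasSum_log_sub_log_of_abs_lt_one (x := u) (by rw [abs_of_nonneg hu0]; exact hu1)
  have hlog : Real.log (1 + u) - Real.log (1 - u) = Real.log z := by
    rw [← Real.log_div (by linarith) (by linarith)]
    congr 1
    rw [hu]
    field_simp
    ring
  rw [hlog] at h
  rw [← hu]
  have h2 := sum_le_hasSum (Finset.range 4) (fun i _ => by positivity) h
  refine le_trans (le_of_eq ?_) h2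
  simp only [Finset.sum_range_succ, Finset.sum_range_zero]
  push_cast
  ring

/-- `log z ≤ 2 (u + u³/3 + u⁵/5 + u⁷/(7 (1 - u²)))` -/
theorem log_up57 {z : ℝ} (hz : 1 ≤ z) : Real.log z ≤ 2 * ((z - 1) / (z + 1) + ((z - 1) / (z + 1)) ^ 3 / 3 +
    ((z - 1) / (z + 1)) ^ 5 / 5 + ((z - 1) / (z + 1)) ^ 7 / (7 * (1 - ((z - 1) / (z + 1)) ^ 2))) := by
  obtain ⟨u, hu⟩ : ∃ u, u = (z - 1) / (z + 1) := ⟨_, rfl⟩
  have hz1 : 0 < z + 1 := by linarith
  have hu0 : 0 ≤ u := by rw [hu]; exact div_nonneg (by linarith) hz1.le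
  have hu1 : u < 1 := by rw [hu, div_lt_one hz1]; linarith
  have h := Real.hasSum_log_sub_log_of_abs_lt_one (x := u) (by rw [abs_of_nonneg hu0]; exact hu1)
  have hlog : Real.log (1 + u) - Real.log (1 - u) = Real.log z := by
    rw [← Real.log_div (by linarith) (by linarith)]
    congr 1
    rw [hu]
    field_simp
    ring
  rw [hlog] at h
  rw [← hu]
  have hu2 : u ^ 2 < 1 := by nlinarith
  have hgeo := (hasSum_geometric_of_lt_one (sq_nonneg u) hu2).mul_left (2 / 7 * u ^ 7)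
  -- compare the tails
  have h3 := (hasSum_nat_add_iff' 3).2 h
  have h4 := hasSum_le (fun n => ?_) h3 hgeo
  · simp only [Finset.sum_range_succ, Finset.sum_range_zero] at h4
    push_cast at h4
    have h5 : 2 / 7 * u ^ 7 * (1 - u ^ 2)⁻¹ = 2 * (u ^ 7 / (7 * (1 - u ^ 2))) := by
      have : 1 - u ^ 2 ≠ 0 := by linarith
      field_simp
    rw [h5] at h4
    norm_num at h4
    linarith
  · have e1 : u ^ (2 * (n + 3) + 1) = u ^ 7 * (u ^ 2) ^ n := by
      rw [← pow_mul, ← pow_add]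
      congr 1
      ring
    rw [e1]
    have e2 : (1 : ℝ) / (2 * ((n + 3 : ℕ) : ℝ) + 1) ≤ 1 / 7 := by
      apply one_div_le_one_div_of_le (by norm_num)
      push_cast
      have : (0 : ℝ) ≤ n := Nat.cast_nonneg n
      linarith
    have e3 : 0 ≤ u ^ 7 * (u ^ 2) ^ n := by positivity
    calc 2 * (1 / (2 * ((n + 3 : ℕ) : ℝ) + 1)) * (u ^ 7 * (u ^ 2) ^ n) ≤ 2 * (1 / 7) * (u ^ 7 * (u ^ 2) ^ n) := by
          apply mul_le_mul_of_nonneg_right _ e3
          linarith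
      _ = _ := by ring

/-- rational upper bound of `log z` -/
def lu (z : ℚ) : ℚ :=
  let u := (z - 1) / (z + 1)
  let u2 := u * u
  2 * u * (1 + u2 * (1 / 3 + u2 * (1 / 5 + u2 / (7 * (1 - u2)))))

/-- rational lower bound of `log z` -/
def ll (z : ℚ) : ℚ :=
  let u := (z - 1) / (z + 1)
  let u2 := u * u
  2 * u * (1 + u2 * (1 / 3 + u2 * (1 / 5 + u2 / 7)))

theorem lu_spec {z : ℚ} (hz : 1 ≤ z) : Real.log (z : ℝ) ≤ (lu z : ℝ) := by
  have h := log_up57 (z := (z : ℝ)) (by exact_mod_cast hz)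
  refine h.trans (le_of_eq ?_)
  unfold lu
  push_cast
  have hz' : (1 : ℝ) ≤ z := by exact_mod_cast hz
  have h1 : (1 : ℝ) - ((z : ℝ) - 1) / (z + 1) * (((z : ℝ) - 1) / (z + 1)) ≠ 0 := by
    have h3 : ((z : ℝ) - 1) / (z + 1) < 1 := by
      rw [div_lt_one (by linarith)]
      linarith
    have h4 : 0 ≤ ((z : ℝ) - 1) / (z + 1) := div_nonneg (by linarith) (by linarith)
    nlinarith
  obtain ⟨u, hu⟩ : ∃ u : ℝ, u = ((z : ℝ) - 1) / (z + 1) := ⟨_, rfl⟩
  rw [← hu] at h1 ⊢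
  have h2 : 1 - u ^ 2 ≠ 0 := by
    intro h5
    apply h1
    nlinarith
  have h6 : 1 - u * u = 1 - u ^ 2 := by ring
  rw [h6]
  field_simp
  ring

theorem ll_spec {z : ℚ} (hz : 1 ≤ z) : (ll z : ℝ) ≤ Real.log (z : ℝ) := by
  have h := log_low57 (z := (z : ℝ)) (by exact_mod_cast hz)
  refine le_trans (le_of_eq ?_) h
  unfold ll
  push_cast
  ring

end Pool.Agent.Helper57.PR
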