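import Pool.Agent.Helper57.PR.S0

/-!
# PR-S1: tools
-/

open MeasureTheory Set Filter Topology
open Pool.Agent.Helper57.Zeta Pool.Agent.Helper57.PC Pool.Agent.Helper57.LH Pool.Agent.Helper78.SG
open Pool.Agent.Helper4.SH
open Pool.Agent.Helper69.PP

namespace Pool.Agent.Helper57.PR

/-- Mertens -/
theorem MT_ev {a ε : ℝ} (ha : 0 < a) (hε : 0 < ε) : ∀ᶠ T : ℝ in atTop, MT T a ε := by
  have h0 := mert_log ha hε
  have h1 : ∀ᶠ T : ℝ in atTop, ∀ k ∈ Finset.Icc 1 6, ∀ u u' : ℝ, a ≤ u → u ≤ u' → u' ≤ 1 →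
      |(∑ p ∈ (PP T).filter (fun p => u < yy T p ∧ yy T p ≤ u'), yy T p / p * (yy T p) ^ (k - 1)) -
        ∫ y in u..u', y ^ (k - 1)| ≤ ε := by
    rw [Filter.eventually_all_finset]
    intro k _
    exact mert (ψ := fun y => y ^ (k - 1)) (by fun_prop) ha hε
  filter_upwards [h0, h1] with T hT0 hT1 u u' hau huu hu1
  refine ⟨?_, ?_⟩
  · unfold SP PI
    simpa using hT0 u u' hau huu hu1
  · intro k hk1 hk6
    have h2 := hT1 k (Finset.mem_Icc.2 ⟨hk1, hk6⟩) u u' hau huu hu1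
    rw [integral_pow] at h2
    obtain ⟨j, rfl⟩ : ∃ j, k = j + 1 := ⟨k - 1, by omega⟩
    simp only [Nat.add_sub_cancel] at h2
    unfold SP PI
    have h3 : ∑ p ∈ (PP T).filter (fun p => u < yy T p ∧ yy T p ≤ u'), yy T p ^ (j + 1) / (p : ℝ) =
        ∑ p ∈ (PP T).filter (fun p => u < yy T p ∧ yy T p ≤ u'), yy T p / p * (yy T p) ^ j := by
      refine Finset.sum_congr rfl fun p _ => ?_
      rw [pow_succ]
      ring
    rw [h3]
    push_cast
    exact h2

theorem yy_nonneg' {T : ℝ} (hT : 1 < T) (n : ℕ) : 0 ≤ yy T n :=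
  div_nonneg (Real.log_natCast_nonneg n) (Real.log_pos hT).le

theorem yy_mul' {T : ℝ} (hT : 1 < T) {m n : ℕ} (hm : m ≠ 0) (hn : n ≠ 0) : yy T (m * n) = yy T m + yy T n := by
  have _ := hT
  unfold yy
  push_cast
  rw [Real.log_mul (by exact_mod_cast hm) (by exact_mod_cast hn), add_div]

/-- size and `T^s` -/
theorem le_rpow_iff {T s : ℝ} (hT : 1 < T) {n : ℕ} (hn : n ≠ 0) : (n : ℝ) ≤ T ^ s ↔ yy T n ≤ s := by
  have hL : 0 < Real.log T := Real.log_pos hT
  have hT0 : 0 < T := by linarith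
  have hn0 : (0 : ℝ) < n := by exact_mod_cast Nat.pos_of_ne_zero hn
  unfold yy
  rw [div_le_iff₀ hL, ← Real.log_rpow hT0, Real.log_le_log_iff hn0 (Real.rpow_pos_of_pos hT0 s)]

/-- membership in `RN N (T^s)` by size -/
theorem mem_RN_yy {N : ℕ} {T s : ℝ} (hT : 1 < T) {n : ℕ} :
    n ∈ RN N (T ^ s) ↔ n ≠ 0 ∧ yy T n ≤ s ∧ ∀ p ∈ n.primeFactors, N ≤ p := by
  rw [mem_RN]
  constructor
  · rintro ⟨h1, h2, h3⟩
    exact ⟨h1, (le_rpow_iff hT h1).1 h2, h3⟩
  · rintro ⟨h1, h2, h3⟩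
    exact ⟨h1, (le_rpow_iff hT h1).2 h2, h3⟩

/-- union bound for products -/
theorem cover2 (S D : Finset ℕ) (R : ℕ → Finset ℕ) (hc : ∀ n ∈ S, ∃ d ∈ D, ∃ r ∈ R d, n = d * r) (g : ℕ → ℝ)
    (hg : ∀ n, 0 ≤ g n) : ∑ n ∈ S, g n ≤ ∑ d ∈ D, ∑ r ∈ R d, g (d * r) := by
  classical
  choose! f hf e he hfe using hc
  rw [← Finset.sum_sigma (s := D) (t := fun d => R d) (f := fun x : (_ : ℕ) × ℕ => g (x.1 * x.2))]
  have hinj : Set.InjOn (fun n => (⟨f n, e n⟩ : (_ : ℕ) × ℕ)) (S : Set ℕ) := by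
    intro a ha b hb hab
    simp only [Sigma.mk.injEq] at hab
    rw [hfe a ha, hfe b hb, hab.1, eq_of_heq hab.2]
  calc ∑ n ∈ S, g n = ∑ n ∈ S, (fun x : (_ : ℕ) × ℕ => g (x.1 * x.2)) ⟨f n, e n⟩ :=
        Finset.sum_congr rfl fun n hn => by
          show g n = g (f n * e n)
          rw [← hfe n hn]
    _ = ∑ x ∈ S.image (fun n => (⟨f n, e n⟩ : (_ : ℕ) × ℕ)), g (x.1 * x.2) :=
        (Finset.sum_image (f := fun x : (_ : ℕ) × ℕ => g (x.1 * x.2)) hinj).symm
    _ ≤ _ := by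
        apply Finset.sum_le_sum_of_subset_of_nonneg
        · intro x hx
          rw [Finset.mem_image] at hx
          obtain ⟨n, hn, rfl⟩ := hx
          rw [Finset.mem_sigma]
          exact ⟨hf n hn, he n hn⟩
        · intro x _ _
          exact hg _

/-- layers of one point -/
theorem layer57 {h y : ℝ} (hh : 0 ≤ h) : ∀ K : ℕ, y ≤ K * h →
    h * ∑ i ∈ Finset.range K, (if y ≤ i * h then (1 : ℝ) else 0) ≤ K * h - y := by
  intro K
  induction K with
  | zero => intro hy; simpa using hy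
  | succ K ih =>
    intro hy
    rw [Finset.sum_range_succ]
    push_cast at hy ⊢
    by_cases hc : y ≤ K * h
    · have := ih hc
      rw [if_pos hc]
      linarith
    · have h0 : ∑ i ∈ Finset.range K, (if y ≤ i * h then (1 : ℝ) else 0) = 0 := by
        apply Finset.sum_eq_zero
        intro i hi
        rw [Finset.mem_range] at hi
        rw [if_neg]
        intro h1
        apply hc
        have h2 : (i : ℝ) ≤ K := by exact_mod_cast hi.le
        exact h1.trans (mul_le_mul_of_nonneg_right h2 hh)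
      rw [h0, if_neg hc]
      linarith

/-- first moment from below (layers; only the lower bound of `FL` is used) -/
theorem mom_low {N : ℕ} {T v ε g : ℝ} (hT : 1 < T) (hv : 0 ≤ v) (hfl : FL N T v ε) (hg0 : 0 ≤ g) (hg1 : g ≤ 1) :
    v * (g ^ 2 / 2) ≤ ∑ r ∈ RN N (T ^ g), (g - yy T r) / r := by
  classical
  obtain ⟨S, hS⟩ : ∃ S, S = ∑ r ∈ RN N (T ^ g), (g - yy T r) / (r : ℝ) := ⟨_, rfl⟩
  rw [← hS]
  have key : ∀ K : ℕ, 0 < K → v * (g ^ 2 / 2) - v * g ^ 2 / (2 * K) ≤ S := by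
    intro K hK
    have hK0 : (0 : ℝ) < K := by exact_mod_cast hK
    obtain ⟨h, hh⟩ : ∃ h, h = g / K := ⟨_, rfl⟩
    have hh0 : 0 ≤ h := by rw [hh]; positivity
    have hKh : (K : ℝ) * h = g := by rw [hh]; field_simp
    have h1 : h * ∑ i ∈ Finset.range K, RS N (T ^ ((i : ℝ) * h)) ≤ S := by
      have h2 : ∀ i ∈ Finset.range K, RS N (T ^ ((i : ℝ) * h)) =
          ∑ r ∈ RN N (T ^ g), (if yy T r ≤ i * h then (1 : ℝ) else 0) * (1 / (r : ℝ)) := by
        intro i hi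
        rw [Finset.mem_range] at hi
        have h3 : RN N (T ^ ((i : ℝ) * h)) = (RN N (T ^ g)).filter (fun r => yy T r ≤ i * h) := by
          ext r
          rw [Finset.mem_filter, mem_RN_yy hT, mem_RN_yy hT]
          constructor
          · rintro ⟨a1, a2, a3⟩
            refine ⟨⟨a1, a2.trans ?_, a3⟩, a2⟩
            rw [← hKh]
            have : (i : ℝ) ≤ K := by exact_mod_cast hi.le
            exact mul_le_mul_of_nonneg_right this hh0
          · rintro ⟨⟨a1, _, a3⟩, a2⟩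
            exact ⟨a1, a2, a3⟩
        unfold RS
        rw [h3, Finset.sum_filter]
        refine Finset.sum_congr rfl fun r _ => ?_
        split_ifs <;> ring
      rw [Finset.sum_congr rfl h2, Finset.sum_comm, Finset.mul_sum, hS]
      apply Finset.sum_le_sum
      intro r hr
      have hr' := (mem_RN_yy hT).1 hr
      rw [← Finset.sum_mul, ← mul_assoc, div_eq_mul_one_div (g - yy T r)]
      apply mul_le_mul_of_nonneg_right _ (by positivity)
      have h3 := layer57 (y := yy T r) hh0 K (by rw [hKh]; exact hr'.2.1)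
      rwa [hKh] at h3
    have h2 : ∑ i ∈ Finset.range K, (i : ℝ) * h * v ≤ ∑ i ∈ Finset.range K, RS N (T ^ ((i : ℝ) * h)) := by
      apply Finset.sum_le_sum
      intro i hi
      rw [Finset.mem_range] at hi
      have h4 : (i : ℝ) * h ≤ g := by
        rw [← hKh]
        have : (i : ℝ) ≤ K := by exact_mod_cast hi.le
        exact mul_le_mul_of_nonneg_right this hh0
      exact (hfl _ ⟨by positivity, h4.trans hg1⟩).1
    have h3 : ∑ i ∈ Finset.range K, (i : ℝ) * h * v = h * v * (K * (K - 1) / 2) := by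
      rw [← Finset.sum_mul, ← Finset.sum_mul]
      have h5 : ∀ n : ℕ, ∑ i ∈ Finset.range n, (i : ℝ) = n * (n - 1) / 2 := by
        intro n
        induction n with
        | zero => simp
        | succ n ih =>
          rw [Finset.sum_range_succ, ih]
          push_cast
          ring
      rw [h5 K]
      ring
    have h4 : h * (h * v * (K * (K - 1) / 2)) ≤ S := by
      rw [← h3]
      exact (mul_le_mul_of_nonneg_left h2 hh0).trans h1
    have h5 : h * (h * v * (K * (K - 1) / 2)) = v * (g ^ 2 / 2) - v * g ^ 2 / (2 * K) := by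
      rw [hh]
      field_simp
    rwa [h5] at h4
  apply le_of_forall_pos_le_add
  intro η hη
  obtain ⟨K, hK⟩ := exists_nat_gt (v * g ^ 2 / (2 * η))
  have hK0 : 0 < K := by
    rcases Nat.eq_zero_or_pos K with h | h
    · rw [h] at hK
      have : 0 ≤ v * g ^ 2 / (2 * η) := by positivity
      norm_num at hK
      linarith
    · exact h
  have hK1 : (0 : ℝ) < K := by exact_mod_cast hK0
  have h1 := key K hK0
  have h2 : v * g ^ 2 / (2 * K) ≤ η := by
    rw [div_lt_iff₀ (by positivity)] at hK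
    rw [div_le_iff₀ (by positivity)]
    nlinarith
  linarith

/-- the weighted sum -/
theorem mom_up {N : ℕ} {T v ε g w c : ℝ} (hT : 1 < T) (hv : 0 ≤ v) (hfl : FL N T v ε) (hg0 : 0 ≤ g) (hg1 : g ≤ 1)
    (hw : 0 ≤ w) (hc : 0 ≤ c) :
    ∑ r ∈ RN N (T ^ g), (w - 2 * c * (g - yy T r)) / r ≤ v * (w * (g + ε) - c * g ^ 2) := by
  have h1 := mom_low hT hv hfl hg0 hg1
  have h2 := (hfl g ⟨hg0, hg1⟩).2
  have h3 : ∑ r ∈ RN N (T ^ g), (w - 2 * c * (g - yy T r)) / (r : ℝ) =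
      w * RS N (T ^ g) - 2 * c * ∑ r ∈ RN N (T ^ g), (g - yy T r) / (r : ℝ) := by
    unfold RS
    rw [Finset.mul_sum, Finset.mul_sum, ← Finset.sum_sub_distrib]
    refine Finset.sum_congr rfl fun r _ => ?_
    ring
  rw [h3]
  have h4 := mul_le_mul_of_nonneg_left h2 hw
  have h5 := mul_le_mul_of_nonneg_left h1 (by positivity : 0 ≤ 2 * c)
  linarith

/-- the weighted sum over products `d r` with a fixed set of `d` -/
theorem mom_prod {N : ℕ} {T v ε s c : ℝ} (hT : 1 < T) (hv : 0 ≤ v) (hfl : FL N T v ε) (hs1 : s ≤ 1)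
    (hc : 0 ≤ c) (D : Finset ℕ) (w : ℕ → ℝ) (hD : ∀ d ∈ D, d ≠ 0 ∧ yy T d ≤ s ∧ 0 ≤ w d) :
    ∑ d ∈ D, ∑ r ∈ RN N (T ^ (s - yy T d)), (w d - 2 * c * (s - yy T (d * r))) / ((d * r : ℕ) : ℝ) ≤
      v * ∑ d ∈ D, (w d * (s - yy T d + ε) - c * (s - yy T d) ^ 2) / d := by
  rw [Finset.mul_sum]
  apply Finset.sum_le_sum
  intro d hd
  obtain ⟨hd0, hds, hwd⟩ := hD d hd
  have hd1 : (0 : ℝ) < d := by exact_mod_cast Nat.pos_of_ne_zero hd0
  have hyd := yy_nonneg' hT d
  have h1 := mom_up (N := N) (g := s - yy T d) hT hv hfl (by linarith) (by linarith) hwd hc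
  have h2 : ∑ r ∈ RN N (T ^ (s - yy T d)), (w d - 2 * c * (s - yy T (d * r))) / ((d * r : ℕ) : ℝ) =
      (1 / (d : ℝ)) * ∑ r ∈ RN N (T ^ (s - yy T d)), (w d - 2 * c * ((s - yy T d) - yy T r)) / (r : ℝ) := by
    rw [Finset.mul_sum]
    refine Finset.sum_congr rfl fun r hr => ?_
    have hr0 := ((mem_RN_yy hT).1 hr).1
    have hr1 : (r : ℝ) ≠ 0 := by exact_mod_cast hr0
    rw [yy_mul' hT hd0 hr0]
    push_cast
    field_simp
    ring
  rw [h2]
  calc (1 / (d : ℝ)) * ∑ r ∈ RN N (T ^ (s - yy T d)), (w d - 2 * c * ((s - yy T d) - yy T r)) / (r : ℝ)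
      ≤ (1 / (d : ℝ)) * (v * (w d * (s - yy T d + ε) - c * (s - yy T d) ^ 2)) :=
        mul_le_mul_of_nonneg_left h1 (by positivity)
    _ = _ := by ring

end Pool.Agent.Helper57.PR
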