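import Pool.Agent.Helper57.PR.Pack
import Pool.Agent.Helper57.PR.S1

/-!
# PR: packing of the type of a number (2099 bins, 4200 copies)
-/

open MeasureTheory Set Filter Topology
open Pool.Agent.Helper57.Zeta Pool.Agent.Helper57.PC Pool.Agent.Helper57.LH Pool.Agent.Helper78.SG
open Pool.Agent.Helper4.SH
open Pool.Agent.Helper69.PP

namespace Pool.Agent.Helper57.PR

theorem ce_low {G : ℕ} {T : ℝ} (hG : 0 < G) (p : ℕ) : yy T p ≤ (ce G T p : ℝ) / G := by
  have hG' : (0 : ℝ) < G := by exact_mod_cast hG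
  rw [le_div_iff₀ hG']
  unfold ce yy
  have := Nat.le_ceil ((G : ℝ) * Real.log p / Real.log T)
  calc Real.log p / Real.log T * G = G * Real.log p / Real.log T := by ring
    _ ≤ _ := this

theorem ce_up {G : ℕ} {T : ℝ} (hG : 0 < G) (hT : 1 < T) (p : ℕ) : (ce G T p : ℝ) / G ≤ yy T p + 1 / G := by
  have hG' : (0 : ℝ) < G := by exact_mod_cast hG
  have hL : 0 < Real.log T := Real.log_pos hT
  have hlp := Real.log_natCast_nonneg p
  have h1 : (⌈(G : ℝ) * Real.log p / Real.log T⌉₊ : ℝ) < (G : ℝ) * Real.log p / Real.log T + 1 :=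
    Nat.ceil_lt_add_one (by positivity)
  unfold ce yy
  rw [div_le_iff₀ hG']
  refine h1.le.trans (le_of_eq ?_)
  field_simp

theorem ce_mono' {G : ℕ} {T : ℝ} (hT : 1 < T) {p q : ℕ} (hp : 0 < p) (hpq : p ≤ q) : ce G T p ≤ ce G T q := by
  have hL : 0 < Real.log T := Real.log_pos hT
  unfold ce
  apply Nat.ceil_le_ceil
  apply div_le_div_of_nonneg_right _ hL.le
  apply mul_le_mul_of_nonneg_left _ (Nat.cast_nonneg G)
  exact Real.log_le_log (by exact_mod_cast hp) (by exact_mod_cast hpq)

/-- the type of a number without large primes, without bad pairs and without a critical prime can be packed -/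
theorem pack_of {G : ℕ} {T e : ℝ} {n : ℕ} (hG : 0 < G) (hT : 1 < T) (he : 0 < e) (he1 : e ≤ 1 / 10000)
    (hinj : Set.InjOn (ce G T) (n.primeFactors : Set ℕ)) (hG1 : 1 / (G : ℝ) ≤ e / 4)
    (hK : (n.primeFactors.card : ℝ) / G ≤ e / 4)
    (h1 : ∀ p ∈ n.primeFactors, yy T p ≤ 1 / 3 - e)
    (h2 : ∀ p ∈ n.primeFactors, ∀ p' ∈ n.primeFactors, p' < p → yy T p' ≤ 1 / 7 - e ∨
      (yy T p ≤ 1 / 4 - e ∧ yy T p' ≤ 1 / 5 - e) ∨ (3 * yy T p + yy T p' ≤ 1 - 2 * e ∧ yy T p' ≤ 1 / 5 - e))
    (h3 : ∀ q ∈ n.primeFactors, (∃ p ∈ n.primeFactors, ∃ p' ∈ n.primeFactors, q < p' ∧ p' < p) →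
      ∑ p ∈ n.primeFactors.filter (fun p => q ≤ p), yy T p + 2099 / 4200 * yy T q ≤ 2099 / 4200 - e) :
    ∃ f : Fin 2099 → ℕ → ℕ, (∀ l ∈ ty G T n, 4200 ≤ ∑ j, f j l) ∧
      ∀ j, ((∑ l ∈ ty G T n, f j l * l : ℕ) : ℝ) ≤ (1 - e) * G := by
  classical
  have hG' : (0 : ℝ) < G := by exact_mod_cast hG
  have hpos : ∀ p ∈ n.primeFactors, 0 < p := fun p hp => (Nat.prime_of_mem_primeFactors hp).pos
  have hlt : ∀ p ∈ n.primeFactors, ∀ p' ∈ n.primeFactors, ce G T p' < ce G T p → p' < p := by
    intro p hp p' hp' h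
    by_contra hc
    push Not at hc
    exact absurd (ce_mono' (G := G) hT (hpos p hp) hc) (by omega)
  have hx : ∀ p, (ce G T p : ℝ) / G ≤ yy T p + e / 4 := fun p => (ce_up hG hT p).trans (by linarith)
  have hP : Pk 2099 4200 (1 - e) (fun l => (l : ℝ) / G) (ty G T n) := by
    apply Pk_all (by norm_num) (fun l => by positivity) (by linarith)
    · intro l hl
      obtain ⟨p, hp, rfl⟩ := Finset.mem_image.1 hl
      apply Pk_one (a := 1400) (k := 3) (by norm_num) (by norm_num) (by linarith)
      have := hx p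
      have := h1 p hp
      push_cast
      linarith
    · intro l hl l' hl' hll
      obtain ⟨p, hp, rfl⟩ := Finset.mem_image.1 hl
      obtain ⟨p', hp', rfl⟩ := Finset.mem_image.1 hl'
      have hpp := hlt p hp p' hp' hll
      have a1 := hx p
      have a2 := hx p'
      have a3 := h1 p hp
      rcases h2 p hp p' hp' hpp with h | ⟨ha, hb⟩ | ⟨ha, hb⟩
      · apply Pk_two hll.ne' (a := 1400) (b := 600) (k1 := 3) (k2 := 0) (m1 := 0) (m2 := 7) (by norm_num) (by norm_num)
          (by norm_num) (by linarith)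
        · push_cast
          linarith
        · push_cast
          linarith
      · apply Pk_two hll.ne' (a := 1050) (b := 840) (k1 := 4) (k2 := 0) (m1 := 0) (m2 := 5) (by norm_num) (by norm_num)
          (by norm_num) (by linarith)
        · push_cast
          linarith
        · push_cast
          linarith
      · apply Pk_two hll.ne' (a := 1400) (b := 560) (k1 := 3) (k2 := 0) (m1 := 1) (m2 := 5) (by norm_num) (by norm_num)
          (by norm_num) (by linarith)
        · push_cast
          linarith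
        · push_cast
          linarith
    · rintro l hl ⟨l1, hl1, l2, hl2, hll2, hl21⟩
      obtain ⟨q, hq, rfl⟩ := Finset.mem_image.1 hl
      obtain ⟨p, hp, rfl⟩ := Finset.mem_image.1 hl1
      obtain ⟨p', hp', rfl⟩ := Finset.mem_image.1 hl2
      have h4 := h3 q hq ⟨p, hp, p', hp', hlt p' hp' q hq hll2, hlt p hp p' hp' hl21⟩
      have h5 : (ty G T n).filter (fun l => ce G T q ≤ l) ⊆ (n.primeFactors.filter (fun p => q ≤ p)).image (ce G T) := by
        intro m hm
        rw [Finset.mem_filter] at hm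
        obtain ⟨r, hr, rfl⟩ := Finset.mem_image.1 hm.1
        refine Finset.mem_image.2 ⟨r, Finset.mem_filter.2 ⟨hr, ?_⟩, rfl⟩
        by_contra hc
        push Not at hc
        have h6 := ce_mono' (G := G) hT (hpos r hr) hc.le
        have h7 : ce G T r = ce G T q := le_antisymm h6 hm.2
        exact hc.ne (hinj (by exact_mod_cast hr) (by exact_mod_cast hq) h7)
      have h6 : ∑ l ∈ (ty G T n).filter (fun l => ce G T q ≤ l), (l : ℝ) / G ≤
          ∑ p ∈ n.primeFactors.filter (fun p => q ≤ p), yy T p + e / 4 := by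
        calc ∑ l ∈ (ty G T n).filter (fun l => ce G T q ≤ l), (l : ℝ) / G
            ≤ ∑ l ∈ (n.primeFactors.filter (fun p => q ≤ p)).image (ce G T), (l : ℝ) / G :=
              Finset.sum_le_sum_of_subset_of_nonneg h5 (fun _ _ _ => by positivity)
          _ = ∑ p ∈ n.primeFactors.filter (fun p => q ≤ p), (ce G T p : ℝ) / G := by
              rw [Finset.sum_image]
              intro a ha b hb hab
              rw [Finset.mem_coe, Finset.mem_filter] at ha hb
              exact hinj (by exact_mod_cast ha.1) (by exact_mod_cast hb.1) hab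
          _ ≤ ∑ p ∈ n.primeFactors.filter (fun p => q ≤ p), (yy T p + 1 / G) :=
              Finset.sum_le_sum fun p _ => ce_up hG hT p
          _ = ∑ p ∈ n.primeFactors.filter (fun p => q ≤ p), yy T p +
              ((n.primeFactors.filter (fun p => q ≤ p)).card : ℝ) * (1 / G) := by
              rw [Finset.sum_add_distrib, Finset.sum_const, nsmul_eq_mul]
          _ ≤ ∑ p ∈ n.primeFactors.filter (fun p => q ≤ p), yy T p + (n.primeFactors.card : ℝ) * (1 / G) := by
              have : ((n.primeFactors.filter (fun p => q ≤ p)).card : ℝ) ≤ n.primeFactors.card := by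
                exact_mod_cast Finset.card_filter_le _ _
              have := mul_le_mul_of_nonneg_right this (by positivity : 0 ≤ 1 / (G : ℝ))
              linarith
          _ ≤ _ := by
              rw [mul_one_div]
              linarith
      have h7 := hx q
      push_cast
      linarith
  obtain ⟨f, hf1, hf2⟩ := hP
  refine ⟨f, fun l hl => (hf1 l hl).ge, fun j => ?_⟩
  have h8 := hf2 j
  have h9 : ∑ l ∈ ty G T n, (f j l : ℝ) * ((l : ℝ) / G) = (∑ l ∈ ty G T n, (f j l : ℝ) * l) / G := by
    rw [Finset.sum_div]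
    refine Finset.sum_congr rfl fun l _ => ?_
    ring
  rw [h9, div_le_iff₀ hG'] at h8
  push_cast
  exact h8

end Pool.Agent.Helper57.PR
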