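import Pool.Agent.Helper57.PR.S3
import Pool.Agent.Helper69.PQ.A3d

/-!
# PR-NumA: numerators, with the sharper bounds of `sinc`
-/

open MeasureTheory Set Filter Topology
open Pool.Agent.Helper57.Zeta Pool.Agent.Helper57.PC Pool.Agent.Helper57.LH Pool.Agent.Helper78.SG
open Pool.Agent.Helper4.SH

namespace Pool.Agent.Helper57.PR

open Pool.Agent.Helper69

/-- the value of the mean of `W` over the numerators, `c = 103/200`, `θ = 1/2 - 2/10^5` -/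
private theorem num69 {ε : ℝ} (hε : 0 < ε) (hε1 : ε ≤ 1 / 10 ^ 10) :
    252859 / 1000000 * (1 / 2 + ε) ≤ (103 / 200 : ℝ) * (1 / 2 - 2 * (1 / 100000)) ^ 2 -
      Real.pi ^ 2 * (103 / 200) ^ 3 / 6 * (1 / 2 - 2 * (1 / 100000)) ^ 4 / 6 +
      Real.pi ^ 4 * (103 / 200) ^ 5 / 120 * (1 / 2 - 2 * (1 / 100000)) ^ 6 / 15 -
      Real.pi ^ 6 * (103 / 200) ^ 7 / 5040 * (1 / 2 - 2 * (1 / 100000)) ^ 8 / 28 - 8 * ε := by
  have h1 : Real.pi ≤ 3.141593 := Real.pi_lt_d6.le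
  have h2 : 3.141592 ≤ Real.pi := Real.pi_gt_d6.le
  have h0 : 0 ≤ Real.pi := Real.pi_pos.le
  have e2 : Real.pi ^ 2 ≤ 3.141593 ^ 2 := pow_le_pow_left₀ h0 h1 2
  have e4 : 3.141592 ^ 4 ≤ Real.pi ^ 4 := pow_le_pow_left₀ (by norm_num) h2 4
  have e6 : Real.pi ^ 6 ≤ 3.141593 ^ 6 := pow_le_pow_left₀ h0 h1 6
  generalize Real.pi ^ 2 = a at *
  generalize Real.pi ^ 4 = b at *
  generalize Real.pi ^ 6 = d at *
  norm_num at e2 e4 e6 ⊢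
  nlinarith

/-- numerators -/
theorem sumA2 (P : PQ.Par) (hPe : P.e = 1 / 100000) (hPc : P.c = 103 / 200) {ε : ℝ} (hε : 0 < ε) (hε1 : ε ≤ 1 / 10 ^ 10)
    (hδ : P.δ ≤ ε) (hF : PQ.Flat P ε) (hC : PQ.Coll P ε) : ∀ᶠ T : ℝ in atTop,
    1 ≤ ∑ m ∈ PQ.NA P T, 1 / (m : ℝ) ∧
    252859 / 1000000 * (∑ m ∈ PQ.NA P T, 1 / (m : ℝ)) ≤ ∑ m ∈ PQ.NA P T, PP.Wn P.c T m / m := by
  have hθ1 : (1 : ℝ) / 10 ≤ 1 / 2 - 2 * P.e := by rw [hPe]; norm_num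
  have hθ2 : 1 / 2 - 2 * P.e ≤ 1 / 2 := by rw [hPe]; norm_num
  filter_upwards [hF, hC, RW_ge2 P.hc P.hc1 P.hδ P.hδ1 hε hδ hθ1 hθ2, PQ.sumA P hPe hε hδ hF hC,
    eventually_gt_atTop 1] with T hT1 hT2 hT3 hT4 hT
  obtain ⟨hv1, hv2, hfl⟩ := hT1
  obtain ⟨hA1, hA2, -⟩ := hT4
  refine ⟨hA1, ?_⟩
  have hlog : 0 < Real.log T := Real.log_pos hT
  have hFL : FL ⌈T ^ P.δ⌉₊ T (PQ.vT P T) ε := hfl
  have hRW := hT3 (PQ.vT P T) hv1 hv2 hFL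
  have hle : ∀ m : ℕ, (m : ℝ) ≤ T ^ (1 / 2 - 2 * P.e) → (m : ℝ) ≤ T := by
    intro m hm
    refine hm.trans ?_
    calc T ^ (1 / 2 - 2 * P.e) ≤ T ^ (1 : ℝ) :=
          Real.rpow_le_rpow_of_exponent_le hT.le (by linarith)
      _ = T := Real.rpow_one T
  have hpos : ∀ m ∈ PQ.NA P T, 0 ≤ PP.Wn P.c T m / m := by
    intro m hm
    have hg := (PQ.mem_NA.1 hm).1
    have hsq := (PQ.Gd_iff.1 hg).2.1
    have hm0 : m ≠ 0 := hsq.ne_zero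
    have hml := PQ.NA_le hT hm
    have hyb : ∀ p ∈ m.primeFactors, yy T p ≤ 1 / 2 := by
      intro p hp
      have hpm : p ≤ m := Nat.le_of_mem_primeFactors hp
      have hp0 : (0 : ℝ) < p := by exact_mod_cast (Nat.prime_of_mem_primeFactors hp).pos
      have h1 : (p : ℝ) ≤ T ^ ((1 : ℝ) / 2) := (by exact_mod_cast hpm : (p : ℝ) ≤ m).trans hml
      unfold yy
      rw [div_le_iff₀ hlog]
      calc Real.log p ≤ Real.log (T ^ ((1 : ℝ) / 2)) := Real.log_le_log hp0 h1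
        _ = 1 / 2 * Real.log T := Real.log_rpow (by linarith) _
    have h1 := PQ.Wn_ge (c := P.c) (b := 1 / 2) P.hc.le hT hsq hyb (by norm_num)
    have h2 : 0 ≤ yy T m := by
      unfold yy
      exact div_nonneg (Real.log_natCast_nonneg m) hlog.le
    have h3 : 0 ≤ P.c - PQ.kap P.c * (1 / 2) ^ 2 := by
      unfold PQ.kap
      have hpi : Real.pi ^ 2 ≤ 10 := by
        have h4 := Real.pi_lt_d2
        have h5 := Real.pi_pos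
        nlinarith
      have hc0 := P.hc
      have hc1 := P.hc1
      have h6 : P.c ^ 2 ≤ 1 := by nlinarith
      have h7 : Real.pi ^ 2 * P.c ^ 2 ≤ 10 := by
        calc Real.pi ^ 2 * P.c ^ 2 ≤ 10 * 1 :=
              mul_le_mul hpi h6 (sq_nonneg _) (by norm_num)
          _ = 10 := by norm_num
      have h8 : P.c - Real.pi ^ 2 * P.c ^ 3 / 6 * (1 / 2) ^ 2 =
          P.c * (1 - Real.pi ^ 2 * P.c ^ 2 / 24) := by ring
      rw [h8]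
      exact mul_nonneg hc0.le (by linarith)
    apply div_nonneg _ (Nat.cast_nonneg m)
    refine le_trans ?_ h1
    positivity
  classical
  have hsplit := Finset.sum_filter_add_sum_filter_not (PQ.RN (PQ.NS P T) (T ^ (1 / 2 - 2 * P.e)))
    (fun n => PQ.Gd P T n) (fun n => PP.Wn P.c T n / n)
  have hA : ∑ n ∈ (PQ.RN (PQ.NS P T) (T ^ (1 / 2 - 2 * P.e))).filter (fun n => PQ.Gd P T n),
      PP.Wn P.c T n / n ≤ ∑ m ∈ PQ.NA P T, PP.Wn P.c T m / m := by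
    apply Finset.sum_le_sum_of_subset_of_nonneg
    · intro m hm
      rw [Finset.mem_filter] at hm
      exact PQ.mem_NA_of hT hm.2 (PQ.mem_RN.1 hm.1).2.1
    · intro m hm _; exact hpos m hm
  have hB : ∑ n ∈ (PQ.RN (PQ.NS P T) (T ^ (1 / 2 - 2 * P.e))).filter (fun n => ¬ PQ.Gd P T n),
      PP.Wn P.c T n / n ≤ 2 * ε := by
    have h1 : ∀ n ∈ (PQ.RN (PQ.NS P T) (T ^ (1 / 2 - 2 * P.e))).filter (fun n => ¬ PQ.Gd P T n),
        PP.Wn P.c T n / n ≤ 2 * (1 / (n : ℝ)) := by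
      intro n hn
      rw [Finset.mem_filter] at hn
      have h2 := PQ.mem_RN.1 hn.1
      have h3 := PQ.Wn_le (c := P.c) P.hc.le P.hc1.le hT h2.1 (hle n h2.2.1)
      have h4 : PP.Wn P.c T n ≤ 2 := (le_abs_self _).trans h3
      rw [div_eq_mul_one_div]
      exact mul_le_mul_of_nonneg_right h4 (by positivity)
    refine (Finset.sum_le_sum h1).trans ?_
    rw [← Finset.mul_sum]
    refine mul_le_mul_of_nonneg_left (le_trans ?_ hT2) (by norm_num)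
    refine le_trans (Finset.sum_le_sum_of_subset_of_nonneg
      (t := (PQ.RN (PQ.NS P T) T).filter (fun n => ¬ PQ.Gd P T n)) ?_ ?_) (le_of_eq ?_)
    · intro n hn
      rw [Finset.mem_filter] at hn ⊢
      have h2 := PQ.mem_RN.1 hn.1
      exact ⟨PQ.mem_RN.2 ⟨h2.1, hle n h2.2.1, h2.2.2⟩, hn.2⟩
    · intros; positivity
    · congr!
  have hRW' : PQ.vT P T * (P.c * (1 / 2 - 2 * P.e) ^ 2 - Real.pi ^ 2 * P.c ^ 3 / 6 * (1 / 2 - 2 * P.e) ^ 4 / 6 +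
      Real.pi ^ 4 * P.c ^ 5 / 120 * (1 / 2 - 2 * P.e) ^ 6 / 15 -
      Real.pi ^ 6 * P.c ^ 7 / 5040 * (1 / 2 - 2 * P.e) ^ 8 / 28 - 4 * ε) ≤
      ∑ n ∈ PQ.RN (PQ.NS P T) (T ^ (1 / 2 - 2 * P.e)), PP.Wn P.c T n / n := hRW
  have hn := num69 hε hε1
  rw [hPe, hPc] at hRW'
  obtain ⟨V, hV⟩ : ∃ V, V = (103 / 200 : ℝ) * (1 / 2 - 2 * (1 / 100000)) ^ 2 -
      Real.pi ^ 2 * (103 / 200) ^ 3 / 6 * (1 / 2 - 2 * (1 / 100000)) ^ 4 / 6 +
      Real.pi ^ 4 * (103 / 200) ^ 5 / 120 * (1 / 2 - 2 * (1 / 100000)) ^ 6 / 15 -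
      Real.pi ^ 6 * (103 / 200) ^ 7 / 5040 * (1 / 2 - 2 * (1 / 100000)) ^ 8 / 28 := ⟨_, rfl⟩
  rw [← hV] at hn hRW'
  rw [hPe, hPc] at hsplit hA hB
  have h5 : 2 * ε ≤ 4 * ε * PQ.vT P T := by nlinarith
  have h6 : 252859 / 1000000 * ∑ m ∈ PQ.NA P T, 1 / (m : ℝ) ≤ 252859 / 1000000 * ((1 / 2 + ε) * PQ.vT P T) :=
    mul_le_mul_of_nonneg_left hA2 (by norm_num)
  have h7 : 252859 / 1000000 * (1 / 2 + ε) * PQ.vT P T ≤ (V - 8 * ε) * PQ.vT P T :=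
    mul_le_mul_of_nonneg_right hn (by linarith)
  rw [hPc]
  nlinarith

end Pool.Agent.Helper57.PR
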