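import Mathlib

/-!
# PR: packing `D` copies of every item into `C` bins, first fit decreasing
-/

namespace Pool.Agent.Helper57.PR

/-- `D` copies of every item of `σ` fit into `C` bins of capacity `cap` -/
def Pk (C D : ℕ) (cap : ℝ) (x : ℕ → ℝ) (σ : Finset ℕ) : Prop :=
  ∃ f : Fin C → ℕ → ℕ, (∀ l ∈ σ, ∑ j, f j l = D) ∧ ∀ j, ∑ l ∈ σ, (f j l : ℝ) * x l ≤ cap

theorem Pk_empty (C D : ℕ) {cap : ℝ} (x : ℕ → ℝ) (h : 0 ≤ cap) : Pk C D cap x ∅ :=
  ⟨fun _ _ => 0, by simp, by simpa using fun _ => h⟩

/-- one more item -/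
theorem Pk_insert {C D : ℕ} (hC : 0 < C) {cap : ℝ} {x : ℕ → ℝ} {σ : Finset ℕ} {q : ℕ} (h : Pk C D cap x σ) (hq : q ∉ σ)
    (hxq : 0 ≤ x q) (hc : D * (∑ l ∈ σ, x l + x q) + C * x q ≤ C * cap) : Pk C D cap x (insert q σ) := by
  classical
  obtain ⟨f, hf1, hf2⟩ := h
  have key : ∀ i : ℕ, i ≤ D → ∃ g : Fin C → ℕ, ∑ j, g j = i ∧ ∀ j, ∑ l ∈ σ, (f j l : ℝ) * x l + g j * x q ≤ cap := by
    intro i
    induction i with
    | zero =>
      intro _
      exact ⟨fun _ => 0, by simp, by simpa using hf2⟩
    | succ i ih =>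
      intro hi
      obtain ⟨g, hg1, hg2⟩ := ih (by omega)
      by_contra hcon
      have hall : ∀ j, cap < ∑ l ∈ σ, (f j l : ℝ) * x l + g j * x q + x q := by
        intro j
        by_contra hj
        push Not at hj
        apply hcon
        refine ⟨Function.update g j (g j + 1), ?_, ?_⟩
        · rw [Finset.sum_update_of_mem (Finset.mem_univ j), ← hg1, ← Finset.add_sum_erase _ _ (Finset.mem_univ j),
            Finset.sdiff_singleton_eq_erase]
          ring
        · intro k
          by_cases hk : k = j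
          · subst hk
            rw [Function.update_self]
            push_cast
            linarith
          · rw [Function.update_of_ne hk]
            exact hg2 k
      have hsum : ∑ j : Fin C, cap < ∑ j : Fin C, (∑ l ∈ σ, (f j l : ℝ) * x l + g j * x q + x q) :=
        Finset.sum_lt_sum_of_nonempty (by
          have : Nonempty (Fin C) := ⟨⟨0, hC⟩⟩
          exact Finset.univ_nonempty) fun j _ => hall j
      rw [Finset.sum_const, Finset.card_univ, Fintype.card_fin, nsmul_eq_mul, Finset.sum_add_distrib,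
        Finset.sum_add_distrib, Finset.sum_const, Finset.card_univ, Fintype.card_fin, nsmul_eq_mul,
        ← Finset.sum_mul, Finset.sum_comm] at hsum
      have h1 : ∑ l ∈ σ, ∑ j : Fin C, (f j l : ℝ) * x l = D * ∑ l ∈ σ, x l := by
        rw [Finset.mul_sum]
        refine Finset.sum_congr rfl fun l hl => ?_
        rw [← Finset.sum_mul, ← hf1 l hl]
        push_cast
        rfl
      have h2 : (∑ j : Fin C, (g j : ℝ)) = i := by exact_mod_cast hg1
      rw [h1, h2] at hsum
      have h3 : (i : ℝ) ≤ D := by exact_mod_cast (by omega : i ≤ D)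
      have h4 := mul_le_mul_of_nonneg_right h3 hxq
      linarith
  obtain ⟨g, hg1, hg2⟩ := key D le_rfl
  refine ⟨fun j l => if l = q then g j else f j l, ?_, ?_⟩
  · intro l hl
    rcases Finset.mem_insert.1 hl with rfl | hl
    · simpa using hg1
    · have hlq : l ≠ q := fun h => hq (h ▸ hl)
      simpa [hlq] using hf1 l hl
  · intro j
    rw [Finset.sum_insert hq]
    have h1 : ∑ l ∈ σ, ((if l = q then g j else f j l : ℕ) : ℝ) * x l = ∑ l ∈ σ, (f j l : ℝ) * x l := by
      refine Finset.sum_congr rfl fun l hl => ?_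
      have hlq : l ≠ q := fun h => hq (h ▸ hl)
      simp [hlq]
    rw [h1]
    simp only [if_true]
    have := hg2 j
    linarith

private theorem sum_blocks57 {C a b : ℕ} (h : a + b ≤ C) (u w : ℕ) :
    ∑ j : Fin C, (if j.val < a then u else if j.val < a + b then w else 0) = a * u + b * w := by
  rw [Fin.sum_univ_eq_sum_range (fun j => if j < a then u else if j < a + b then w else 0) C]
  obtain ⟨c, rfl⟩ := Nat.exists_eq_add_of_le h
  rw [Finset.sum_range_add, Finset.sum_range_add]
  have h1 : ∑ j ∈ Finset.range a, (if j < a then u else if j < a + b then w else 0) = a * u := by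
    rw [Finset.sum_congr rfl (g := fun _ => u) fun j hj => by rw [if_pos (Finset.mem_range.1 hj)]]
    simp
  have h2 : ∑ j ∈ Finset.range b, (if a + j < a then u else if a + j < a + b then w else 0) = b * w := by
    rw [Finset.sum_congr rfl (g := fun _ => w) fun j hj => by
      rw [if_neg (by omega), if_pos (by have := Finset.mem_range.1 hj; omega)]]
    simp
  have h3 : ∑ j ∈ Finset.range c, (if a + b + j < a then u else if a + b + j < a + b then w else 0) = 0 := by
    rw [Finset.sum_congr rfl (g := fun _ => 0) fun j hj => by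
      rw [if_neg (by omega), if_neg (by omega)]]
    simp
  rw [h1, h2, h3, add_zero]

/-- one item by hand -/
theorem Pk_one {C D : ℕ} {cap : ℝ} {x : ℕ → ℝ} {l : ℕ} {a k : ℕ} (h : a ≤ C) (hD : a * k = D)
    (hcap : 0 ≤ cap) (h1 : (k : ℝ) * x l ≤ cap) : Pk C D cap x {l} := by
  refine ⟨fun j _ => if j.val < a then k else if j.val < a + 0 then 0 else 0, ?_, ?_⟩
  · intro l' _
    rw [sum_blocks57 (by omega)]
    omega
  · intro j
    rw [Finset.sum_singleton]
    dsimp only
    split_ifs <;> simp [h1, hcap]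

/-- two items by hand: `a` bins with `k1` copies of the first and `m1` copies of the second item, `b` bins with `k2` and `m2` -/
theorem Pk_two {C D : ℕ} {cap : ℝ} {x : ℕ → ℝ} {l1 l2 : ℕ} (hne : l1 ≠ l2) {a b k1 k2 m1 m2 : ℕ} (h : a + b ≤ C)
    (hD1 : a * k1 + b * k2 = D) (hD2 : a * m1 + b * m2 = D) (hcap : 0 ≤ cap)
    (h1 : (k1 : ℝ) * x l1 + m1 * x l2 ≤ cap) (h2 : (k2 : ℝ) * x l1 + m2 * x l2 ≤ cap) : Pk C D cap x {l1, l2} := by
  refine ⟨fun j l => if l = l1 then (if j.val < a then k1 else if j.val < a + b then k2 else 0) else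
    (if j.val < a then m1 else if j.val < a + b then m2 else 0), ?_, ?_⟩
  · intro l hl
    rw [Finset.mem_insert, Finset.mem_singleton] at hl
    rcases hl with rfl | rfl
    · simp only [if_true]
      rw [sum_blocks57 h, hD1]
    · simp only [hne.symm, if_false]
      rw [sum_blocks57 h, hD2]
  · intro j
    rw [Finset.sum_pair hne]
    simp only [if_true, hne.symm, if_false]
    split_ifs
    · exact h1
    · exact h2
    · simpa using hcap

/-- first fit decreasing -/
theorem Pk_all {C D : ℕ} (hC : 0 < C) {cap : ℝ} {x : ℕ → ℝ} (hx : ∀ l, 0 ≤ x l) (hcap : 0 ≤ cap) (τ : Finset ℕ)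
    (h1 : ∀ l ∈ τ, Pk C D cap x {l}) (h2 : ∀ l ∈ τ, ∀ l' ∈ τ, l' < l → Pk C D cap x {l, l'})
    (h3 : ∀ q ∈ τ, (∃ l ∈ τ, ∃ l' ∈ τ, q < l' ∧ l' < l) →
      D * (∑ l ∈ τ.filter (fun l => q ≤ l), x l) + C * x q ≤ C * cap) : Pk C D cap x τ := by
  classical
  induction τ using Finset.induction_on_min with
  | empty => exact Pk_empty C D x hcap
  | insert a s hs ih =>
    have has : a ∉ s := fun h => lt_irrefl _ (hs a h)
    by_cases hcase : ∃ l ∈ s, ∃ l' ∈ s, l' < l
    · obtain ⟨l, hl, l', hl', hll⟩ := hcase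
      have hP : Pk C D cap x s := by
        apply ih
        · intro l hl
          exact h1 l (Finset.mem_insert_of_mem hl)
        · intro l hl l' hl'
          exact h2 l (Finset.mem_insert_of_mem hl) l' (Finset.mem_insert_of_mem hl')
        · rintro q hq ⟨l, hl, l', hl', hql, hl2⟩
          have h4 := h3 q (Finset.mem_insert_of_mem hq) ⟨l, Finset.mem_insert_of_mem hl, l', Finset.mem_insert_of_mem hl', hql, hl2⟩
          rwa [Finset.filter_insert, if_neg (by have := hs q hq; omega)] at h4
      have h4 := h3 a (Finset.mem_insert_self a s) ⟨l, Finset.mem_insert_of_mem hl, l', Finset.mem_insert_of_mem hl',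
        hs l' hl', hll⟩
      rw [Finset.filter_true_of_mem (by
        intro y hy
        rcases Finset.mem_insert.1 hy with rfl | hy
        · exact le_rfl
        · exact (hs y hy).le), Finset.sum_insert has, add_comm (x a)] at h4
      exact Pk_insert hC hP has (hx a) h4
    · rcases s.eq_empty_or_nonempty with rfl | ⟨l, hl⟩
      · simpa using h1 a (Finset.mem_insert_self a _)
      · have hsl : s = {l} := by
          apply Finset.eq_singleton_iff_unique_mem.2
          refine ⟨hl, fun y hy => ?_⟩
          by_contra hne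
          rcases lt_or_gt_of_ne hne with h | h
          · exact hcase ⟨l, hl, y, hy, h⟩
          · exact hcase ⟨y, hy, l, hl, h⟩
        subst hsl
        have h5 := h2 l (Finset.mem_insert_of_mem hl) a (Finset.mem_insert_self a _) (hs l hl)
        rwa [Finset.pair_comm] at h5

end Pool.Agent.Helper57.PR
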