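import Pool.Agent.Helper69.PP.A0a
import Pool.Agent.Helper69.PP.A0b
import Pool.Agent.Helper69.PP.A0c
import Pool.Agent.Helper57.PP.Box53

/-!
# PR: the sum over the denominators, constant `0.515` (definitions)

Notation: `y_n = yy T n`. Everything is deterministic: hypotheses `FL` (flat density of the rough numbers) and `MT` (Mertens away
from `0`) at one `T`.
-/

open MeasureTheory Set Filter Topology
open Pool.Agent.Helper57.Zeta Pool.Agent.Helper57.PC Pool.Agent.Helper57.LH Pool.Agent.Helper78.SG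
open Pool.Agent.Helper4.SH
open Pool.Agent.Helper69.PP

namespace Pool.Agent.Helper57.PR

/-- flat density of the rough numbers -/
def FL (N : ℕ) (T v ε : ℝ) : Prop := ∀ θ ∈ Icc (0:ℝ) 1, θ * v ≤ RS N (T ^ θ) ∧ RS N (T ^ θ) ≤ (θ + ε) * v

/-- the primes with `u < y_p ≤ u'` -/
noncomputable def PI (T u u' : ℝ) : Finset ℕ := (PP T).filter (fun p => u < yy T p ∧ yy T p ≤ u')

/-- `∑ y_p^k/p` over the primes with `u < y_p ≤ u'` -/
noncomputable def SP (T : ℝ) (k : ℕ) (u u' : ℝ) : ℝ := ∑ p ∈ PI T u u', yy T p ^ k / p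

/-- Mertens, away from `0` -/
def MT (T a ε : ℝ) : Prop := ∀ u u' : ℝ, a ≤ u → u ≤ u' → u' ≤ 1 →
  |SP T 0 u u' - Real.log (u' / u)| ≤ ε ∧ ∀ k : ℕ, 1 ≤ k → k ≤ 6 → |SP T k u u' - (u' ^ k - u ^ k) / k| ≤ ε

open Classical in
/-- class J: a prime factor above `T^a` -/
noncomputable def JC (N : ℕ) (T s a : ℝ) : Finset ℕ :=
  (RN N (T ^ s)).filter (fun n => ∃ p ∈ n.primeFactors, a < yy T p)

open Classical in
/-- class R: two primes in a box -/
noncomputable def RC (N : ℕ) (T s a b h U : ℝ) : Finset ℕ :=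
  (RN N (T ^ s)).filter (fun n => ∃ p ∈ n.primeFactors, ∃ p' ∈ n.primeFactors, p ≠ p' ∧ a < yy T p ∧ yy T p ≤ b ∧
    h < yy T p' ∧ yy T p' ≤ U)

open Classical in
/-- class T: `n = q d r`, `d` the product of the primes above `q` (at least two), `s - y_q - y_d ∈ [t₁ y_q, t₂ y_q)` -/
noncomputable def TC (N : ℕ) (T s a b t1 t2 : ℝ) : Finset ℕ :=
  (RN N (T ^ s)).filter (fun n => ∃ q ∈ n.primeFactors, a < yy T q ∧ yy T q ≤ b ∧ ∃ d r : ℕ, n = q * d * r ∧ Squarefree d ∧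
    2 ≤ d.primeFactors.card ∧ (∀ p ∈ d.primeFactors, q < p ∧ yy T p ≤ 1 / 3) ∧
    s - t2 * yy T q < yy T q + yy T d ∧ yy T q + yy T d ≤ s - t1 * yy T q)

open Classical in
/-- the cofactors `d' ≠ 1`: squarefree, all primes above `q` and at most `T^(1/3)`, size in `(X, Y]` -/
noncomputable def DS (T : ℝ) (q : ℕ) (X Y : ℝ) : Finset ℕ :=
  (Finset.Icc 1 ⌊T⌋₊).filter (fun d => Squarefree d ∧ d ≠ 1 ∧ (∀ p ∈ d.primeFactors, q < p ∧ yy T p ≤ 1 / 3) ∧
    X < yy T d ∧ yy T d ≤ Y)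

end Pool.Agent.Helper57.PR
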