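import Pool.Agent.Helper57.PR.S1

/-!
# PR-S5: class J (a prime factor above `T^a`)

`n = p m`, `m ≤ T^(s - y_p)`: `mom_prod` with `D` = the primes in `(a, s]` and `w p = 2 c s - λ - 2 k y_p³ + 2 h y_p⁵`; then Mertens
(`SP` with `k = 0..6`) for `(w_y (s-y) - c (s-y)²) / y`, expanded in powers of `y` (the constant term gives the logarithm).
-/

open MeasureTheory Set Filter Topology
open Pool.Agent.Helper57.Zeta Pool.Agent.Helper57.PC Pool.Agent.Helper57.LH Pool.Agent.Helper78.SG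
open Pool.Agent.Helper4.SH
open Pool.Agent.Helper69.PP

namespace Pool.Agent.Helper57.PR

/-- the measure of class J: `∫_a^s ((2cy - 2ky³ + 2hy⁵ - λ)(s-y) + c(s-y)²) dy/y` -/
noncomputable def JV (s a c lam k h : ℝ) : ℝ :=
  (c * s ^ 2 - lam * s) * Real.log (s / a) + lam * (s - a) - c * (s ^ 2 - a ^ 2) / 2 - 2 * k * s * (s ^ 3 - a ^ 3) / 3 +
    k * (s ^ 4 - a ^ 4) / 2 + 2 * h * s * (s ^ 5 - a ^ 5) / 5 - h * (s ^ 6 - a ^ 6) / 3

/-- membership in `PI` -/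
theorem mem_PI76 {T u u' : ℝ} {p : ℕ} : p ∈ PI T u u' ↔ p ∈ PP T ∧ u < yy T p ∧ yy T p ≤ u' := by
  unfold PI
  rw [Finset.mem_filter]

/-- membership in `PP` by size -/
theorem mem_PP76 {T : ℝ} (hT : 1 < T) {p : ℕ} (hp : p.Prime) (h : yy T p ≤ 1) : p ∈ PP T := by
  unfold PP
  rw [Finset.mem_filter, Finset.mem_range]
  refine ⟨?_, hp⟩
  have h1 := (le_rpow_iff hT hp.ne_zero).2 h
  rw [Real.rpow_one] at h1
  exact Nat.lt_succ_of_le (Nat.le_floor h1)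

/-- the cofactor of a prime divisor -/
theorem cof76 {N : ℕ} {T s : ℝ} (hT : 1 < T) {n p : ℕ} (hn : n ∈ RN N (T ^ s)) (hp : p ∈ n.primeFactors) :
    n = p * (n / p) ∧ yy T p ≤ s ∧ n / p ∈ RN N (T ^ (s - yy T p)) := by
  obtain ⟨h1, h2, h3⟩ := (mem_RN_yy hT).1 hn
  have hpp := Nat.prime_of_mem_primeFactors hp
  have hpd := Nat.dvd_of_mem_primeFactors hp
  have h4 : n = p * (n / p) := (Nat.mul_div_cancel' hpd).symm
  have h5 : n / p ≠ 0 := by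
    intro h
    rw [h, mul_zero] at h4
    exact h1 h4
  have h6 : yy T n = yy T p + yy T (n / p) := by
    conv_lhs => rw [h4]
    exact yy_mul' hT hpp.ne_zero h5
  have h7 := yy_nonneg' hT (n / p)
  refine ⟨h4, by linarith, (mem_RN_yy hT).2 ⟨h5, by linarith, fun q hq => h3 q ?_⟩⟩
  exact Nat.primeFactors_mono (Nat.div_dvd_of_dvd hpd) h1 hq

/-- error of one term -/
theorem term76 {c C S X ε : ℝ} (hc0 : 0 ≤ c) (hc : c ≤ C) (hε : 0 ≤ ε) (h : S ≤ X + ε) : c * S ≤ c * X + C * ε :=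
  calc c * S ≤ c * (X + ε) := mul_le_mul_of_nonneg_left h hc0
    _ = c * X + c * ε := by ring
    _ ≤ c * X + C * ε := by linarith [mul_le_mul_of_nonneg_right hc hε]

/-- error of one term -/
theorem term76' {c C S X ε : ℝ} (hc0 : 0 ≤ c) (hc : c ≤ C) (hε : 0 ≤ ε) (h : X - ε ≤ S) : -(c * S) ≤ -(c * X) + C * ε := by
  have h1 := mul_le_mul_of_nonneg_left h hc0
  have h2 := mul_le_mul_of_nonneg_right hc hε
  have h3 : c * (X - ε) = c * X - c * ε := by ring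
  linarith

/-- the arithmetic of class J -/
theorem arithJ76 {ε s a c lam k h S0 S1 S2 S3 S4 S5 S6 : ℝ} (hε : 0 < ε) (hε1 : ε ≤ 1 / 1000)
    (ha : 1 / 10 ≤ a) (has : a ≤ s) (hs1 : s ≤ 1 / 2)
    (hc0 : 0 ≤ c) (hc1 : c ≤ 1) (hl0 : 0 ≤ lam) (hl1 : lam ≤ 1) (hk0 : 0 ≤ k) (hk1 : k ≤ 1) (hh0 : 0 ≤ h) (hh1 : h ≤ 1)
    (hS0 : 0 ≤ S0) (hS3 : 0 ≤ S3)
    (h0 : -ε ≤ S0 - Real.log (s / a) ∧ S0 - Real.log (s / a) ≤ ε)
    (h1 : S1 ≤ (s - a) + ε) (h2 : (s ^ 2 - a ^ 2) / 2 - ε ≤ S2) (h3 : (s ^ 3 - a ^ 3) / 3 - ε ≤ S3)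
    (h4 : S4 ≤ (s ^ 4 - a ^ 4) / 4 + ε) (h5 : S5 ≤ (s ^ 5 - a ^ 5) / 5 + ε) (h6 : (s ^ 6 - a ^ 6) / 6 - ε ≤ S6) :
    (c * s ^ 2 - lam * s) * S0 + lam * S1 - c * S2 - 2 * k * s * S3 +
        2 * k * S4 + 2 * h * s * S5 - 2 * h * S6 +
        ε * ((2 * c * s - lam) * S0 - 2 * k * S3 + 2 * h * S5) ≤ JV s a c lam k h + 1000 * ε := by
  have hs0 : 0 ≤ s := by linarith
  have p2 : s ^ 2 ≤ 1 := pow_le_one₀ hs0 (by linarith)
  have p5 : s ^ 5 ≤ 1 := pow_le_one₀ hs0 (by linarith)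
  have a5 : 0 ≤ a ^ 5 := by
    have : 0 ≤ a := by linarith
    positivity
  have hlog : Real.log (s / a) ≤ 4 := by
    have h1 : s / a ≤ 5 := by
      rw [div_le_iff₀ (by linarith)]
      linarith
    have h2 : 0 < s / a := by
      have : 0 < s := by linarith
      have : 0 < a := by linarith
      positivity
    have h3 := Real.log_le_sub_one_of_pos h2
    linarith
  have cs : 0 ≤ c * s := mul_nonneg hc0 hs0
  have cs1 : c * s ≤ 1 / 2 := by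
    have := mul_le_mul hc1 hs1 hs0 zero_le_one
    linarith
  have ls1 : lam * s ≤ 1 / 2 := by
    have := mul_le_mul hl1 hs1 hs0 zero_le_one
    linarith
  have ks1 : k * s ≤ 1 / 2 := by
    have := mul_le_mul hk1 hs1 hs0 zero_le_one
    linarith
  have hs1' : h * s ≤ 1 / 2 := by
    have := mul_le_mul hh1 hs1 hs0 zero_le_one
    linarith
  have ks0 : 0 ≤ k * s := mul_nonneg hk0 hs0
  have hs0' : 0 ≤ h * s := mul_nonneg hh0 hs0
  have ls0 : 0 ≤ lam * s := mul_nonneg hl0 hs0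
  have cs2 : c * s ^ 2 ≤ 1 := by
    have := mul_le_mul hc1 p2 (sq_nonneg s) zero_le_one
    linarith
  have cs3 : 0 ≤ c * s ^ 2 := mul_nonneg hc0 (sq_nonneg s)
  -- the errors term by term
  have e0 : (c * s ^ 2 - lam * s) * S0 ≤ (c * s ^ 2 - lam * s) * Real.log (s / a) + ε := by
    have h1 : |c * s ^ 2 - lam * s| ≤ 1 := by
      rw [abs_le]
      constructor <;> linarith
    have h2 : |(c * s ^ 2 - lam * s) * (S0 - Real.log (s / a))| ≤ 1 * ε := by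
      rw [abs_mul]
      exact mul_le_mul h1 (abs_le.2 h0) (abs_nonneg _) zero_le_one
    have h3 := (abs_le.1 h2).2
    have h4 : (c * s ^ 2 - lam * s) * (S0 - Real.log (s / a)) =
      (c * s ^ 2 - lam * s) * S0 - (c * s ^ 2 - lam * s) * Real.log (s / a) := by ring
    linarith
  have e1 := term76 hl0 hl1 hε.le h1
  have e2 := term76' hc0 hc1 hε.le h2
  have e3 := term76' (c := 2 * (k * s)) (C := 1) (by linarith) (by linarith) hε.le h3
  have e4 := term76 (c := 2 * k) (C := 2) (by linarith) (by linarith) hε.le h4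
  have e5 := term76 (c := 2 * (h * s)) (C := 1) (by linarith) (by linarith) hε.le h5
  have e6 := term76' (c := 2 * h) (C := 2) (by linarith) (by linarith) hε.le h6
  have e7 : ε * ((2 * c * s - lam) * S0 - 2 * k * S3 + 2 * h * S5) ≤ ε * 9 := by
    apply mul_le_mul_of_nonneg_left _ hε.le
    have h1 : S0 ≤ 5 := by linarith [h0.2]
    have h2' : (2 * c * s - lam) * S0 ≤ 1 * S0 := mul_le_mul_of_nonneg_right (by linarith) hS0
    have h3' : 0 ≤ 2 * k * S3 := by positivity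
    have h4' : 2 * h * S5 ≤ 2 * 2 := by
      have h5' : S5 ≤ 2 := by linarith
      have h6' : 2 * h * S5 ≤ 2 * h * 2 := mul_le_mul_of_nonneg_left h5' (by linarith)
      linarith
    linarith
  unfold JV
  have r1 : JV s a c lam k h = JV s a c lam k h := rfl
  have r3 : 2 * (k * s) * ((s ^ 3 - a ^ 3) / 3) = 2 * k * s * (s ^ 3 - a ^ 3) / 3 := by ring
  have r3' : 2 * (k * s) * S3 = 2 * k * s * S3 := by ring
  have r4 : 2 * k * ((s ^ 4 - a ^ 4) / 4) = k * (s ^ 4 - a ^ 4) / 2 := by ring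
  have r5 : 2 * (h * s) * ((s ^ 5 - a ^ 5) / 5) = 2 * h * s * (s ^ 5 - a ^ 5) / 5 := by ring
  have r5' : 2 * (h * s) * S5 = 2 * h * s * S5 := by ring
  have r6 : 2 * h * ((s ^ 6 - a ^ 6) / 6) = h * (s ^ 6 - a ^ 6) / 3 := by ring
  have r2 : c * ((s ^ 2 - a ^ 2) / 2) = c * (s ^ 2 - a ^ 2) / 2 := by ring
  rw [r3, r3'] at e3
  rw [r4] at e4
  rw [r5, r5'] at e5
  rw [r6] at e6
  rw [r2] at e2
  linarith

/-- the sums over the primes are close to the integrals -/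
theorem sumJ76 {T ε s a c lam k h : ℝ} (hε : 0 < ε) (hε1 : ε ≤ 1 / 1000)
    (hm : MT T (1 / 4000) ε) (ha : 1 / 10 ≤ a) (has : a ≤ s) (hs1 : s ≤ 1 / 2)
    (hc0 : 0 ≤ c) (hc1 : c ≤ 1) (hl0 : 0 ≤ lam) (hl1 : lam ≤ 1) (hk0 : 0 ≤ k) (hk1 : k ≤ 1) (hh0 : 0 ≤ h) (hh1 : h ≤ 1) :
    ∑ p ∈ PI T a s, ((2 * c * s - lam - 2 * k * yy T p ^ 3 + 2 * h * yy T p ^ 5) * (s - yy T p + ε) -
      c * (s - yy T p) ^ 2) / (p : ℝ) ≤ JV s a c lam k h + 1000 * ε := by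
  obtain ⟨hm0, hmk⟩ := hm a s (by linarith) has (by linarith)
  have hm1 := hmk 1 (by norm_num) (by norm_num)
  have hm2 := hmk 2 (by norm_num) (by norm_num)
  have hm3 := hmk 3 (by norm_num) (by norm_num)
  have hm4 := hmk 4 (by norm_num) (by norm_num)
  have hm5 := hmk 5 (by norm_num) (by norm_num)
  have hm6 := hmk 6 (by norm_num) (by norm_num)
  have key : ∑ p ∈ PI T a s, ((2 * c * s - lam - 2 * k * yy T p ^ 3 + 2 * h * yy T p ^ 5) * (s - yy T p + ε) -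
      c * (s - yy T p) ^ 2) / (p : ℝ) =
      (c * s ^ 2 - lam * s) * SP T 0 a s + lam * SP T 1 a s - c * SP T 2 a s - 2 * k * s * SP T 3 a s +
        2 * k * SP T 4 a s + 2 * h * s * SP T 5 a s - 2 * h * SP T 6 a s +
        ε * ((2 * c * s - lam) * SP T 0 a s - 2 * k * SP T 3 a s + 2 * h * SP T 5 a s) := by
    unfold SP
    simp only [Finset.mul_sum, ← Finset.sum_add_distrib, ← Finset.sum_sub_distrib]
    refine Finset.sum_congr rfl fun p _ => ?_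
    ring
  rw [key]
  rw [abs_le] at hm0 hm1 hm2 hm3 hm4 hm5 hm6
  push_cast at hm1 hm2 hm3 hm4 hm5 hm6
  have hS3' : 0 ≤ SP T 3 a s := by
    unfold SP
    refine Finset.sum_nonneg fun p hp => ?_
    have h1 := (mem_PI76.1 hp).2.1
    have h2 : 0 ≤ yy T p := by linarith
    positivity
  have hS0' : 0 ≤ SP T 0 a s := by
    unfold SP
    refine Finset.sum_nonneg fun p hp => ?_
    positivity
  have h1 : SP T 1 a s ≤ (s - a) + ε := by
    have := hm1.2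
    norm_num at this
    linarith
  exact arithJ76 hε hε1 ha has hs1 hc0 hc1 hl0 hl1 hk0 hk1 hh0 hh1 hS0' hS3' hm0 h1 (by linarith [hm2.1])
    (by linarith [hm3.1]) (by linarith [hm4.2]) (by linarith [hm5.2]) (by linarith [hm6.1])

theorem boundJ {N : ℕ} {T v ε s a c lam k h : ℝ} (hT : 1 < T) (hv : 0 ≤ v) (hε : 0 < ε) (hε1 : ε ≤ 1 / 1000)
    (hfl : FL N T v ε) (hm : MT T (1 / 4000) ε) (ha : 1 / 10 ≤ a) (has : a ≤ s) (hs1 : s ≤ 1 / 2)
    (hc0 : 0 ≤ c) (hc1 : c ≤ 1) (hl0 : 0 ≤ lam) (hl1 : lam ≤ 1) (hk0 : 0 ≤ k) (hk1 : k ≤ 1) (hh0 : 0 ≤ h) (hh1 : h ≤ 1)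
    (hw : ∀ y ∈ Icc a s, 0 ≤ 2 * c * s - lam - 2 * k * y ^ 3 + 2 * h * y ^ 5)
    (g : ℕ → ℝ) (hg0 : ∀ n, 0 ≤ g n)
    (hg : ∀ p m : ℕ, p.Prime → a < yy T p → yy T p ≤ s → m ∈ RN N (T ^ (s - yy T p)) →
      g (p * m) ≤ (2 * c * yy T (p * m) - lam - 2 * k * yy T p ^ 3 + 2 * h * yy T p ^ 5) / ((p * m : ℕ) : ℝ)) :
    ∑ n ∈ JC N T s a, g n ≤ v * (JV s a c lam k h + 1000 * ε) := by
  classical
  have h1 : ∑ n ∈ JC N T s a, g n ≤
      ∑ p ∈ PI T a s, ∑ m ∈ RN N (T ^ (s - yy T p)), g (p * m) := by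
    refine cover2 _ _ (fun p => RN N (T ^ (s - yy T p))) ?_ g hg0
    intro n hn
    unfold JC at hn
    rw [Finset.mem_filter] at hn
    obtain ⟨hn1, p, hp, hap⟩ := hn
    obtain ⟨h2, h3, h4⟩ := cof76 hT hn1 hp
    exact ⟨p, mem_PI76.2 ⟨mem_PP76 hT (Nat.prime_of_mem_primeFactors hp) (by linarith), hap, h3⟩,
      n / p, h4, h2⟩
  have h2 : ∑ p ∈ PI T a s, ∑ m ∈ RN N (T ^ (s - yy T p)), g (p * m) ≤
      ∑ p ∈ PI T a s, ∑ m ∈ RN N (T ^ (s - yy T p)),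
        ((2 * c * s - lam - 2 * k * yy T p ^ 3 + 2 * h * yy T p ^ 5) - 2 * c * (s - yy T (p * m))) /
          ((p * m : ℕ) : ℝ) := by
    refine Finset.sum_le_sum fun p hp => Finset.sum_le_sum fun m hm' => ?_
    obtain ⟨hp1, hp2, hp3⟩ := mem_PI76.1 hp
    unfold PP at hp1
    rw [Finset.mem_filter] at hp1
    refine (hg p m hp1.2 hp2 hp3 hm').trans (le_of_eq ?_)
    congr 1
    ring
  have h3 := mom_prod (N := N) (T := T) (v := v) (ε := ε) (s := s) (c := c) hT hv hfl (by linarith) hc0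
    (PI T a s) (fun p => 2 * c * s - lam - 2 * k * yy T p ^ 3 + 2 * h * yy T p ^ 5) (by
      intro p hp
      obtain ⟨hp1, hp2, hp3⟩ := mem_PI76.1 hp
      unfold PP at hp1
      rw [Finset.mem_filter] at hp1
      exact ⟨hp1.2.ne_zero, hp3, hw _ ⟨hp2.le, hp3⟩⟩)
  have h4 := sumJ76 (lam := lam) hε hε1 hm ha has hs1 hc0 hc1 hl0 hl1 hk0 hk1 hh0 hh1
  exact h1.trans (h2.trans (h3.trans (mul_le_mul_of_nonneg_left h4 hv)))

end Pool.Agent.Helper57.PR
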