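import Pool.Agent.Helper57.PR.S1

/-!
# PR-S7: class T, one cell

Fix `q` (`y = y_q ∈ (a,b]`). `n = (q d) r`: `mom_prod` with `w` constant gives `v ∑_q (1/q) ∑_d (Φ(ρ) + w ε)/d`, `ρ = s - y - y_d`,
`Φ(g) = w g - c g²`, `ρ ∈ [t₁ y, t₂ y)`. Size weight: `1/d = (1/y_d) ∑_{p | d} y_p/d`, `y_d ≥ x₀`, so the sum over `d` is at most
`(1/x₀) ∑_{d' ∈ DS} (1/d') ∑_p (y_p/p) (Φ(s - y - y_d' - y_p) + w ε)`, `p` in the range `ρ ∈ [t₁ y, t₂ y)`, and the inner sum is at most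
`w (t₂² - t₁²) y²/2 - c (t₂³ - t₁³) y³/3 + 5 ε` by `MT` (`k = 1,2,3`). Finally `∑_q (1/q) y² · (E/y) = E SP 1 a b ≤ E (b - a + ε)`.
-/

open MeasureTheory Set Filter Topology
open Pool.Agent.Helper57.Zeta Pool.Agent.Helper57.PC Pool.Agent.Helper57.LH Pool.Agent.Helper78.SG
open Pool.Agent.Helper4.SH
open Pool.Agent.Helper69.PP

namespace Pool.Agent.Helper57.PR

private theorem memPP7 {T : ℝ} {p : ℕ} : p ∈ PP T ↔ p ≤ ⌊T⌋₊ ∧ p.Prime := by
  unfold PP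
  rw [Finset.mem_filter, Finset.mem_range]
  constructor
  · rintro ⟨h1, h2⟩
    exact ⟨by omega, h2⟩
  · rintro ⟨h1, h2⟩
    exact ⟨by omega, h2⟩

/-- the size of a squarefree number is the sum of the sizes of its primes -/
private theorem yy_sum7 {T : ℝ} {d : ℕ} (hd : Squarefree d) : yy T d = ∑ p ∈ d.primeFactors, yy T p := by
  unfold yy
  rw [← Finset.sum_div]
  congr 1
  have h1 : (∏ p ∈ d.primeFactors, p) = d := Nat.prod_primeFactors_of_squarefree hd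
  have h2 : Real.log (d : ℝ) = Real.log ((∏ p ∈ d.primeFactors, p : ℕ) : ℝ) := by rw [h1]
  rw [h2]
  push_cast
  rw [Real.log_prod]
  intro p hp
  exact_mod_cast (Nat.prime_of_mem_primeFactors hp).ne_zero

/-- the inner sum over primes -/
private theorem inner7 {T ε A y t1 t2 w c : ℝ} (hε : 0 < ε) (hε1 : ε ≤ 1 / 1000)
    (hm : MT T (1 / 4000) ε) (hy0 : 1 / 4000 ≤ y) (hA0 : 0 ≤ A) (hA1 : A ≤ 1 / 2)
    (ht1 : 0 ≤ t1) (ht : t1 ≤ t2) (hc0 : 0 ≤ c) (hc1 : c ≤ 1) (hw0 : 0 ≤ w) (hw1 : w ≤ 1) (hwc : 2 * c * (t2 * y) ≤ w) :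
    ∑ p ∈ (PP T).filter (fun p => y < yy T p ∧ A - t2 * y < yy T p ∧ yy T p ≤ A - t1 * y),
      yy T p / p * (w * (A - yy T p + ε) - c * (A - yy T p) ^ 2) ≤
      w * (t2 ^ 2 - t1 ^ 2) / 2 * y ^ 2 - c * (t2 ^ 3 - t1 ^ 3) / 3 * y ^ 3 + 5 * ε := by
  classical
  have hy : 0 < y := by linarith
  obtain ⟨X, hX⟩ : ∃ X : ℝ, X = t2 * y := ⟨_, rfl⟩
  obtain ⟨Y, hY⟩ : ∃ Y : ℝ, Y = t1 * y := ⟨_, rfl⟩
  have hY0 : 0 ≤ Y := by rw [hY]; positivity
  have hYX : Y ≤ X := by rw [hX, hY]; exact mul_le_mul_of_nonneg_right ht hy.le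
  have hX0 : 0 ≤ X := hY0.trans hYX
  rw [← hX] at hwc
  have hmain : ∀ z : ℝ, 0 ≤ z → z ≤ X → w * z ^ 2 / 2 - c * z ^ 3 / 3 ≤ w * X ^ 2 / 2 - c * X ^ 3 / 3 := by
    intro z hz0 hzX
    have h1 : 0 ≤ (X - z) * (w * (X + z) / 2 - c * (X ^ 2 + X * z + z ^ 2) / 3) := by
      apply mul_nonneg (by linarith)
      have h2 : 2 * c * X * (X + z) ≤ w * (X + z) := mul_le_mul_of_nonneg_right (by linarith) (by linarith)
      have h3 : c * z ^ 2 ≤ c * (X * z) := by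
        apply mul_le_mul_of_nonneg_left _ hc0
        rw [pow_two]
        exact mul_le_mul_of_nonneg_right hzX hz0
      have h4 : 0 ≤ c * X ^ 2 := by positivity
      have h5 : 0 ≤ c * (X * z) := by positivity
      linarith
    linarith
  have hGX : w * (t2 ^ 2 - t1 ^ 2) / 2 * y ^ 2 - c * (t2 ^ 3 - t1 ^ 3) / 3 * y ^ 3 =
      (w * X ^ 2 / 2 - c * X ^ 3 / 3) - (w * Y ^ 2 / 2 - c * Y ^ 3 / 3) := by
    rw [hX, hY]; ring
  have hsub : (PP T).filter (fun p => y < yy T p ∧ A - t2 * y < yy T p ∧ yy T p ≤ A - t1 * y) =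
      PI T (max y (A - X)) (A - Y) := by
    unfold PI
    apply Finset.filter_congr
    intro p _
    rw [max_lt_iff, ← hX, ← hY]
    tauto
  rw [hsub, hGX]
  rcases le_or_gt (max y (A - X)) (A - Y) with hcase | hcase
  · obtain ⟨u, hu⟩ : ∃ u : ℝ, u = max y (A - X) := ⟨_, rfl⟩
    obtain ⟨u', hu'⟩ : ∃ u' : ℝ, u' = A - Y := ⟨_, rfl⟩
    rw [← hu, ← hu'] at hcase ⊢
    have huy : y ≤ u := by rw [hu]; exact le_max_left _ _
    have huX : A - X ≤ u := by rw [hu]; exact le_max_right _ _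
    have hu0 : 0 < u := by linarith
    have hu'1 : u' ≤ 1 / 2 := by linarith
    obtain ⟨_, hk⟩ := hm u u' (by linarith) hcase (by linarith)
    have h1 := hk 1 le_rfl (by norm_num)
    have h2 := hk 2 (by norm_num) (by norm_num)
    have h3 := hk 3 (by norm_num) (by norm_num)
    have hexp : ∑ p ∈ PI T u u', yy T p / p * (w * (A - yy T p + ε) - c * (A - yy T p) ^ 2) =
        (w * A + w * ε - c * A ^ 2) * SP T 1 u u' + (2 * c * A - w) * SP T 2 u u' - c * SP T 3 u u' := by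
      unfold SP
      rw [Finset.mul_sum, Finset.mul_sum, Finset.mul_sum, ← Finset.sum_add_distrib, ← Finset.sum_sub_distrib]
      refine Finset.sum_congr rfl fun p _ => ?_
      ring
    rw [hexp]
    rw [abs_le] at h1 h2 h3
    norm_num at h1 h2 h3
    obtain ⟨s1, hs1⟩ : ∃ s1 : ℝ, s1 = SP T 1 u u' := ⟨_, rfl⟩
    obtain ⟨s2, hs2⟩ : ∃ s2 : ℝ, s2 = SP T 2 u u' := ⟨_, rfl⟩
    obtain ⟨s3, hs3⟩ : ∃ s3 : ℝ, s3 = SP T 3 u u' := ⟨_, rfl⟩
    rw [← hs1] at h1 ⊢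
    rw [← hs2] at h2 ⊢
    rw [← hs3] at h3 ⊢
    -- errors
    have hA2 : A ^ 2 ≤ 1 / 4 := (pow_le_pow_left₀ hA0 hA1 2).trans_eq (by norm_num)
    have hwA : 0 ≤ w * A := mul_nonneg hw0 hA0
    have hwA1 : w * A ≤ 1 / 2 := (mul_le_mul hw1 hA1 hA0 zero_le_one).trans_eq (one_mul _)
    have hcA : 0 ≤ c * A ^ 2 := mul_nonneg hc0 (sq_nonneg A)
    have hcA1 : c * A ^ 2 ≤ 1 / 4 := (mul_le_mul hc1 hA2 (sq_nonneg A) zero_le_one).trans_eq (one_mul _)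
    have hcA' : 0 ≤ c * A := mul_nonneg hc0 hA0
    have hcA1' : c * A ≤ 1 / 2 := (mul_le_mul hc1 hA1 hA0 zero_le_one).trans_eq (one_mul _)
    have hwe : 0 ≤ w * ε := mul_nonneg hw0 hε.le
    have hwe1 : w * ε ≤ ε := mul_le_of_le_one_left hε.le hw1
    obtain ⟨k1, hk1⟩ : ∃ k1 : ℝ, k1 = w * A + w * ε - c * A ^ 2 := ⟨_, rfl⟩
    have hk1a : |k1| ≤ 1 := by rw [hk1, abs_le]; constructor <;> linarith
    have hk2a : |2 * c * A - w| ≤ 1 := by rw [abs_le]; constructor <;> linarith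
    rw [← hk1]
    have e1 : k1 * s1 ≤ k1 * (u' - u) + ε := by
      have h4 : k1 * (s1 - (u' - u)) ≤ |k1| * |s1 - (u' - u)| := by
        rw [← abs_mul]; exact le_abs_self _
      have h5 : |s1 - (u' - u)| ≤ ε := by rw [abs_le]; constructor <;> linarith
      have h6 : |k1| * |s1 - (u' - u)| ≤ 1 * ε := mul_le_mul hk1a h5 (abs_nonneg _) (by norm_num)
      linarith
    have e2 : (2 * c * A - w) * s2 ≤ (2 * c * A - w) * ((u' ^ 2 - u ^ 2) / 2) + ε := by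
      have h4 : (2 * c * A - w) * (s2 - (u' ^ 2 - u ^ 2) / 2) ≤ |2 * c * A - w| * |s2 - (u' ^ 2 - u ^ 2) / 2| := by
        rw [← abs_mul]; exact le_abs_self _
      have h5 : |s2 - (u' ^ 2 - u ^ 2) / 2| ≤ ε := by rw [abs_le]; constructor <;> linarith
      have h6 : |2 * c * A - w| * |s2 - (u' ^ 2 - u ^ 2) / 2| ≤ 1 * ε := mul_le_mul hk2a h5 (abs_nonneg _) (by norm_num)
      linarith
    have e3 : -(c * s3) ≤ -(c * ((u' ^ 3 - u ^ 3) / 3)) + ε := by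
      have h5 : -ε ≤ s3 - (u' ^ 3 - u ^ 3) / 3 := by linarith
      have h6 := mul_le_mul_of_nonneg_left h5 hc0
      have h7 : c * ε ≤ ε := mul_le_of_le_one_left hε.le hc1
      linarith
    have e4 : w * ε * (u' - u) ≤ ε := by
      have h5 : u' - u ≤ 1 := by linarith
      have h6 : w * ε * (u' - u) ≤ ε * 1 := mul_le_mul hwe1 h5 (by linarith) hε.le
      linarith
    have hz := hmain (A - u) (by linarith) (by linarith)
    have hid : (w * A - c * A ^ 2) * (u' - u) + (2 * c * A - w) * ((u' ^ 2 - u ^ 2) / 2) - c * ((u' ^ 3 - u ^ 3) / 3) =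
        (w * (A - u) ^ 2 / 2 - c * (A - u) ^ 3 / 3) - (w * Y ^ 2 / 2 - c * Y ^ 3 / 3) := by
      rw [hu']; ring
    have hk1' : k1 * (u' - u) = (w * A - c * A ^ 2) * (u' - u) + w * ε * (u' - u) := by rw [hk1]; ring
    linarith
  · have hemp : PI T (max y (A - X)) (A - Y) = ∅ := by
      unfold PI
      apply Finset.filter_false_of_mem
      intro p _ h
      linarith [h.1, h.2]
    rw [hemp, Finset.sum_empty]
    have := hmain Y hY0 hYX
    linarith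

/-- size weighting: `d = p d'` -/
private theorem weight7 {T x0 : ℝ} (hx : 0 < x0) (D : Finset ℕ) (hD : ∀ d ∈ D, Squarefree d ∧ x0 ≤ yy T d)
    (F : ℕ → ℝ) (hF : ∀ d ∈ D, 0 ≤ F d) (D' : Finset ℕ) (S : ℕ → Finset ℕ)
    (hS : ∀ d ∈ D, ∀ p ∈ d.primeFactors, d / p ∈ D' ∧ p ∈ S (d / p))
    (hpos : ∀ d' ∈ D', ∀ p ∈ S d', 0 < p ∧ 0 ≤ yy T p ∧ 0 ≤ F (p * d')) :
    ∑ d ∈ D, F d / d ≤ 1 / x0 * ∑ d' ∈ D', 1 / (d' : ℝ) * ∑ p ∈ S d', yy T p / p * F (p * d') := by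
  classical
  have h1 : ∑ d ∈ D, F d / d ≤ 1 / x0 * ∑ d ∈ D, ∑ p ∈ d.primeFactors, yy T p * (F d / d) := by
    rw [Finset.mul_sum]
    apply Finset.sum_le_sum
    intro d hd
    rw [← Finset.sum_mul, ← yy_sum7 (hD d hd).1, ← mul_assoc]
    have h2 : 0 ≤ F d / d := div_nonneg (hF d hd) (Nat.cast_nonneg d)
    have h3 : 1 ≤ 1 / x0 * yy T d := by
      rw [one_div, inv_mul_eq_div, le_div_iff₀ hx, one_mul]
      exact (hD d hd).2
    calc F d / d = 1 * (F d / d) := (one_mul _).symm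
      _ ≤ _ := mul_le_mul_of_nonneg_right h3 h2
  refine h1.trans (mul_le_mul_of_nonneg_left ?_ (by positivity))
  have h2 : ∑ d ∈ D, ∑ p ∈ d.primeFactors, yy T p * (F d / d) =
      ∑ x ∈ D.sigma (fun d => d.primeFactors), yy T x.2 * (F x.1 / x.1) := by
    rw [Finset.sum_sigma]
  have h3 : ∑ d' ∈ D', 1 / (d' : ℝ) * ∑ p ∈ S d', yy T p / p * F (p * d') =
      ∑ x ∈ D'.sigma S, yy T x.2 * (F (x.2 * x.1) / ((x.2 * x.1 : ℕ) : ℝ)) := by
    rw [Finset.sum_sigma]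
    refine Finset.sum_congr rfl fun d' _ => ?_
    rw [Finset.mul_sum]
    refine Finset.sum_congr rfl fun p _ => ?_
    push_cast
    by_cases hd0 : (d' : ℝ) = 0
    · simp [hd0]
    by_cases hp0 : (p : ℝ) = 0
    · simp [hp0]
    field_simp
  rw [h2, h3]
  obtain ⟨φ, hφ⟩ : ∃ φ : (Σ _ : ℕ, ℕ) → (Σ _ : ℕ, ℕ), φ = fun x => ⟨x.1 / x.2, x.2⟩ := ⟨_, rfl⟩
  have hmul : ∀ x ∈ D.sigma (fun d => d.primeFactors), x.2 * (x.1 / x.2) = x.1 := by
    intro x hx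
    rw [Finset.mem_sigma] at hx
    exact Nat.mul_div_cancel' (Nat.dvd_of_mem_primeFactors hx.2)
  have hinj : Set.InjOn φ (D.sigma (fun d => d.primeFactors) : Finset (Σ _ : ℕ, ℕ)) := by
    intro x hx y hy hxy
    rw [Finset.mem_coe] at hx hy
    have e1 := hmul x hx
    have e2 := hmul y hy
    rw [hφ] at hxy
    simp only [Sigma.mk.injEq, heq_eq_eq] at hxy
    obtain ⟨h5, h6⟩ := hxy
    rcases x with ⟨x1, x2⟩
    rcases y with ⟨y1, y2⟩
    simp only at e1 e2 h5 h6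
    subst h6
    rw [h5] at e1
    have h7 : x1 = y1 := e1.symm.trans e2
    rw [h7]
  calc ∑ x ∈ D.sigma (fun d => d.primeFactors), yy T x.2 * (F x.1 / x.1)
      = ∑ x ∈ D.sigma (fun d => d.primeFactors), (fun z : (Σ _ : ℕ, ℕ) => yy T z.2 * (F (z.2 * z.1) / ((z.2 * z.1 : ℕ) : ℝ))) (φ x) := by
        refine Finset.sum_congr rfl fun x hx => ?_
        rw [hφ]
        simp only
        rw [hmul x hx]
    _ = ∑ z ∈ (D.sigma (fun d => d.primeFactors)).image φ, yy T z.2 * (F (z.2 * z.1) / ((z.2 * z.1 : ℕ) : ℝ)) :=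
        (Finset.sum_image (f := fun z : (Σ _ : ℕ, ℕ) => yy T z.2 * (F (z.2 * z.1) / ((z.2 * z.1 : ℕ) : ℝ))) hinj).symm
    _ ≤ ∑ x ∈ D'.sigma S, yy T x.2 * (F (x.2 * x.1) / ((x.2 * x.1 : ℕ) : ℝ)) := by
        apply Finset.sum_le_sum_of_subset_of_nonneg
        · intro z hz
          rw [Finset.mem_image] at hz
          obtain ⟨x, hx, rfl⟩ := hz
          rw [Finset.mem_sigma] at hx
          obtain ⟨h4, h5⟩ := hS x.1 hx.1 x.2 hx.2
          rw [hφ, Finset.mem_sigma]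
          exact ⟨h4, h5⟩
        · intro z hz _
          rw [Finset.mem_sigma] at hz
          obtain ⟨h4, h5, h6⟩ := hpos z.1 hz.1 z.2 hz.2
          exact mul_nonneg h5 (div_nonneg h6 (Nat.cast_nonneg _))

/-- the cofactors `d` of `q` -/
private noncomputable def DQ7 (T s t1 t2 : ℝ) (q : ℕ) : Finset ℕ :=
  open Classical in (Finset.Icc 1 ⌊T⌋₊).filter (fun d => Squarefree d ∧ 2 ≤ d.primeFactors.card ∧
    (∀ p ∈ d.primeFactors, q < p ∧ yy T p ≤ 1 / 3) ∧ s - t2 * yy T q < yy T q + yy T d ∧ yy T q + yy T d ≤ s - t1 * yy T q)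

private theorem yy_lt7 {T : ℝ} (hT : 1 < T) {q p : ℕ} (hq : 0 < q) (hqp : q < p) : yy T q < yy T p := by
  unfold yy
  apply div_lt_div_of_pos_right _ (Real.log_pos hT)
  apply Real.log_lt_log
  · exact_mod_cast hq
  · exact_mod_cast hqp

private theorem le_floor7 {T : ℝ} (hT : 1 < T) {n : ℕ} (hn : n ≠ 0) (h : yy T n ≤ 1) : n ≤ ⌊T⌋₊ := by
  apply Nat.le_floor
  have := (le_rpow_iff (s := 1) hT hn).2 h
  rwa [Real.rpow_one] at this

private theorem memPI7 {T a b : ℝ} {q : ℕ} : q ∈ PI T a b ↔ q ≤ ⌊T⌋₊ ∧ q.Prime ∧ a < yy T q ∧ yy T q ≤ b := by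
  unfold PI
  rw [Finset.mem_filter, memPP7]
  tauto

private theorem memDQ7 {T s t1 t2 : ℝ} {q d : ℕ} : d ∈ DQ7 T s t1 t2 q ↔ 1 ≤ d ∧ d ≤ ⌊T⌋₊ ∧ Squarefree d ∧
    2 ≤ d.primeFactors.card ∧ (∀ p ∈ d.primeFactors, q < p ∧ yy T p ≤ 1 / 3) ∧ s - t2 * yy T q < yy T q + yy T d ∧
    yy T q + yy T d ≤ s - t1 * yy T q := by
  unfold DQ7
  rw [Finset.mem_filter, Finset.mem_Icc]
  tauto

private theorem memDS7 {T X Y : ℝ} {q d : ℕ} : d ∈ DS T q X Y ↔ 1 ≤ d ∧ d ≤ ⌊T⌋₊ ∧ Squarefree d ∧ d ≠ 1 ∧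
    (∀ p ∈ d.primeFactors, q < p ∧ yy T p ≤ 1 / 3) ∧ X < yy T d ∧ yy T d ≤ Y := by
  unfold DS
  rw [Finset.mem_filter, Finset.mem_Icc]
  tauto

private theorem K7 {a b t1 t2 w c : ℝ} (ha : 0 ≤ a) (hab : a ≤ b) (ht1 : 0 ≤ t1) (ht : t1 ≤ t2) (ht2 : t2 ≤ 1 / 2)
    (hc0 : 0 ≤ c) (hw1 : w ≤ 1) (hwc : 2 * c * (t2 * b) ≤ w) :
    0 ≤ w * (t2 ^ 2 - t1 ^ 2) / 2 - c * (t2 ^ 3 - t1 ^ 3) * a / 3 ∧
      w * (t2 ^ 2 - t1 ^ 2) / 2 - c * (t2 ^ 3 - t1 ^ 3) * a / 3 ≤ 1 / 8 := by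
  have ht20 : 0 ≤ t2 := by linarith
  have hb0 : 0 ≤ b := by linarith
  have h1 : 0 ≤ (t2 - t1) * (t2 + t1) := mul_nonneg (by linarith) (by linarith)
  have h2 : 2 * c * (t2 * b) * ((t2 - t1) * (t2 + t1)) ≤ w * ((t2 - t1) * (t2 + t1)) := mul_le_mul_of_nonneg_right hwc h1
  have h3 : c * (t2 * a) * ((t2 - t1) * (t2 + t1)) ≤ c * (t2 * b) * ((t2 - t1) * (t2 + t1)) := by
    apply mul_le_mul_of_nonneg_right _ h1
    apply mul_le_mul_of_nonneg_left _ hc0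
    exact mul_le_mul_of_nonneg_left hab ht20
  have h4 : c * a * (t2 - t1) * (t2 ^ 2 + t1 * t2 + t1 ^ 2) ≤ c * a * (t2 - t1) * (3 * (t2 * (t2 + t1))) := by
    apply mul_le_mul_of_nonneg_left
    · nlinarith
    · exact mul_nonneg (mul_nonneg hc0 ha) (by linarith)
  have h5 : c * (t2 ^ 3 - t1 ^ 3) * a = c * a * (t2 - t1) * (t2 ^ 2 + t1 * t2 + t1 ^ 2) := by ring
  have h6 : w * (t2 ^ 2 - t1 ^ 2) / 2 = w * ((t2 - t1) * (t2 + t1)) / 2 := by ring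
  rw [h5, h6]
  have h7 : 0 ≤ c * a * (t2 - t1) * (t2 ^ 2 + t1 * t2 + t1 ^ 2) :=
    mul_nonneg (mul_nonneg (mul_nonneg hc0 ha) (by linarith)) (by positivity)
  have h8 : w * ((t2 - t1) * (t2 + t1)) ≤ 1 * (1 / 4) := by
    apply mul_le_mul hw1 _ h1 (by norm_num)
    nlinarith
  constructor
  · nlinarith
  · linarith

/-- one `q` -/
private theorem oneq7 {T ε s a b t1 t2 w c x0 E : ℝ} (hT : 1 < T) (hε : 0 < ε) (hε1 : ε ≤ 1 / 1000)
    (hm : MT T (1 / 4000) ε) (ha : 1 / 4000 ≤ a)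
    (ht1 : 0 ≤ t1) (ht : t1 ≤ t2) (ht2 : t2 ≤ 1 / 2) (hs1 : s ≤ 1 / 2) (hc0 : 0 ≤ c) (hc1 : c ≤ 1) (hw0 : 0 ≤ w)
    (hw1 : w ≤ 1) (hwc : 2 * c * (t2 * b) ≤ w) (hx : 1 / 5 ≤ x0) (hx0 : x0 ≤ s - (1 + t2) * b ∨ x0 ≤ 2 * a) (hE1 : E ≤ 1)
    {q : ℕ} (hq : q.Prime) (hqa : a < yy T q) (hqb : yy T q ≤ b)
    (hE : yy T q * ∑ d ∈ DS T q (s - (1 + t2) * yy T q - 1 / 3) (s - (2 + t1) * yy T q), 1 / (d : ℝ) ≤ E) :
    ∑ d ∈ DQ7 T s t1 t2 q, (w * (s - yy T q - yy T d + ε) - c * (s - yy T q - yy T d) ^ 2) / d ≤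
      (w * (t2 ^ 2 - t1 ^ 2) / 2 - c * (t2 ^ 3 - t1 ^ 3) * a / 3) * E / x0 * yy T q + 10 ^ 5 * ε := by
  classical
  obtain ⟨y, hy⟩ : ∃ y, y = yy T q := ⟨_, rfl⟩
  have hy0 : 0 < y := by rw [hy]; linarith
  have hya : a < y := by rw [hy]; exact hqa
  have hyb : y ≤ b := by rw [hy]; exact hqb
  have hx00 : 0 < x0 := by linarith
  have hFnn : ∀ z : ℝ, t1 * y ≤ z → z < t2 * y → 0 ≤ w * (z + ε) - c * z ^ 2 := by
    intro z hz1 hz2
    have hz0 : 0 ≤ z := by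
      have : 0 ≤ t1 * y := by positivity
      linarith
    have h1 : c * z ≤ w := by
      have h2 : c * z ≤ c * (t2 * b) := by
        apply mul_le_mul_of_nonneg_left _ hc0
        have : t2 * y ≤ t2 * b := mul_le_mul_of_nonneg_left hyb (by linarith)
        linarith
      have h3 : 0 ≤ c * (t2 * b) := by
        have : 0 ≤ b := by linarith
        have : 0 ≤ t2 := by linarith
        positivity
      linarith
    have h4 : c * z * z ≤ w * z := mul_le_mul_of_nonneg_right h1 hz0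
    have h5 : 0 ≤ w * ε := by positivity
    nlinarith
  have hwt := weight7 (T := T) hx00 (DQ7 T s t1 t2 q)
    (fun d hd => by
      rw [memDQ7] at hd
      obtain ⟨_, _, h3, h4, h5, h6, _⟩ := hd
      refine ⟨h3, ?_⟩
      rcases hx0 with h | h
      · rw [← hy] at h6
        have : t2 * y ≤ t2 * b := mul_le_mul_of_nonneg_left hyb (by linarith)
        linarith
      · rw [yy_sum7 h3]
        have h8 : (d.primeFactors.card : ℝ) * y ≤ ∑ p ∈ d.primeFactors, yy T p := by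
          rw [← nsmul_eq_mul]
          apply Finset.card_nsmul_le_sum
          intro p hp
          rw [hy]
          exact (yy_lt7 hT hq.pos (h5 p hp).1).le
        have h9 : (2 : ℝ) ≤ d.primeFactors.card := by exact_mod_cast h4
        have h10 : 2 * y ≤ (d.primeFactors.card : ℝ) * y := mul_le_mul_of_nonneg_right h9 hy0.le
        linarith)
    (fun d => w * (s - yy T q - yy T d + ε) - c * (s - yy T q - yy T d) ^ 2)
    (fun d hd => by
      rw [memDQ7, ← hy] at hd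
      obtain ⟨_, _, _, _, _, h6, h7⟩ := hd
      rw [← hy]
      exact hFnn _ (by linarith) (by linarith))
    (DS T q (s - (1 + t2) * yy T q - 1 / 3) (s - (2 + t1) * yy T q))
    (fun d' => (PP T).filter (fun p => y < yy T p ∧ (s - y - yy T d') - t2 * y < yy T p ∧
      yy T p ≤ (s - y - yy T d') - t1 * y))
    (fun d hd p hp => by
      rw [memDQ7, ← hy] at hd
      obtain ⟨h1, h2, h3, h4, h5, h6, h7⟩ := hd
      have hpp := Nat.prime_of_mem_primeFactors hp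
      have hpd := Nat.dvd_of_mem_primeFactors hp
      have hd0 : d ≠ 0 := by omega
      have hmul : p * (d / p) = d := Nat.mul_div_cancel' hpd
      have hdp0 : d / p ≠ 0 := by
        intro h
        rw [h, mul_zero] at hmul
        exact hd0 hmul.symm
      have hyd : yy T d = yy T p + yy T (d / p) := by
        rw [← yy_mul' hT hpp.ne_zero hdp0, hmul]
      have hpq := yy_lt7 hT hq.pos (h5 p hp).1
      rw [← hy] at hpq
      have hp3 := (h5 p hp).2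
      have hsub : (d / p).primeFactors ⊆ d.primeFactors := Nat.primeFactors_mono (Nat.div_dvd_of_dvd hpd) hd0
      refine ⟨?_, ?_⟩
      · rw [memDS7, ← hy]
        refine ⟨Nat.one_le_iff_ne_zero.2 hdp0, (Nat.div_le_self d p).trans h2, ?_, ?_, ?_, ?_, ?_⟩
        · exact h3.squarefree_of_dvd (Nat.div_dvd_of_dvd hpd)
        · intro h
          rw [h, mul_one] at hmul
          rw [← hmul, Nat.Prime.primeFactors hpp, Finset.card_singleton] at h4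
          omega
        · intro p' hp'
          exact h5 p' (hsub hp')
        · linarith
        · linarith
      · rw [Finset.mem_filter, memPP7]
        refine ⟨⟨(Nat.le_of_dvd (by omega) hpd).trans h2, hpp⟩, hpq, by linarith, by linarith⟩)
    (fun d' hd' p hp => by
      rw [memDS7] at hd'
      rw [Finset.mem_filter, memPP7] at hp
      obtain ⟨⟨_, hpp⟩, h1, h2, h3⟩ := hp
      refine ⟨hpp.pos, yy_nonneg' hT p, ?_⟩
      rw [yy_mul' hT hpp.ne_zero (by omega), ← hy]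
      exact hFnn _ (by linarith) (by linarith))
  refine hwt.trans ?_
  obtain ⟨K, hK⟩ : ∃ K, K = w * (t2 ^ 2 - t1 ^ 2) / 2 - c * (t2 ^ 3 - t1 ^ 3) * a / 3 := ⟨_, rfl⟩
  rw [← hK]
  -- the inner sums
  have hin : ∀ d' ∈ DS T q (s - (1 + t2) * yy T q - 1 / 3) (s - (2 + t1) * yy T q),
      ∑ p ∈ (PP T).filter (fun p => y < yy T p ∧ (s - y - yy T d') - t2 * y < yy T p ∧
        yy T p ≤ (s - y - yy T d') - t1 * y), yy T p / p *
          (w * (s - yy T q - yy T (p * d') + ε) - c * (s - yy T q - yy T (p * d')) ^ 2) ≤ K * y ^ 2 + 5 * ε := by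
    intro d' hd'
    rw [memDS7, ← hy] at hd'
    obtain ⟨h1, _, _, _, _, h6, h7⟩ := hd'
    have hA0 : 0 ≤ s - y - yy T d' := by
      have : 0 ≤ t1 * y := by positivity
      nlinarith
    have hd0 := yy_nonneg' hT d'
    have h2 := inner7 (A := s - y - yy T d') (y := y) (t1 := t1) (t2 := t2) (w := w) (c := c) hε hε1 hm
      (by linarith) hA0 (by linarith) ht1 ht hc0 hc1 hw0 hw1 (by
        have : t2 * y ≤ t2 * b := mul_le_mul_of_nonneg_left hyb (by linarith)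
        have : c * (t2 * y) ≤ c * (t2 * b) := mul_le_mul_of_nonneg_left this hc0
        linarith)
    have h3 : ∑ p ∈ (PP T).filter (fun p => y < yy T p ∧ (s - y - yy T d') - t2 * y < yy T p ∧
        yy T p ≤ (s - y - yy T d') - t1 * y), yy T p / p *
          (w * (s - yy T q - yy T (p * d') + ε) - c * (s - yy T q - yy T (p * d')) ^ 2) =
        ∑ p ∈ (PP T).filter (fun p => y < yy T p ∧ (s - y - yy T d') - t2 * y < yy T p ∧
        yy T p ≤ (s - y - yy T d') - t1 * y), yy T p / p *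
          (w * ((s - y - yy T d') - yy T p + ε) - c * ((s - y - yy T d') - yy T p) ^ 2) := by
      refine Finset.sum_congr rfl fun p hp => ?_
      rw [Finset.mem_filter, memPP7] at hp
      rw [yy_mul' hT hp.1.2.ne_zero (by omega), ← hy]
      ring
    rw [h3]
    refine h2.trans ?_
    have h4 : c * (t2 ^ 3 - t1 ^ 3) * a ≤ c * (t2 ^ 3 - t1 ^ 3) * y := by
      apply mul_le_mul_of_nonneg_left hya.le
      apply mul_nonneg hc0
      have := pow_le_pow_left₀ ht1 ht 3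
      linarith
    have h5 : 0 ≤ y ^ 2 := by positivity
    rw [hK]
    have h6 := mul_le_mul_of_nonneg_right h4 h5
    have h7 : (w * (t2 ^ 2 - t1 ^ 2) / 2 - c * (t2 ^ 3 - t1 ^ 3) * a / 3) * y ^ 2 =
      w * (t2 ^ 2 - t1 ^ 2) / 2 * y ^ 2 - c * (t2 ^ 3 - t1 ^ 3) * a * y ^ 2 / 3 := by ring
    have h8 : c * (t2 ^ 3 - t1 ^ 3) / 3 * y ^ 3 = c * (t2 ^ 3 - t1 ^ 3) * y * y ^ 2 / 3 := by ring
    rw [h7, h8]
    linarith
  have hK0 : 0 ≤ K := by
    rw [hK]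
    exact (K7 (by linarith) (by linarith) ht1 ht ht2 hc0 hw1 hwc).1
  obtain ⟨Sd, hSd⟩ : ∃ Sd : ℝ, Sd = ∑ d ∈ DS T q (s - (1 + t2) * yy T q - 1 / 3) (s - (2 + t1) * yy T q), 1 / (d : ℝ) := ⟨_, rfl⟩
  have hSd0 : 0 ≤ Sd := by rw [hSd]; exact Finset.sum_nonneg fun _ _ => by positivity
  rw [← hSd, ← hy] at hE
  have h1 : ∑ d' ∈ DS T q (s - (1 + t2) * yy T q - 1 / 3) (s - (2 + t1) * yy T q), 1 / (d' : ℝ) *
      ∑ p ∈ (PP T).filter (fun p => y < yy T p ∧ (s - y - yy T d') - t2 * y < yy T p ∧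
        yy T p ≤ (s - y - yy T d') - t1 * y), yy T p / p *
          (w * (s - yy T q - yy T (p * d') + ε) - c * (s - yy T q - yy T (p * d')) ^ 2) ≤ Sd * (K * y ^ 2 + 5 * ε) := by
    rw [hSd, Finset.sum_mul]
    apply Finset.sum_le_sum
    intro d' hd'
    exact mul_le_mul_of_nonneg_left (hin d' hd') (by positivity)
  have h2 : Sd * (K * y ^ 2 + 5 * ε) ≤ K * E * y + 20000 * ε := by
    have h3 : y * Sd * (K * y) ≤ E * (K * y) := mul_le_mul_of_nonneg_right hE (by positivity)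
    have h4 : Sd ≤ 4000 := by
      have h5 : 1 / 4000 * Sd ≤ y * Sd := mul_le_mul_of_nonneg_right (by linarith) hSd0
      linarith
    have h5 : Sd * (5 * ε) ≤ 4000 * (5 * ε) := mul_le_mul_of_nonneg_right h4 (by positivity)
    nlinarith
  have h3 : 1 / x0 ≤ 5 := by
    rw [div_le_iff₀ hx00]
    linarith
  calc 1 / x0 * ∑ d' ∈ DS T q (s - (1 + t2) * yy T q - 1 / 3) (s - (2 + t1) * yy T q), 1 / (d' : ℝ) *
      ∑ p ∈ (PP T).filter (fun p => y < yy T p ∧ (s - y - yy T d') - t2 * y < yy T p ∧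
        yy T p ≤ (s - y - yy T d') - t1 * y), yy T p / p *
          (w * (s - yy T q - yy T (p * d') + ε) - c * (s - yy T q - yy T (p * d')) ^ 2)
      ≤ 1 / x0 * (K * E * y + 20000 * ε) := mul_le_mul_of_nonneg_left (h1.trans h2) (by positivity)
    _ = K * E / x0 * y + 1 / x0 * (20000 * ε) := by ring
    _ ≤ K * E / x0 * y + 5 * (20000 * ε) := by
        have := mul_le_mul_of_nonneg_right h3 (by positivity : 0 ≤ 20000 * ε)
        linarith
    _ = K * E / x0 * yy T q + 10 ^ 5 * ε := by rw [hy]; ring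

theorem cellT {N : ℕ} {T v ε s a b t1 t2 w c x0 E : ℝ} (hT : 1 < T) (hv : 0 ≤ v) (hε : 0 < ε) (hε1 : ε ≤ 1 / 1000)
    (hfl : FL N T v ε) (hm : MT T (1 / 4000) ε) (ha : 1 / 4000 ≤ a) (hab : a ≤ b) (hb : b ≤ 1 / 5)
    (ht1 : 0 ≤ t1) (ht : t1 ≤ t2) (ht2 : t2 ≤ 1 / 2) (hs0 : 2 / 5 ≤ s) (hs1 : s ≤ 1 / 2) (hc0 : 0 ≤ c) (hc1 : c ≤ 1) (hw0 : 0 ≤ w)
    (hw1 : w ≤ 1) (hwc : 2 * c * (t2 * b) ≤ w) (hx : 1 / 5 ≤ x0) (hx0 : x0 ≤ s - (1 + t2) * b ∨ x0 ≤ 2 * a) (hE0 : 0 ≤ E) (hE1 : E ≤ 1)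
    (hE : ∀ q : ℕ, q.Prime → N ≤ q → a < yy T q → yy T q ≤ b →
      yy T q * ∑ d ∈ DS T q (s - (1 + t2) * yy T q - 1 / 3) (s - (2 + t1) * yy T q), 1 / (d : ℝ) ≤ E)
    (g : ℕ → ℝ) (hg0 : ∀ n, 0 ≤ g n) (hg : ∀ n ∈ TC N T s a b t1 t2, g n ≤ (w - 2 * c * (s - yy T n)) / n) :
    ∑ n ∈ TC N T s a b t1 t2, g n ≤ v * ((b - a) * (w * (t2 ^ 2 - t1 ^ 2) / 2 - c * (t2 ^ 3 - t1 ^ 3) * a / 3) * E / x0 +
      10 ^ 10 * ε) := by
  classical
  obtain ⟨Q, hQ⟩ : ∃ Q, Q = (PI T a b).filter (fun q => N ≤ q) := ⟨_, rfl⟩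
  obtain ⟨D0, hD0⟩ : ∃ D0 : Finset ℕ, D0 = Q.biUnion (fun q => (DQ7 T s t1 t2 q).image (fun d => q * d)) := ⟨_, rfl⟩
  have memQ : ∀ q, q ∈ Q ↔ q.Prime ∧ N ≤ q ∧ a < yy T q ∧ yy T q ≤ b := by
    intro q
    rw [hQ, Finset.mem_filter, memPI7]
    constructor
    · rintro ⟨⟨_, h1, h2, h3⟩, h4⟩
      exact ⟨h1, h4, h2, h3⟩
    · rintro ⟨h1, h4, h2, h3⟩
      exact ⟨⟨le_floor7 hT h1.ne_zero (by linarith), h1, h2, h3⟩, h4⟩
  have memD0 : ∀ e, e ∈ D0 ↔ ∃ q ∈ Q, ∃ d ∈ DQ7 T s t1 t2 q, q * d = e := by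
    intro e
    rw [hD0, Finset.mem_biUnion]
    simp only [Finset.mem_image]
  -- facts on `q d`
  have hfac : ∀ q ∈ Q, ∀ d ∈ DQ7 T s t1 t2 q, q * d ≠ 0 ∧ yy T (q * d) = yy T q + yy T d ∧
      t1 * yy T q ≤ s - yy T (q * d) ∧ s - yy T (q * d) < t2 * yy T q := by
    intro q hq d hd
    rw [memQ] at hq
    rw [memDQ7] at hd
    obtain ⟨h1, h2, h3, h4, h5, h6, h7⟩ := hd
    have h8 := yy_mul' hT hq.1.ne_zero (show d ≠ 0 by omega)
    refine ⟨mul_ne_zero hq.1.ne_zero (by omega), h8, by rw [h8]; linarith, by rw [h8]; linarith⟩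
  -- step 1
  have st1 : ∑ n ∈ TC N T s a b t1 t2, g n ≤ ∑ e ∈ D0, ∑ r ∈ RN N (T ^ (s - yy T e)), g (e * r) := by
    apply cover2 _ _ (fun e => RN N (T ^ (s - yy T e))) _ g hg0
    intro n hn
    unfold TC at hn
    rw [Finset.mem_filter, mem_RN_yy hT] at hn
    obtain ⟨⟨hn0, hns, hnN⟩, q, hq, hqa, hqb, d, r, hnd, hd1, hd2, hd3, hd4, hd5⟩ := hn
    have hqp := Nat.prime_of_mem_primeFactors hq
    have hd0 : d ≠ 0 := by
      intro h
      rw [h, mul_zero, zero_mul] at hnd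
      exact hn0 hnd
    have hr0 : r ≠ 0 := by
      intro h
      rw [h, mul_zero] at hnd
      exact hn0 hnd
    have hqd0 : q * d ≠ 0 := mul_ne_zero hqp.ne_zero hd0
    have hyqd := yy_mul' hT hqp.ne_zero hd0
    have hyn : yy T n = yy T (q * d) + yy T r := by rw [hnd, yy_mul' hT hqd0 hr0]
    have hqQ : q ∈ Q := (memQ q).2 ⟨hqp, hnN q hq, hqa, hqb⟩
    have hyq0 := yy_nonneg' hT q
    refine ⟨q * d, (memD0 _).2 ⟨q, hqQ, d, ?_, rfl⟩, r, ?_, hnd⟩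
    · rw [memDQ7]
      refine ⟨by omega, le_floor7 hT hd0 ?_, hd1, hd2, hd3, hd4, hd5⟩
      have : 0 ≤ t1 * yy T q := by positivity
      linarith
    · show r ∈ RN N (T ^ (s - yy T (q * d)))
      rw [mem_RN_yy hT]
      refine ⟨hr0, by linarith, ?_⟩
      intro p hp
      apply hnN
      rw [hnd, Nat.primeFactors_mul hqd0 hr0]
      exact Finset.mem_union_right _ hp
  -- step 2
  have st2 : ∑ e ∈ D0, ∑ r ∈ RN N (T ^ (s - yy T e)), g (e * r) ≤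
      ∑ e ∈ D0, ∑ r ∈ RN N (T ^ (s - yy T e)), (w - 2 * c * (s - yy T (e * r))) / ((e * r : ℕ) : ℝ) := by
    apply Finset.sum_le_sum
    intro e he
    apply Finset.sum_le_sum
    intro r hr
    apply hg
    rw [memD0] at he
    obtain ⟨q, hq, d, hd, rfl⟩ := he
    obtain ⟨f1, f2, f3, f4⟩ := hfac q hq d hd
    rw [memQ] at hq
    rw [memDQ7] at hd
    obtain ⟨h1, h2, h3, h4, h5, h6, h7⟩ := hd
    rw [mem_RN_yy hT] at hr
    obtain ⟨hr0, hr1, hr2⟩ := hr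
    unfold TC
    rw [Finset.mem_filter, mem_RN_yy hT]
    refine ⟨⟨mul_ne_zero f1 hr0, by rw [yy_mul' hT f1 hr0]; linarith, ?_⟩, q, ?_, hq.2.2.1, hq.2.2.2, d, r, rfl, h3, h4, h5, h6, h7⟩
    · intro p hp
      rw [Nat.primeFactors_mul f1 hr0, Finset.mem_union, Nat.primeFactors_mul hq.1.ne_zero (by omega), Finset.mem_union,
        Nat.Prime.primeFactors hq.1, Finset.mem_singleton] at hp
      rcases hp with (hp | hp) | hp
      · rw [hp]; exact hq.2.1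
      · exact hq.2.1.trans (h5 p hp).1.le
      · exact hr2 p hp
    · rw [Nat.mem_primeFactors]
      exact ⟨hq.1, ⟨d * r, by ring⟩, mul_ne_zero f1 hr0⟩
  -- step 3
  have st3 := mom_prod (N := N) (s := s) (c := c) hT hv hfl (by linarith) hc0 D0 (fun _ => w) (fun e he => by
    rw [memD0] at he
    obtain ⟨q, hq, d, hd, rfl⟩ := he
    obtain ⟨f1, f2, f3, f4⟩ := hfac q hq d hd
    rw [memQ] at hq
    have : 0 ≤ t1 * yy T q := mul_nonneg ht1 (by linarith [hq.2.2.1])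
    exact ⟨f1, by linarith, hw0⟩)
  refine (st1.trans (st2.trans st3)).trans (mul_le_mul_of_nonneg_left ?_ hv)
  -- step 4
  obtain ⟨h, hh⟩ : ∃ h : ℕ → ℝ, h = fun e => (w * (s - yy T e + ε) - c * (s - yy T e) ^ 2) / (e : ℝ) := ⟨_, rfl⟩
  have hnn : ∀ q ∈ Q, ∀ d ∈ DQ7 T s t1 t2 q, 0 ≤ h (q * d) := by
    intro q hq d hd
    obtain ⟨f1, f2, f3, f4⟩ := hfac q hq d hd
    rw [memQ] at hq
    rw [hh]
    apply div_nonneg _ (Nat.cast_nonneg _)
    obtain ⟨z, hz⟩ : ∃ z, z = s - yy T (q * d) := ⟨_, rfl⟩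
    rw [← hz] at f3 f4 ⊢
    have hy0 : 0 < yy T q := by linarith [hq.2.2.1]
    have hz0 : 0 ≤ z := le_trans (mul_nonneg ht1 hy0.le) f3
    have ht20 : 0 ≤ t2 := by linarith
    have h1 : c * z ≤ w := by
      have h2 : c * z ≤ c * (t2 * b) := by
        apply mul_le_mul_of_nonneg_left _ hc0
        have : t2 * yy T q ≤ t2 * b := mul_le_mul_of_nonneg_left hq.2.2.2 ht20
        linarith
      have h3 : 0 ≤ c * (t2 * b) := by
        have : 0 ≤ b := by linarith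
        positivity
      linarith
    have h4 : c * z * z ≤ w * z := mul_le_mul_of_nonneg_right h1 hz0
    have h5 : 0 ≤ w * ε := by positivity
    nlinarith
  have st4 : ∑ e ∈ D0, h e ≤ ∑ q ∈ Q, ∑ d ∈ DQ7 T s t1 t2 q, h (q * d) := by
    have h1 := cover2 D0 Q (fun q => DQ7 T s t1 t2 q) (fun e he => by
      rw [memD0] at he
      obtain ⟨q, hq, d, hd, rfl⟩ := he
      exact ⟨q, hq, d, hd, rfl⟩) (fun e => max (h e) 0) (fun e => le_max_right _ _)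
    calc ∑ e ∈ D0, h e ≤ ∑ e ∈ D0, max (h e) 0 := Finset.sum_le_sum fun e _ => le_max_left _ _
      _ ≤ ∑ q ∈ Q, ∑ d ∈ DQ7 T s t1 t2 q, max (h (q * d)) 0 := h1
      _ = _ := by
        refine Finset.sum_congr rfl fun q hq => Finset.sum_congr rfl fun d hd => ?_
        exact max_eq_left (hnn q hq d hd)
  have st5 : ∀ q ∈ Q, ∑ d ∈ DQ7 T s t1 t2 q, h (q * d) ≤
      (w * (t2 ^ 2 - t1 ^ 2) / 2 - c * (t2 ^ 3 - t1 ^ 3) * a / 3) * E / x0 * (yy T q ^ 1 / q) + 10 ^ 5 * ε * (yy T q ^ 0 / q) := by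
    intro q hq
    have hq' := (memQ q).1 hq
    have h1 := oneq7 (E := E) hT hε hε1 hm ha ht1 ht ht2 hs1 hc0 hc1 hw0 hw1 hwc hx hx0 hE1 hq'.1 hq'.2.2.1 hq'.2.2.2
      (hE q hq'.1 hq'.2.1 hq'.2.2.1 hq'.2.2.2)
    have hq0 : (0 : ℝ) < q := by exact_mod_cast hq'.1.pos
    have h2 : ∑ d ∈ DQ7 T s t1 t2 q, h (q * d) = 1 / (q : ℝ) *
        ∑ d ∈ DQ7 T s t1 t2 q, (w * (s - yy T q - yy T d + ε) - c * (s - yy T q - yy T d) ^ 2) / d := by
      rw [Finset.mul_sum]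
      refine Finset.sum_congr rfl fun d hd => ?_
      obtain ⟨f1, f2, f3, f4⟩ := hfac q hq d hd
      rw [hh]
      simp only
      rw [f2]
      have hd1 : (d : ℝ) ≠ 0 := by
        have := (memDQ7.1 hd).1
        exact_mod_cast (show d ≠ 0 by omega)
      push_cast
      field_simp
      ring
    rw [h2]
    calc _ ≤ 1 / (q : ℝ) * ((w * (t2 ^ 2 - t1 ^ 2) / 2 - c * (t2 ^ 3 - t1 ^ 3) * a / 3) * E / x0 * yy T q + 10 ^ 5 * ε) :=
          mul_le_mul_of_nonneg_left h1 (by positivity)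
      _ = _ := by ring
  obtain ⟨K, hK⟩ : ∃ K, K = w * (t2 ^ 2 - t1 ^ 2) / 2 - c * (t2 ^ 3 - t1 ^ 3) * a / 3 := ⟨_, rfl⟩
  have hK01 : 0 ≤ K ∧ K ≤ 1 / 8 := by
    rw [hK]
    exact K7 (by linarith) hab ht1 ht ht2 hc0 hw1 hwc
  rw [← hK] at st5
  have hx00 : 0 < x0 := by linarith
  have hW0 : 0 ≤ K * E / x0 := div_nonneg (mul_nonneg hK01.1 hE0) hx00.le
  have hW1 : K * E / x0 ≤ 1 := by
    rw [div_le_one hx00]
    have : K * E ≤ 1 / 8 * 1 := mul_le_mul hK01.2 hE1 hE0 (by norm_num)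
    linarith
  have hgoal : (b - a) * (w * (t2 ^ 2 - t1 ^ 2) / 2 - c * (t2 ^ 3 - t1 ^ 3) * a / 3) * E / x0 = K * E / x0 * (b - a) := by
    rw [hK]; ring
  rw [hgoal]
  have st6 : ∑ e ∈ D0, h e ≤ K * E / x0 * SP T 1 a b + 10 ^ 5 * ε * SP T 0 a b := by
    refine st4.trans ((Finset.sum_le_sum st5).trans ?_)
    unfold SP
    rw [Finset.mul_sum, Finset.mul_sum, ← Finset.sum_add_distrib]
    apply Finset.sum_le_sum_of_subset_of_nonneg
    · rw [hQ]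
      exact Finset.filter_subset _ _
    · intro q _ _
      have := yy_nonneg' hT q
      positivity
  obtain ⟨m0, m1⟩ := hm a b ha hab (by linarith)
  have m1' := m1 1 le_rfl (by norm_num)
  rw [abs_le] at m0 m1'
  norm_num at m1'
  have hlog : Real.log (b / a) ≤ 800 := by
    have ha0 : 0 < a := by linarith
    have h1 : 0 < b / a := div_pos (by linarith) ha0
    have h2 := Real.log_le_sub_one_of_pos h1
    have h3 : b / a ≤ 800 := by
      rw [div_le_iff₀ ha0]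
      linarith
    linarith
  have e1 : K * E / x0 * SP T 1 a b ≤ K * E / x0 * (b - a) + ε := by
    have h1 : SP T 1 a b ≤ (b - a) + ε := by linarith [m1'.2]
    have h2 := mul_le_mul_of_nonneg_left h1 hW0
    have h3 : K * E / x0 * ε ≤ 1 * ε := mul_le_mul_of_nonneg_right hW1 hε.le
    nlinarith
  have e2 : 10 ^ 5 * ε * SP T 0 a b ≤ 10 ^ 5 * ε * 801 := by
    apply mul_le_mul_of_nonneg_left _ (by positivity)
    linarith [m0.2]
  have hfin : ∑ e ∈ D0, (w * (s - yy T e + ε) - c * (s - yy T e) ^ 2) / (e : ℝ) = ∑ e ∈ D0, h e := by rw [hh]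
  rw [hfin]
  refine st6.trans ?_
  linarith

end Pool.Agent.Helper57.PR
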